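import Pool.Agent.H684R3.FC.Stubs

namespace H684FC.P

open H684FC

noncomputable section

theorem B0_sg_sz (σ : Sg) : sg σ * (sz σ : ℝ) = 1 := by
  unfold sg sz
  split_ifs <;> norm_num

theorem B0_B1 (D : Fin 4 → Gam → Gam → ℤ) (hD : IsFox D) (L : ℕ) (v : Gam) (σ : Sg) (m : ℕ)
    (hm : m < L) : B1 D v (e0 L σ m) = (sz σ : ℝ) * (Finsupp.single (g L σ) (1 : ℝ)) v := by
  unfold B1 e0
  by_cases h : g L σ = v
  · rw [if_pos (by rw [← h]; exact a_mul_b L σ m), ← h]
    have h1 := D_g_a D hD L σ m hm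
    rw [Finsupp.single_eq_same, mul_one]
    exact_mod_cast h1
  · rw [if_neg (by rw [a_mul_b]; exact h), Finsupp.single_apply, if_neg h, mul_zero]

theorem B_zero (D : Fin 4 → Gam → Gam → ℤ) (hD : IsFox D) (J L : ℕ) (hL : 0 < L) (v : Gam) :
    BL D v (eta J L 0) = PP J L v := by
  unfold BL eta PP
  rw [map_sum, Finset.sum_product, Finsupp.finset_sum_apply]
  apply Finset.sum_congr rfl
  intro σ _
  have h1 : ∀ m ∈ Finset.range L, Finsupp.linearCombination ℝ (B1 D v)
      (Finsupp.single (e0 L (σ, m).1 (σ, m).2) (sJ J * sg (σ, m).1 / L)) =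
      (Finsupp.single (g L σ) (sJ J)) v / L := by
    intro m hm
    rw [Finset.mem_range] at hm
    rw [Finsupp.linearCombination_single]
    show (sJ J * sg σ / L) • B1 D v (e0 L σ m) = _
    rw [B0_B1 D hD L v σ m hm, smul_eq_mul]
    have h2 : (Finsupp.single (g L σ) (sJ J)) v = sJ J * (Finsupp.single (g L σ) (1 : ℝ)) v := by
      by_cases h : g L σ = v
      · rw [← h, Finsupp.single_eq_same, Finsupp.single_eq_same, mul_one]
      · rw [Finsupp.single_apply, Finsupp.single_apply, if_neg h, if_neg h, mul_zero]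
    rw [h2]
    have h3 := B0_sg_sz σ
    calc sJ J * sg σ / L * ((sz σ : ℝ) * (Finsupp.single (g L σ) (1 : ℝ)) v)
        = (sg σ * (sz σ : ℝ)) * (sJ J * (Finsupp.single (g L σ) (1 : ℝ)) v / L) := by ring
      _ = _ := by rw [h3, one_mul]
  rw [Finset.sum_congr rfl h1, Finset.sum_const, Finset.card_range, nsmul_eq_mul]
  have hL' : (L : ℝ) ≠ 0 := by positivity
  field_simp

end

end H684FC.P
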