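import Pool.Agent.H684R3.FC.Stubs

/-! B1: `BL D v (eta J L (n+1)) = 0`. -/

namespace H684FC.P

noncomputable section

theorem B1_aux_sz (σ : Sg) : ((sz σ : ℤ) : ℝ) = sg σ := by
  unfold sz sg; split_ifs <;> simp

theorem B1_aux_sq (σ : Sg) : sg σ * sg σ = 1 := by
  unfold sg; split_ifs <;> norm_num

open Classical in
/-- the value of a step -/
def B1_auxF (J L : ℕ) (v : Gam) (e : E) (d : Dt) : ℝ :=
  if XX L e.2.1 d.τ d.l * g L d.σ * YY L e.2.2 d.τ d.l = v then
    coef J L d * (if d.kd then sg d.σ else sg d.τ) else 0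

theorem B1_aux_val (D : Fin 4 → Gam → Gam → ℤ) (hD : IsFox D) (J L : ℕ) (v : Gam) (e : E)
    (he : Gd e.2.1 e.2.2) (h1 : e.2.1 ∈ GS (idx e.2.1 e.2.2)) (h2 : e.2.2 ∈ GS (idx e.2.1 e.2.2))
    (d : Dt) (hd : Val L e d) : coef J L d * B1 D v (out L e d) = B1_auxF J L v e d := by
  classical
  unfold B1 B1_auxF
  rw [← out_mul]
  by_cases hv : (out L e d).2.1 * (out L e d).2.2 = v
  · rw [if_pos hv, if_pos hv, ← hv, D_out D hD L e d he h1 h2 hd]
    by_cases hk : d.kd = true
    · rw [if_pos hk, if_pos hk, B1_aux_sz]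
    · rw [if_neg hk, if_neg hk, B1_aux_sz]
  · rw [if_neg hv, if_neg hv, mul_zero]

theorem B1_aux_inner (J L : ℕ) (hL : 1 < L) (v : Gam) (e : E) (τ : Sg) (l : ℕ) (σ : Sg)
    (hl : l ∈ Finset.range L) (P : Dt → Prop) [DecidablePred P]
    (hP : ∀ d, P d ↔ Val L e d) :
    ∑ kd : Bool, ∑ m ∈ Finset.range L, (if P ⟨τ, l, σ, kd, m⟩ then
      B1_auxF J L v e ⟨τ, l, σ, kd, m⟩ else 0) = 0 := by
  classical
  by_cases hC : τ.1 ∉ idx e.2.1 e.2.2 ∧ σ.1 ∉ idx e.2.1 e.2.2 ∧ σ.1 ≠ τ.1 ∧ col l = e.1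
  · by_cases hv : XX L e.2.1 τ l * g L σ * YY L e.2.2 τ l = v
    · have hL0 : (L : ℝ) ≠ 0 := by
        have : (0 : ℝ) < L := by exact_mod_cast (by omega : 0 < L)
        exact this.ne'
      have hL1 : (L : ℝ) - 1 ≠ 0 := by
        have : (1 : ℝ) < L := by exact_mod_cast hL
        exact (sub_pos.2 this).ne'
      have ht : ∑ m ∈ Finset.range L, (if P ⟨τ, l, σ, true, m⟩ then
          B1_auxF J L v e ⟨τ, l, σ, true, m⟩ else 0) = sg τ / (2 * J) := by
        have h : ∀ m ∈ Finset.range L, (if P ⟨τ, l, σ, true, m⟩ then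
          B1_auxF J L v e ⟨τ, l, σ, true, m⟩ else 0) = sg τ / (2 * J) / L := by
          intro m hm
          have hV : P ⟨τ, l, σ, true, m⟩ := (hP _).2
            ⟨hC.1, hC.2.1, hC.2.2.1, Finset.mem_range.1 hl, Finset.mem_range.1 hm, hC.2.2.2,
              fun h => absurd h (by simp)⟩
          rw [if_pos hV]
          unfold B1_auxF coef
          dsimp only
          rw [if_pos hv, if_pos rfl, if_pos rfl]
          have := B1_aux_sq σ
          calc -sg τ / (2 * (J : ℝ)) * (-sg σ / L) * sg σ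
              = sg τ / (2 * J) / L * (sg σ * sg σ) := by ring
            _ = _ := by rw [this, mul_one]
        rw [Finset.sum_congr rfl h, Finset.sum_const, Finset.card_range, nsmul_eq_mul]
        field_simp
      have hf : ∑ m ∈ Finset.range L, (if P ⟨τ, l, σ, false, m⟩ then
          B1_auxF J L v e ⟨τ, l, σ, false, m⟩ else 0) = -(sg τ / (2 * J)) := by
        have h : ∀ m ∈ Finset.range L, (if P ⟨τ, l, σ, false, m⟩ then
          B1_auxF J L v e ⟨τ, l, σ, false, m⟩ else 0) =
            -(sg τ / (2 * J)) / (L - 1) - (if m = l then -(sg τ / (2 * J)) / (L - 1) else 0) := by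
          intro m hm
          by_cases hml : m = l
          · rw [if_pos hml, if_neg, sub_self]
            intro hh
            exact ((hP _).1 hh).2.2.2.2.2.2 rfl hml
          · have hV : P ⟨τ, l, σ, false, m⟩ := (hP _).2
              ⟨hC.1, hC.2.1, hC.2.2.1, Finset.mem_range.1 hl, Finset.mem_range.1 hm, hC.2.2.2,
                fun _ => hml⟩
            rw [if_pos hV, if_neg hml, sub_zero]
            unfold B1_auxF coef
            dsimp only
            rw [if_pos hv, if_neg (by simp), if_neg (by simp)]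
            have := B1_aux_sq τ
            calc -sg τ / (2 * (J : ℝ)) * (sg τ / ((L : ℝ) - 1)) * sg τ
                = -(sg τ / (2 * J)) / (L - 1) * (sg τ * sg τ) := by ring
              _ = _ := by rw [this, mul_one]
        rw [Finset.sum_congr rfl h, Finset.sum_sub_distrib, Finset.sum_const, Finset.card_range,
          nsmul_eq_mul, Finset.sum_ite_eq' (Finset.range L) l, if_pos hl]
        field_simp
        ring
      rw [Fintype.sum_bool, ht, hf]
      ring
    · refine Finset.sum_eq_zero fun kd _ => Finset.sum_eq_zero fun m _ => ?_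
      have : B1_auxF J L v e ⟨τ, l, σ, kd, m⟩ = 0 := by
        unfold B1_auxF
        exact if_neg hv
      rw [this, ite_self]
  · refine Finset.sum_eq_zero fun kd _ => Finset.sum_eq_zero fun m _ => ?_
    refine if_neg fun h => hC ?_
    obtain ⟨h1, h2, h3, h4, h5, h6, h7⟩ := (hP _).1 h
    exact ⟨h1, h2, h3, h6⟩

theorem B1_aux_step (D : Fin 4 → Gam → Gam → ℤ) (hD : IsFox D) (J L : ℕ) (hL : 1 < L) (v : Gam)
    (e : E) (he : Gd e.2.1 e.2.2) (h1 : e.2.1 ∈ GS (idx e.2.1 e.2.2))
    (h2 : e.2.2 ∈ GS (idx e.2.1 e.2.2)) : BL D v (step1 J L e) = 0 := by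
  classical
  have hB : BL D v (step1 J L e) =
      ∑ d ∈ DtF L (Finset.range J) e, coef J L d * B1 D v (out L e d) := by
    unfold step1 BL
    rw [map_sum]
    refine Finset.sum_congr rfl fun d _ => ?_
    rw [Finsupp.linearCombination_single, smul_eq_mul]
  rw [hB]
  have hF : ∑ d ∈ DtF L (Finset.range J) e, coef J L d * B1 D v (out L e d) =
      ∑ d ∈ DtF L (Finset.range J) e, B1_auxF J L v e d := by
    refine Finset.sum_congr rfl fun d hd => ?_
    unfold DtF at hd
    exact B1_aux_val D hD J L v e he h1 h2 d (Finset.mem_filter.1 hd).2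
  rw [hF]
  unfold DtF DtA
  rw [Finset.sum_filter, Finset.sum_map, Finset.sum_product]
  refine Finset.sum_eq_zero fun τ _ => ?_
  rw [Finset.sum_product]
  refine Finset.sum_eq_zero fun l hl => ?_
  rw [Finset.sum_product]
  refine Finset.sum_eq_zero fun σ _ => ?_
  rw [Finset.sum_product]
  exact B1_aux_inner J L hL v e τ l σ hl _ (fun d => Iff.rfl)

theorem B_succ (D : Fin 4 → Gam → Gam → ℤ) (hD : IsFox D) (J L n : ℕ) (hL : 1 < L) (v : Gam) :
    BL D v (eta J L (n+1)) = 0 := by
  have h : eta J L (n+1) = Finsupp.linearCombination ℝ (step1 J L) (eta J L n) := rfl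
  rw [h, Finsupp.linearCombination_apply, Finsupp.sum, map_sum]
  refine Finset.sum_eq_zero fun e he => ?_
  obtain ⟨g1, g2, g3, g4, g5⟩ := Gen_prop L n (Finset.range J) e (eta_support J L n he)
  rw [map_smul, B1_aux_step D hD J L hL v e g1 g4 g5, smul_zero]

end

end H684FC.P
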