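import Pool.Agent.H684R3.FC.Stubs

namespace H684FC.P

noncomputable section

theorem C1_aux (k : ℕ) (i : Fin 4) :
    ((Finset.range (4 * k)).filter (fun l => H684FC.col l = i)).card = k := by
  induction k with
  | zero => simp
  | succ k ih =>
    have h : Finset.range (4 * (k + 1)) =
        insert (4 * k) (insert (4 * k + 1) (insert (4 * k + 2) (insert (4 * k + 3)
          (Finset.range (4 * k))))) := by
      ext x
      simp only [Finset.mem_range, Finset.mem_insert]
      omega
    have c0 : H684FC.col (4 * k) = 0 := by
      unfold H684FC.col; ext; simp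
    have c1 : H684FC.col (4 * k + 1) = 1 := by
      unfold H684FC.col; ext; simp only [Fin.val_one]; omega
    have c2 : H684FC.col (4 * k + 2) = 2 := by
      unfold H684FC.col; ext; simp only [Fin.val_two]; omega
    have c3 : H684FC.col (4 * k + 3) = 3 := by
      unfold H684FC.col; ext
      have : ((3 : Fin 4) : ℕ) = 3 := rfl
      rw [this]; simp only []; omega
    rw [h]
    simp only [Finset.filter_insert, c0, c1, c2, c3]
    fin_cases i
    · simp; exact ih
    · simp; exact ih
    · simp; exact ih
    · simp; exact ih

theorem col_count (L : ℕ) (h4 : 4 ∣ L) (i : Fin 4) :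
    (((Finset.range L).filter (fun l => col l = i)).card : ℝ) = L / 4 := by
  obtain ⟨k, rfl⟩ := h4
  rw [C1_aux k i]
  push_cast
  ring

theorem fresh_count (J : ℕ) (S : Finset ℕ) (hS : S ⊆ Finset.range J) :
    ((((SgF (Finset.range J)).filter (fun τ => τ.1 ∉ S)).card : ℕ) : ℝ) = 2 * J - 2 * S.card := by
  have h : (SgF (Finset.range J)).filter (fun τ => τ.1 ∉ S) =
      (Finset.range J \ S) ×ˢ (Finset.univ : Finset Bool) := by
    ext x
    simp only [SgF, Finset.mem_filter, Finset.mem_product, Finset.mem_univ, and_true,
      Finset.mem_sdiff]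
  rw [h, Finset.card_product, Finset.card_sdiff_of_subset hS]
  have hc : S.card ≤ J := by
    have := Finset.card_le_card hS
    simpa using this
  simp only [Finset.card_range, Finset.card_univ, Fintype.card_bool]
  rw [Nat.cast_mul, Nat.cast_sub hc]
  push_cast
  ring

end

end H684FC.P
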