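import Pool.Agent.H684R3.FC.Stubs

namespace H684FC.P

theorem D1_aux_one {D : Fin 4 → Gam → Gam → ℤ} (hD : IsFox D) (i : Fin 4) (A : Gam) :
    D i 1 A = 0 := by
  have h := hD.mul i 1 1 A
  rw [one_mul, inv_one, one_mul] at h
  omega

theorem D1_aux_inv {D : Fin 4 → Gam → Gam → ℤ} (hD : IsFox D) (i : Fin 4) (v A : Gam) :
    D i v⁻¹ A = - D i v (v * A) := by
  have h := hD.mul i v v⁻¹ (v * A)
  rw [mul_inv_cancel, D1_aux_one hD, inv_mul_cancel_left] at h
  omega

theorem D_GS (D : Fin 4 → Gam → Gam → ℤ) (hD : IsFox D) (S : Finset ℕ) (v A : Gam) (hv : v ∈ GS S)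
    (hA : A ∉ GS S) (i : Fin 4) : D i v A = 0 := by
  unfold GS at hv
  induction hv using Subgroup.closure_induction generalizing A with
  | mem x hx =>
    rcases hx with ⟨j, -, q, rfl⟩ | ⟨i', rfl⟩
    · exact hD.w i j q A
    · rw [hD.u, if_neg]
      rintro ⟨-, rfl⟩
      apply hA
      exact Subgroup.subset_closure (Or.inr ⟨i, rfl⟩)
  | one => exact D1_aux_one hD i A
  | mul x y hx hy ihx ihy =>
    rw [hD.mul, ihx A hA, ihy (x⁻¹ * A), add_zero]
    intro h
    apply hA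
    have := (GS S).mul_mem (show x ∈ GS S from hx) h
    rwa [mul_inv_cancel_left] at this
  | inv x hx ih =>
    rw [D1_aux_inv hD, ih (x * A), neg_zero]
    intro h
    apply hA
    have := (GS S).mul_mem ((GS S).inv_mem (show x ∈ GS S from hx)) h
    rwa [inv_mul_cancel_left] at this

theorem D_AA (D : Fin 4 → Gam → Gam → ℤ) (hD : IsFox D) (i : Fin 4) (j n : ℕ) (A : Gam) :
    D i (AA j n) A = ∑ l ∈ Finset.range n, if col l = i ∧ A = AA j (l+1) then 1 else 0 := by
  induction n with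
  | zero => simp only [AA, Finset.range_zero, Finset.sum_empty]; exact D1_aux_one hD i A
  | succ n ih =>
    rw [Finset.sum_range_succ, ← ih]
    rw [show AA j (n+1) = AA j n * (w j n * u (col n)) from rfl]
    rw [hD.mul, hD.mul, hD.w, zero_add, hD.u]
    congr 1
    apply if_congr _ rfl rfl
    constructor
    · rintro ⟨rfl, h⟩
      refine ⟨rfl, ?_⟩
      rw [inv_mul_eq_iff_eq_mul, inv_mul_eq_iff_eq_mul] at h
      exact h
    · rintro ⟨rfl, h⟩
      refine ⟨rfl, ?_⟩
      rw [inv_mul_eq_iff_eq_mul, inv_mul_eq_iff_eq_mul]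
      exact h

theorem D1_aux_gP (D : Fin 4 → Gam → Gam → ℤ) (hD : IsFox D) (L j : ℕ) (i : Fin 4) (A : Gam) :
    D i (gP L j) A = ∑ l ∈ Finset.range L, if col l = i ∧ A = AA j (l+1) then 1 else 0 := by
  unfold gP
  rw [hD.mul, hD.w, add_zero, D_AA D hD]

theorem D_g (D : Fin 4 → Gam → Gam → ℤ) (hD : IsFox D) (L : ℕ) (σ : Sg) (i : Fin 4) (A : Gam) :
    D i (g L σ) A = sz σ * ∑ l ∈ Finset.range L, if col l = i ∧ A = a L σ l then 1 else 0 := by
  obtain ⟨j, s⟩ := σ
  cases s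
  · simp only [g, sz, a, Bool.false_eq_true, if_false]
    rw [D1_aux_inv hD, D1_aux_gP D hD, neg_one_mul]
    congr 1
    refine Finset.sum_congr rfl fun l _ => ?_
    apply if_congr _ rfl rfl
    rw [eq_inv_mul_iff_mul_eq]
  · simp only [g, sz, a, if_true]
    rw [D1_aux_gP D hD, one_mul]

end H684FC.P
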