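import Pool.Agent.H684R3.FC.Stubs

namespace H684FC.P

open H684FC

noncomputable section
open Classical

theorem D2_aux_seg (j n : ℕ) : ((seg j 0 n).map Prod.fst).Nodup := by
  unfold seg
  rw [List.map_map]
  refine List.Nodup.map ?_ List.nodup_range'
  intro x y h
  simpa using h

theorem D2_aux_wl (j n : ℕ) : wl (AA j n) = seg j 0 n :=
  wl_eq _ _ (pi_AA j n) (isReduced_of_nodup _ (D2_aux_seg j n))

theorem D2_aux_inj (j n n' : ℕ) (h : AA j n = AA j n') : n = n' := by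
  have h1 : (wl (AA j n)).length = (wl (AA j n')).length := by rw [h]
  rw [D2_aux_wl, D2_aux_wl] at h1
  simpa [seg] using h1

theorem D2_aux_one (D : Fin 4 → Gam → Gam → ℤ) (hD : IsFox D) (j n m : ℕ) (hm : m < n) :
    D (col m) (AA j n) (AA j (m+1)) = 1 := by
  rw [D_AA D hD]
  rw [Finset.sum_eq_single m]
  · simp
  · intro b _ hb
    rw [if_neg]
    rintro ⟨_, h⟩
    have := D2_aux_inj _ _ _ h
    omega
  · intro h
    exact absurd (Finset.mem_range.mpr hm) h

theorem D2_aux_zero (D : Fin 4 → Gam → Gam → ℤ) (hD : IsFox D) (j n m : ℕ) (hm : n ≤ m) (i : Fin 4) :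
    D i (AA j n) (AA j (m+1)) = 0 := by
  rw [D_AA D hD]
  apply Finset.sum_eq_zero
  intro b hb
  rw [if_neg]
  rintro ⟨_, h⟩
  have := D2_aux_inj _ _ _ h
  have := Finset.mem_range.mp hb
  omega

theorem D_g_a (D : Fin 4 → Gam → Gam → ℤ) (hD : IsFox D) (L : ℕ) (σ : Sg) (m : ℕ) (hm : m < L) :
    D (col m) (g L σ) (a L σ m) = sz σ := by
  rw [D_g D hD]
  rw [Finset.sum_eq_single m]
  · simp
  · intro b hb hbm
    rw [if_neg]
    rintro ⟨_, h⟩
    have := (a_inj L σ σ m b hm (Finset.mem_range.mp hb) h).2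
    exact hbm this.symm
  · intro h
    exact absurd (Finset.mem_range.mpr hm) h

theorem D2_aux_false (D : Fin 4 → Gam → Gam → ℤ) (hD : IsFox D) (L : ℕ) (τ : Sg) (hτ : τ.2 = false)
    (l m : ℕ) (hm : m < L) :
    D (col m) (a L τ l) (a L τ m) = sz τ + D (col m) (AA τ.1 (l+1)) (AA τ.1 (m+1)) := by
  have h1 : a L τ l = g L τ * AA τ.1 (l+1) := by simp [a, g, hτ]
  have h2 : (g L τ)⁻¹ * a L τ m = AA τ.1 (m+1) := by simp [a, g, hτ]
  rw [h1, hD.mul, D_g_a D hD L τ m hm, h2]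

theorem D_a_a (D : Fin 4 → Gam → Gam → ℤ) (hD : IsFox D) (L : ℕ) (τ : Sg) (l m : ℕ) (hl : l < L)
    (hm : m < L) (h : bef τ m l) : D (col m) (a L τ l) (a L τ m) = sz τ := by
  cases hτ : τ.2 with
  | true =>
    have h' : m < l := by simpa [bef, hτ] using h
    have h1 : ∀ q, a L τ q = AA τ.1 (q+1) := by intro q; simp [a, hτ]
    rw [h1, h1, D2_aux_one D hD _ _ _ (by omega)]
    simp [sz, hτ]
  | false =>
    have h' : l < m := by simpa [bef, hτ] using h
    rw [D2_aux_false D hD L τ hτ l m hm, D2_aux_zero D hD _ _ _ (by omega)]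
    simp

theorem D_b_mid (D : Fin 4 → Gam → Gam → ℤ) (hD : IsFox D) (L : ℕ) (τ : Sg) (l m : ℕ) (hl : l < L)
    (hm : m < L) (h : bef τ l m) :
    D (col m) (b L τ l) ((a L τ l)⁻¹ * a L τ m) = sz τ := by
  have h0 : D (col m) (a L τ l) (a L τ m) = 0 := by
    cases hτ : τ.2 with
    | true =>
      have h' : l < m := by simpa [bef, hτ] using h
      have h1 : ∀ q, a L τ q = AA τ.1 (q+1) := by intro q; simp [a, hτ]
      rw [h1, h1, D2_aux_zero D hD _ _ _ (by omega)]
    | false =>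
      have h' : m < l := by simpa [bef, hτ] using h
      rw [D2_aux_false D hD L τ hτ l m hm, D2_aux_one D hD _ _ _ (by omega)]
      simp [sz, hτ]
  have h2 := D_g_a D hD L τ m hm
  rw [← a_mul_b L τ l, hD.mul, h0, zero_add] at h2
  exact h2

end

end H684FC.P
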