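import Pool.Agent.H684R3.FC.Stubs

namespace H684FC.P

theorem D3_aux_nm (x : Gam) (α : List ((ℕ × ℕ) × Bool)) (h : pi x = FreeGroup.mk α)
    (hα : (α.map Prod.fst).Nodup) (y : (ℕ × ℕ) × Bool) (hy : α.head? = some y)
    (U : Finset ℕ) (hU : y.1.1 ∉ U) : x ∉ GS U := by
  intro hx
  apply hU
  apply ix_of_mem_GS U x hx
  rw [wl_eq x α h (isReduced_of_nodup α hα)]
  unfold ix
  rw [List.mem_toFinset, List.mem_map]
  exact ⟨y, List.mem_of_mem_head? hy, rfl⟩

theorem D3_aux_a (L : ℕ) (σ : Sg) (m : ℕ) (hm : m < L) (U : Finset ℕ) (hU : σ.1 ∉ U) :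
    a L σ m ∉ GS U := by
  apply D3_aux_nm _ _ (pi_a L σ m hm) _ _ (la_head L σ m hm) U hU
  have h := lg_nodup L σ
  rw [← la_append_lb L σ m hm, List.map_append] at h
  exact (List.nodup_append.1 h).1

theorem D3_aux_b (L : ℕ) (σ : Sg) (m : ℕ) (hm : m < L) (U : Finset ℕ) (hU : σ.1 ∉ U) :
    b L σ m ∉ GS U := by
  apply D3_aux_nm _ _ (pi_b L σ m hm) _ _ (lb_head L σ m hm) U hU
  have h := lg_nodup L σ
  rw [← la_append_lb L σ m hm, List.map_append] at h
  exact (List.nodup_append.1 h).2.1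

theorem D3_aux_g (L : ℕ) (σ : Sg) (U : Finset ℕ) (hU : σ.1 ∉ U) :
    g L σ ∉ GS U :=
  D3_aux_nm _ _ (pi_g L σ) (lg_nodup L σ) _ (lg_head L σ) U hU

theorem D3_aux_mid (L : ℕ) (τ : Sg) (l m : ℕ) (hl : l < L) (hm : m < L) (hb : bef τ l m)
    (U : Finset ℕ) (hU : τ.1 ∉ U) : (a L τ l)⁻¹ * a L τ m ∉ GS U := by
  apply D3_aux_nm _ _ (pi_mid L τ l m hl hm hb) _ _ (mid_head τ l m hb) U hU
  have h := lg_nodup L τ
  rw [← la_append_lb L τ l hl, List.map_append] at h
  have h2 := (List.nodup_append.1 h).2.1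
  rw [lb_split L τ l m hl hm hb, List.map_append] at h2
  exact (List.nodup_append.1 h2).1

theorem out_mul (L : ℕ) (e : E) (d : Dt) :
    (out L e d).2.1 * (out L e d).2.2 = XX L e.2.1 d.τ d.l * g L d.σ * YY L e.2.2 d.τ d.l := by
  have h1 := a_mul_b L d.σ d.m
  have h2 := a_mul_b L d.τ d.m
  have h3 := a_mul_b L d.τ d.l
  unfold out XX YY
  split_ifs
  · simp only
    rw [← h1]
    group
  · simp only
    have h4 : (a L d.τ d.l)⁻¹ * a L d.τ d.m * b L d.τ d.m = b L d.τ d.l := by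
      rw [mul_assoc, h2, ← h3]
      group
    calc e.2.1 * (a L d.τ d.l)⁻¹ * a L d.τ d.m * (b L d.τ d.m * g L d.σ * a L d.τ d.l * e.2.2)
        = e.2.1 * ((a L d.τ d.l)⁻¹ * a L d.τ d.m * b L d.τ d.m) * g L d.σ *
          (a L d.τ d.l * e.2.2) := by group
      _ = _ := by rw [h4]
  · simp only
    have h4 : a L d.τ d.m * b L d.τ d.m * (b L d.τ d.l)⁻¹ = a L d.τ d.l := by
      rw [h2, ← h3]
      group
    calc e.2.1 * b L d.τ d.l * g L d.σ * a L d.τ d.m * (b L d.τ d.m * (b L d.τ d.l)⁻¹ * e.2.2)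
        = e.2.1 * b L d.τ d.l * g L d.σ * (a L d.τ d.m * b L d.τ d.m * (b L d.τ d.l)⁻¹ *
          e.2.2) := by group
      _ = _ := by rw [h4]

theorem D_out (D : Fin 4 → Gam → Gam → ℤ) (hD : IsFox D) (L : ℕ) (e : E) (d : Dt)
    (he : Gd e.2.1 e.2.2) (h1 : e.2.1 ∈ GS (idx e.2.1 e.2.2)) (h2 : e.2.2 ∈ GS (idx e.2.1 e.2.2))
    (hd : Val L e d) :
    D (out L e d).1 ((out L e d).2.1 * (out L e d).2.2) (out L e d).2.1 =
      if d.kd then sz d.σ else sz d.τ := by
  obtain ⟨hτ, hσ, hστ, hl, hm, hcol, hml⟩ := hd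
  obtain ⟨i, A, B⟩ := e
  obtain ⟨τ, l, σ, kd, m⟩ := d
  simp only at h1 h2 hτ hσ hστ hl hm hcol hml he ⊢
  rw [out_mul]
  simp only
  set S := idx A B with hS
  have hST : GS S ≤ GS (insert τ.1 S) := GS_mono (Finset.subset_insert _ _)
  have hτT : GS {τ.1} ≤ GS (insert τ.1 S) :=
    GS_mono (Finset.singleton_subset_iff.2 (Finset.mem_insert_self _ _))
  have hσT : σ.1 ∉ insert τ.1 S := by
    rw [Finset.mem_insert, not_or]
    exact ⟨hστ, hσ⟩
  have hσs : σ.1 ∉ ({τ.1} : Finset ℕ) := by simpa using hστ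
  have hτs : τ.1 ∉ ({σ.1} : Finset ℕ) := by simpa using fun h => hστ h.symm
  have ab_m := a_mul_b L τ m
  have ab_l := a_mul_b L τ l
  have abσ := a_mul_b L σ m
  have hv : XX L A τ l * g L σ * YY L B τ l =
      A * (b L τ l * (g L σ * (a L τ l * B))) := by
    unfold XX YY
    group
  cases kd with
  | true =>
    simp only [if_true]
    have e1 : (out L (i, A, B) ⟨τ, l, σ, true, m⟩).1 = col m := by simp [out]
    have e2 : (out L (i, A, B) ⟨τ, l, σ, true, m⟩).2.1 = XX L A τ l * a L σ m := by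
      simp [out, XX]
    rw [e1, e2, mul_assoc, hD.mul, hD.mul]
    have hX : XX L A τ l ∈ GS (insert τ.1 S) :=
      Subgroup.mul_mem _ (hST h1) (hτT (b_mem_GS L τ l))
    have hY : YY L B τ l ∈ GS (insert τ.1 S) :=
      Subgroup.mul_mem _ (hτT (a_mem_GS L τ l)) (hST h2)
    have z1 : D (col m) (XX L A τ l) (XX L A τ l * a L σ m) = 0 := by
      apply D_GS D hD _ _ _ hX
      intro hmem
      rw [Subgroup.mul_mem_cancel_left _ hX] at hmem
      exact D3_aux_a L σ m hm _ hσT hmem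
    have e3 : (XX L A τ l)⁻¹ * (XX L A τ l * a L σ m) = a L σ m := by group
    have e4 : (g L σ)⁻¹ * a L σ m = (b L σ m)⁻¹ := by
      rw [← abσ]; group
    have z2 : D (col m) (YY L B τ l) ((b L σ m)⁻¹) = 0 := by
      apply D_GS D hD _ _ _ hY
      intro hmem
      rw [Subgroup.inv_mem_iff] at hmem
      exact D3_aux_b L σ m hm _ hσT hmem
    rw [z1, e3, e4, z2, D_g_a D hD L σ m hm]
    ring
  | false =>
    simp only [Bool.false_eq_true, if_false]
    rw [hv]
    by_cases hb : bef τ l m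
    · have e1 : (out L (i, A, B) ⟨τ, l, σ, false, m⟩).1 = col m := by simp [out, hb]
      have e2 : (out L (i, A, B) ⟨τ, l, σ, false, m⟩).2.1 = A * ((a L τ l)⁻¹ * a L τ m) := by
        simp [out, hb, mul_assoc]
      have e3 : A⁻¹ * (A * ((a L τ l)⁻¹ * a L τ m)) = (a L τ l)⁻¹ * a L τ m := by group
      have e4 : (b L τ l)⁻¹ * ((a L τ l)⁻¹ * a L τ m) = (b L τ m)⁻¹ := by
        have : (b L τ l)⁻¹ * ((a L τ l)⁻¹ * a L τ m) = (a L τ l * b L τ l)⁻¹ * a L τ m := by group
        rw [this, ab_l, ← ab_m]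
        group
      rw [e1, e2, hD.mul, e3, hD.mul, e4, hD.mul, hD.mul]
      have z1 : D (col m) A (A * ((a L τ l)⁻¹ * a L τ m)) = 0 := by
        apply D_GS D hD _ _ _ h1
        intro hmem
        rw [Subgroup.mul_mem_cancel_left _ h1] at hmem
        exact D3_aux_mid L τ l m hl hm hb _ hτ hmem
      have z2 : D (col m) (g L σ) ((b L τ m)⁻¹) = 0 := by
        apply D_GS D hD _ _ _ (g_mem_GS L σ)
        intro hmem
        rw [Subgroup.inv_mem_iff] at hmem
        exact D3_aux_b L τ m hm _ hτs hmem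
      have z3 : D (col m) (a L τ l) ((g L σ)⁻¹ * (b L τ m)⁻¹) = 0 := by
        apply D_GS D hD _ _ _ (a_mem_GS L τ l)
        intro hmem
        rw [Subgroup.mul_mem_cancel_right _ (Subgroup.inv_mem _ (b_mem_GS L τ m)),
          Subgroup.inv_mem_iff] at hmem
        exact D3_aux_g L σ _ hσs hmem
      have z4 : D (col m) B ((a L τ l)⁻¹ * ((g L σ)⁻¹ * (b L τ m)⁻¹)) = 0 := by
        apply D_GS D hD _ _ _ h2
        intro hmem
        have h3 := hST hmem
        rw [Subgroup.mul_mem_cancel_left _ (Subgroup.inv_mem _ (hτT (a_mem_GS L τ l))),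
          Subgroup.mul_mem_cancel_right _ (Subgroup.inv_mem _ (hτT (b_mem_GS L τ m))),
          Subgroup.inv_mem_iff] at h3
        exact D3_aux_g L σ _ hσT h3
      rw [z1, z2, z3, z4, D_b_mid D hD L τ l m hl hm hb]
      ring
    · have hb' : bef τ m l := by
        have hne := hml rfl
        unfold bef at hb ⊢
        split_ifs at hb ⊢ <;> omega
      have e1 : (out L (i, A, B) ⟨τ, l, σ, false, m⟩).1 = col m := by simp [out, hb]
      have e2 : (out L (i, A, B) ⟨τ, l, σ, false, m⟩).2.1 =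
          A * (b L τ l * (g L σ * a L τ m)) := by
        simp [out, hb, mul_assoc]
      have e3 : A⁻¹ * (A * (b L τ l * (g L σ * a L τ m))) = b L τ l * (g L σ * a L τ m) := by group
      have e4 : (b L τ l)⁻¹ * (b L τ l * (g L σ * a L τ m)) = g L σ * a L τ m := by group
      have e5 : (g L σ)⁻¹ * (g L σ * a L τ m) = a L τ m := by group
      rw [e1, e2, hD.mul, e3, hD.mul, e4, hD.mul, e5, hD.mul]
      have z1 : D (col m) A (A * (b L τ l * (g L σ * a L τ m))) = 0 := by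
        apply D_GS D hD _ _ _ h1
        intro hmem
        rw [Subgroup.mul_mem_cancel_left _ h1] at hmem
        have h3 := hST hmem
        rw [Subgroup.mul_mem_cancel_left _ (hτT (b_mem_GS L τ l)),
          Subgroup.mul_mem_cancel_right _ (hτT (a_mem_GS L τ m))] at h3
        exact D3_aux_g L σ _ hσT h3
      have z2 : D (col m) (b L τ l) (b L τ l * (g L σ * a L τ m)) = 0 := by
        apply D_GS D hD _ _ _ (b_mem_GS L τ l)
        intro hmem
        rw [Subgroup.mul_mem_cancel_left _ (b_mem_GS L τ l),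
          Subgroup.mul_mem_cancel_right _ (a_mem_GS L τ m)] at hmem
        exact D3_aux_g L σ _ hσs hmem
      have z3 : D (col m) (g L σ) (g L σ * a L τ m) = 0 := by
        apply D_GS D hD _ _ _ (g_mem_GS L σ)
        intro hmem
        rw [Subgroup.mul_mem_cancel_left _ (g_mem_GS L σ)] at hmem
        exact D3_aux_a L τ m hm _ hτs hmem
      have z4 : D (col m) B ((a L τ l)⁻¹ * a L τ m) = 0 := by
        apply D_GS D hD _ _ _ h2
        intro hmem
        rw [← Subgroup.inv_mem_iff, mul_inv_rev, inv_inv] at hmem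
        exact D3_aux_mid L τ m l hm hl hb' _ hτ hmem
      rw [z1, z2, z3, z4, D_a_a D hD L τ l m hl hm hb']
      ring

end H684FC.P
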