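import Mathlib

/-!
Combinatorial core of the free group factor theorem (step 4 of note 777), in the form with
different letters `w j q` at each place.
-/

namespace H684FC

/-- letters: `Sum.inl (j,q)` is the letter `w j q`, `Sum.inr i` is the letter `u i`. -/
abbrev Lt : Type := (ℕ × ℕ) ⊕ Fin 4

/-- the free group on all letters -/
abbrev Gam : Type := FreeGroup Lt

/-- the free group on the letters `w j q` -/
abbrev Wd : Type := FreeGroup (ℕ × ℕ)

/-- a signed index -/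
abbrev Sg : Type := ℕ × Bool

/-- basis elements `e_(i,(A,B))` -/
abbrev E : Type := Fin 4 × Gam × Gam

def w (j q : ℕ) : Gam := FreeGroup.of (Sum.inl (j, q))
def u (i : Fin 4) : Gam := FreeGroup.of (Sum.inr i)

/-- the colour of the gap `l` -/
def col (l : ℕ) : Fin 4 := ⟨l % 4, Nat.mod_lt _ (by norm_num)⟩

/-- kill the letters `u i` -/
def pi : Gam →* Wd := FreeGroup.lift (Sum.elim (fun x => FreeGroup.of x) (fun _ => 1))

/-- `AA j n = w j 0 * u (col 0) * ... * w j (n-1) * u (col (n-1))` -/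
def AA (j : ℕ) : ℕ → Gam
  | 0 => 1
  | (n+1) => AA j n * (w j n * u (col n))

/-- `gP L j = w j 0 * u (col 0) * w j 1 * ... * u (col (L-1)) * w j L` -/
def gP (L j : ℕ) : Gam := AA j L * w j L

/-- the word of the signed index `σ = (j, s)`: `gP L j` or its inverse -/
def g (L : ℕ) (σ : Sg) : Gam := if σ.2 then gP L σ.1 else (gP L σ.1)⁻¹

/-- first half of the split of `g L σ` at the gap `l` (a positive letter belongs to `a`,
a negative letter to `b`) -/
def a (L : ℕ) (σ : Sg) (l : ℕ) : Gam :=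
  if σ.2 then AA σ.1 (l+1) else (gP L σ.1)⁻¹ * AA σ.1 (l+1)

/-- second half of the split of `g L σ` at the gap `l` -/
def b (L : ℕ) (σ : Sg) (l : ℕ) : Gam :=
  if σ.2 then (AA σ.1 (l+1))⁻¹ * gP L σ.1 else (AA σ.1 (l+1))⁻¹

/-- the opposite sign -/
def bar (σ : Sg) : Sg := (σ.1, !σ.2)

/-- the sign as a real number -/
def sg (σ : Sg) : ℝ := if σ.2 then 1 else -1

/-- the list `w j p, ..., w j (p+n-1)` -/
def seg (j p n : ℕ) : List ((ℕ × ℕ) × Bool) := (List.range' p n).map (fun q => ((j, q), true))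

/-- the `w`-word of `a L σ l` -/
def la (L : ℕ) (σ : Sg) (l : ℕ) : List ((ℕ × ℕ) × Bool) :=
  if σ.2 then seg σ.1 0 (l+1) else FreeGroup.invRev (seg σ.1 (l+1) (L-l))

/-- the `w`-word of `b L σ l` -/
def lb (L : ℕ) (σ : Sg) (l : ℕ) : List ((ℕ × ℕ) × Bool) :=
  if σ.2 then seg σ.1 (l+1) (L-l) else FreeGroup.invRev (seg σ.1 0 (l+1))

/-- the `w`-word of `g L σ` -/
def lg (L : ℕ) (σ : Sg) : List ((ℕ × ℕ) × Bool) :=
  if σ.2 then seg σ.1 0 (L+1) else FreeGroup.invRev (seg σ.1 0 (L+1))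

/-- `l` comes before `m` in the block `τ` -/
def bef (τ : Sg) (l m : ℕ) : Prop := if τ.2 then l < m else m < l

instance (τ : Sg) (l m : ℕ) : Decidable (bef τ l m) := by unfold bef; infer_instance

/-- the `w`-word between the gaps `l` and `m` (for `bef τ l m`) -/
def mid (τ : Sg) (l m : ℕ) : List ((ℕ × ℕ) × Bool) :=
  if τ.2 then seg τ.1 (l+1) (m-l) else FreeGroup.invRev (seg τ.1 (m+1) (l-m))

/-- the reduced `w`-word of an element -/
def wl (x : Gam) : List ((ℕ × ℕ) × Bool) := (pi x).toWord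

/-- indices in a word -/
def ix (L : List ((ℕ × ℕ) × Bool)) : Finset ℕ := (L.map (fun x => x.1.1)).toFinset

/-- index set of a pair -/
def idx (A B : Gam) : Finset ℕ := ix (wl A) ∪ ix (wl B)

/-- a pair is good if each letter `w j q` occurs at most once in the reduced words -/
def Gd (A B : Gam) : Prop := ((wl A ++ wl B).map Prod.fst).Nodup

/-- the data of a step: block `τ` inserted (rotated) at the gap `l`, block `σ`, kind, gap `m` -/
structure Dt : Type where
  τ : Sg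
  l : ℕ
  σ : Sg
  kd : Bool
  m : ℕ
deriving DecidableEq

/-- `X = A * b τ l` -/
def XX (L : ℕ) (A : Gam) (τ : Sg) (l : ℕ) : Gam := A * b L τ l
/-- `Y = a τ l * B` -/
def YY (L : ℕ) (B : Gam) (τ : Sg) (l : ℕ) : Gam := a L τ l * B

/-- the new basis element of a step -/
def out (L : ℕ) (e : E) (d : Dt) : E :=
  if d.kd then
    (col d.m, e.2.1 * b L d.τ d.l * a L d.σ d.m, b L d.σ d.m * (a L d.τ d.l * e.2.2))
  else if bef d.τ d.l d.m then
    (col d.m, e.2.1 * (a L d.τ d.l)⁻¹ * a L d.τ d.m,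
      b L d.τ d.m * g L d.σ * a L d.τ d.l * e.2.2)
  else
    (col d.m, e.2.1 * b L d.τ d.l * g L d.σ * a L d.τ d.m,
      b L d.τ d.m * (b L d.τ d.l)⁻¹ * e.2.2)

/-- admissible data -/
def Val (L : ℕ) (e : E) (d : Dt) : Prop :=
  d.τ.1 ∉ idx e.2.1 e.2.2 ∧ d.σ.1 ∉ idx e.2.1 e.2.2 ∧ d.σ.1 ≠ d.τ.1 ∧ d.l < L ∧ d.m < L ∧
    col d.l = e.1 ∧ (d.kd = false → d.m ≠ d.l)

end H684FC

namespace H684FC

/-! ### letters at the ends -/

/-- last letter of `la L σ l` (and of `mid`) -/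
def le (σ : Sg) (l : ℕ) : (ℕ × ℕ) × Bool := ((σ.1, if σ.2 then l else l+1), σ.2)
/-- first letter of `lb L σ l` -/
def fe (σ : Sg) (l : ℕ) : (ℕ × ℕ) × Bool := ((σ.1, if σ.2 then l+1 else l), σ.2)
/-- first letter of the block -/
def st (L : ℕ) (σ : Sg) : (ℕ × ℕ) × Bool := ((σ.1, if σ.2 then 0 else L), σ.2)
/-- last letter of the block -/
def en (L : ℕ) (σ : Sg) : (ℕ × ℕ) × Bool := ((σ.1, if σ.2 then L else 0), σ.2)

/-! ### subgroups -/

/-- the subgroup generated by the letters `w j q`, `j ∈ S`, and all `u i` -/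
def GS (S : Finset ℕ) : Subgroup Gam :=
  Subgroup.closure ({x | ∃ j ∈ S, ∃ q, x = w j q} ∪ Set.range u)

/-! ### Fox derivatives -/

/-- coefficients `D i v A` of the Fox derivatives -/
structure IsFox (D : Fin 4 → Gam → Gam → ℤ) : Prop where
  mul : ∀ i v x A, D i (v * x) A = D i v A + D i x (v⁻¹ * A)
  u : ∀ i i' A, D i (u i') A = if i = i' ∧ A = H684FC.u i then 1 else 0
  w : ∀ i j q A, D i (w j q) A = 0

/-- the sign as an integer -/
def sz (σ : Sg) : ℤ := if σ.2 then 1 else -1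

/-! ### families -/

/-- signed indices below `J` -/
def SgF (V : Finset ℕ) : Finset Sg := V ×ˢ Finset.univ

/-- the embedding of the product into the data -/
def dtEmb : (Sg × ℕ × Sg × Bool × ℕ) ↪ Dt where
  toFun x := ⟨x.1, x.2.1, x.2.2.1, x.2.2.2.1, x.2.2.2.2⟩
  inj' := by
    rintro ⟨a, b, c, d, e⟩ ⟨a', b', c', d', e'⟩ h
    simpa using h

/-- all data with indices in `V` -/
def DtA (L : ℕ) (V : Finset ℕ) : Finset Dt :=
  (SgF V ×ˢ Finset.range L ×ˢ SgF V ×ˢ (Finset.univ : Finset Bool) ×ˢ Finset.range L).map dtEmb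

noncomputable section

open Classical in
/-- admissible data with indices in `V` for the basis element `e` -/
def DtF (L : ℕ) (V : Finset ℕ) (e : E) : Finset Dt := (DtA L V).filter (fun d => Val L e d)

/-- the basis elements of stage 0 -/
def e0 (L : ℕ) (σ : Sg) (m : ℕ) : E := (col m, a L σ m, b L σ m)

open Classical in
/-- the basis elements of stage `n` with indices in `V` -/
def Gen (L : ℕ) : ℕ → Finset ℕ → Finset E
  | 0, V => (SgF V ×ˢ Finset.range L).image (fun x => e0 L x.1 x.2)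
  | (n+1), V => ((Gen L n V ×ˢ DtA L V).filter (fun x => Val L x.1 x.2)).image
      (fun x => out L x.1 x.2)

/-- bound for the number of elements of `Gen L n V`, `V` of cardinality `v` -/
def NG (L v : ℕ) : ℕ → ℕ
  | 0 => 2 * v * L
  | (n+1) => NG L v n * ((2 * v) * L * (2 * v) * 2 * L)

/-- normalisation `(2J)^(-1/2)` -/
def sJ (J : ℕ) : ℝ := 1 / Real.sqrt (2 * J)

/-- coefficient of a step -/
def coef (J L : ℕ) (d : Dt) : ℝ :=
  (-sg d.τ) / (2 * J) * (if d.kd then -sg d.σ / L else sg d.τ / (L - 1))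

/-- the fresh part of `T` on a basis element (coordinates `X = x⁻¹`, `Y = y⁻¹`) -/
def Y1 (J L : ℕ) (e : E) : (Gam × Gam) →₀ ℝ :=
  ∑ τ ∈ (SgF (Finset.range J)).filter (fun τ => τ.1 ∉ idx e.2.1 e.2.2),
    ∑ l ∈ (Finset.range L).filter (fun l => col l = e.1),
      Finsupp.single (XX L e.2.1 τ l, YY L e.2.2 τ l) (-sg τ * sJ J)

/-- `T` on a basis element -/
def T1 (J L : ℕ) (e : E) : (Gam × Gam) →₀ ℝ :=
  ∑ τ ∈ SgF (Finset.range J), ∑ l ∈ (Finset.range L).filter (fun l => col l = e.1),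
      Finsupp.single (XX L e.2.1 τ l, YY L e.2.2 τ l) (-sg τ * sJ J)

/-- the fresh part of `T` -/
def YL (J L : ℕ) : (E →₀ ℝ) →ₗ[ℝ] ((Gam × Gam) →₀ ℝ) := Finsupp.linearCombination ℝ (Y1 J L)
/-- the operator `T` -/
def TL (J L : ℕ) : (E →₀ ℝ) →ₗ[ℝ] ((Gam × Gam) →₀ ℝ) := Finsupp.linearCombination ℝ (T1 J L)

/-- one step on a basis element -/
def step1 (J L : ℕ) (e : E) : E →₀ ℝ :=
  ∑ d ∈ DtF L (Finset.range J) e, Finsupp.single (out L e d) (coef J L d)

/-- the fields `η_n` -/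
def eta (J L : ℕ) : ℕ → (E →₀ ℝ)
  | 0 => ∑ x ∈ SgF (Finset.range J) ×ˢ Finset.range L,
      Finsupp.single (e0 L x.1 x.2) (sJ J * sg x.1 / L)
  | (n+1) => Finsupp.linearCombination ℝ (step1 J L) (eta J L n)

/-- squared `l²` norm -/
def N2 {ι : Type} (f : ι →₀ ℝ) : ℝ := f.sum (fun _ r => r ^ 2)

/-- the element `P` -/
def PP (J L : ℕ) : Gam →₀ ℝ := ∑ σ ∈ SgF (Finset.range J), Finsupp.single (g L σ) (sJ J)

open Classical in
/-- the functional `b` at `v` on a basis element -/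
def B1 (D : Fin 4 → Gam → Gam → ℤ) (v : Gam) (e : E) : ℝ :=
  if e.2.1 * e.2.2 = v then (D e.1 v e.2.1 : ℝ) else 0

/-- the functional `b` at `v` -/
def BL (D : Fin 4 → Gam → Gam → ℤ) (v : Gam) : (E →₀ ℝ) →ₗ[ℝ] ℝ :=
  Finsupp.linearCombination ℝ (B1 D v)

end

end H684FC
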