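import Pool.Agent.H684R3.FC.Stubs

/-! Task E1 of h684_tasks: supports and expansions of `eta`. -/

namespace H684FC.P

noncomputable section

theorem E1_aux_succ (J L n : ℕ) (h : (eta J L n).support ⊆ Gen L n (Finset.range J)) :
    eta J L (n+1) =
    ∑ x ∈ (Gen L n (Finset.range J)).sigma (fun e => DtF L (Finset.range J) e),
      Finsupp.single (out L x.1 x.2) (eta J L n x.1 * coef J L x.2) := by
  rw [Finset.sum_sigma]
  show Finsupp.linearCombination ℝ (step1 J L) (eta J L n) = _
  rw [Finsupp.linearCombination_apply, Finsupp.sum]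
  rw [Finset.sum_subset h]
  · apply Finset.sum_congr rfl
    intro e _
    rw [step1, Finset.smul_sum]
    apply Finset.sum_congr rfl
    intro d _
    rw [Finsupp.smul_single, smul_eq_mul]
  · intro e _ he
    rw [Finsupp.notMem_support_iff.mp he, zero_smul]

theorem eta_support (J L n : ℕ) : (eta J L n).support ⊆ Gen L n (Finset.range J) := by
  classical
  induction n with
  | zero =>
    intro e he
    have h1 := Finsupp.support_finsetSum he
    rw [Finset.mem_biUnion] at h1
    obtain ⟨x, hx, hx'⟩ := h1
    have h2 := Finsupp.support_single_subset hx'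
    rw [Finset.mem_singleton] at h2
    rw [Gen, Finset.mem_image]
    exact ⟨x, hx, h2.symm⟩
  | succ n ih =>
    rw [E1_aux_succ J L n ih]
    intro e he
    have h1 := Finsupp.support_finsetSum he
    rw [Finset.mem_biUnion] at h1
    obtain ⟨x, hx, hx'⟩ := h1
    have h2 := Finsupp.support_single_subset hx'
    rw [Finset.mem_singleton] at h2
    rw [Finset.mem_sigma] at hx
    obtain ⟨hx1, hx2⟩ := hx
    rw [DtF, Finset.mem_filter] at hx2
    rw [Gen, Finset.mem_image]
    refine ⟨(x.1, x.2), ?_, h2.symm⟩
    rw [Finset.mem_filter, Finset.mem_product]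
    exact ⟨⟨hx1, hx2.1⟩, hx2.2⟩

theorem eta_succ (J L n : ℕ) : eta J L (n+1) =
    ∑ x ∈ (Gen L n (Finset.range J)).sigma (fun e => DtF L (Finset.range J) e),
      Finsupp.single (out L x.1 x.2) (eta J L n x.1 * coef J L x.2) :=
  E1_aux_succ J L n (eta_support J L n)

end

end H684FC.P
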