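import Pool.Agent.H684R3.FC.Stubs

namespace H684FC.P

noncomputable section

theorem E2a_aux_sg (σ : Sg) : sg σ ^ 2 = 1 := by
  unfold sg; split_ifs <;> norm_num

theorem E2a_aux_card (V : Finset ℕ) : (SgF V).card = 2 * V.card := by
  unfold SgF
  rw [Finset.card_product]
  simp [mul_comm]

theorem eta_zero_norm (J L : ℕ) (hJ : 0 < J) (hL : 0 < L) : N2 (eta J L 0) = 1 / L := by
  have hJ' : (0:ℝ) < J := by exact_mod_cast hJ
  have hL' : (0:ℝ) < L := by exact_mod_cast hL
  have h2 : N2 (eta J L 0) = ∑ x ∈ SgF (Finset.range J) ×ˢ Finset.range L,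
      (sJ J * sg x.1 / L) ^ 2 := by
    unfold eta
    apply N2_sum_inj
    intro x hx y hy hxy
    simp only [Finset.coe_product, Set.mem_prod, Finset.mem_coe, Finset.mem_range] at hx hy
    have h1 : a L x.1 x.2 = a L y.1 y.2 := congrArg (fun e : E => e.2.1) hxy
    obtain ⟨h3, h4⟩ := a_inj L x.1 y.1 x.2 y.2 hx.2 hy.2 h1
    exact Prod.ext h3 h4
  rw [h2]
  have h3 : ∀ x ∈ SgF (Finset.range J) ×ˢ Finset.range L,
      (sJ J * sg x.1 / L) ^ 2 = 1 / (2 * J) / (L:ℝ) ^ 2 := by
    intro x _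
    rw [div_pow, mul_pow, E2a_aux_sg, mul_one]
    unfold sJ
    rw [div_pow, one_pow, Real.sq_sqrt (by positivity)]
  rw [Finset.sum_congr rfl h3, Finset.sum_const, Finset.card_product, E2a_aux_card,
    Finset.card_range, Finset.card_range, nsmul_eq_mul]
  push_cast
  field_simp

end

end H684FC.P
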