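import Pool.Agent.H684R3.FC.Stubs

/-! E2b: the sum of the squares of the coefficients of a step. -/

namespace H684FC.P

noncomputable section

open Classical in
/-- the weight of a pair (kind, gap) -/
def E2b_w (L l : ℕ) (kd : Bool) (m : ℕ) : ℝ :=
  if kd then 1 / (L : ℝ) ^ 2 else if m = l then 0 else 1 / ((L : ℝ) - 1) ^ 2

theorem E2b_w_nonneg (L l : ℕ) (kd : Bool) (m : ℕ) : 0 ≤ E2b_w L l kd m := by
  unfold E2b_w
  split_ifs <;> positivity

theorem E2b_sg (σ : Sg) : sg σ ^ 2 = 1 := by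
  unfold sg
  split_ifs <;> norm_num

theorem E2b_coef (J L : ℕ) (τ : Sg) (l : ℕ) (σ : Sg) (kd : Bool) (m : ℕ)
    (h : kd = false → m ≠ l) :
    coef J L ⟨τ, l, σ, kd, m⟩ ^ 2 = 1 / (2 * (J : ℝ)) ^ 2 * E2b_w L l kd m := by
  unfold coef E2b_w
  cases kd with
  | true =>
    simp only [if_true, mul_pow, div_pow, neg_sq, E2b_sg]
  | false =>
    simp only [Bool.false_eq_true, if_false, mul_pow, div_pow, neg_sq, E2b_sg, if_neg (h rfl)]

theorem E2b_inner (L l : ℕ) (hL : 1 < L) (hl : l < L) :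
    ∑ kd ∈ (Finset.univ : Finset Bool), ∑ m ∈ Finset.range L, E2b_w L l kd m =
      1 / (L : ℝ) + 1 / ((L : ℝ) - 1) := by
  have hL0 : (L : ℝ) ≠ 0 := by
    have : 0 < L := by omega
    exact_mod_cast this.ne'
  have hL1 : (L : ℝ) - 1 ≠ 0 := by
    have : (1 : ℝ) < L := by exact_mod_cast hL
    linarith
  rw [Fintype.sum_bool]
  congr 1
  · simp only [E2b_w, if_true, Finset.sum_const, Finset.card_range, nsmul_eq_mul]
    field_simp
  · simp only [E2b_w, Bool.false_eq_true, if_false]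
    have e : ∀ m ∈ Finset.range L, (if m = l then (0 : ℝ) else 1 / ((L : ℝ) - 1) ^ 2) =
        1 / ((L : ℝ) - 1) ^ 2 - (if m = l then 1 / ((L : ℝ) - 1) ^ 2 else 0) := by
      intro m _
      split_ifs <;> simp
    rw [Finset.sum_congr rfl e, Finset.sum_sub_distrib, Finset.sum_ite_eq',
      if_pos (Finset.mem_range.2 hl)]
    simp only [Finset.sum_const, Finset.card_range, nsmul_eq_mul]
    field_simp

theorem E2b_card (J : ℕ) : ((SgF (Finset.range J)).card : ℝ) = 2 * J := by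
  unfold SgF
  rw [Finset.card_product, Finset.card_range]
  simp
  ring

open Classical in
/-- sum of the squares of the coefficients of a step -/
theorem coef_sq (J L : ℕ) (e : E) (hJ : 0 < J) (hL : 1 < L) (h4 : 4 ∣ L) :
    ∑ d ∈ DtF L (Finset.range J) e, coef J L d ^ 2 ≤ 3 / 4 := by
  have hJ0 : (0 : ℝ) < J := by exact_mod_cast hJ
  have hL0 : (0 : ℝ) < L := by exact_mod_cast (by omega : 0 < L)
  have hL2 : (2 : ℝ) ≤ L := by exact_mod_cast hL
  have h1 : ∑ d ∈ DtF L (Finset.range J) e, coef J L d ^ 2 ≤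
      ∑ x ∈ SgF (Finset.range J) ×ˢ Finset.range L ×ˢ SgF (Finset.range J) ×ˢ
        (Finset.univ : Finset Bool) ×ˢ Finset.range L,
        (if col x.2.1 = e.1 then 1 / (2 * (J : ℝ)) ^ 2 * E2b_w L x.2.1 x.2.2.2.1 x.2.2.2.2
          else 0) := by
    unfold DtF DtA
    rw [Finset.sum_filter, Finset.sum_map]
    apply Finset.sum_le_sum
    rintro ⟨τ, l, σ, kd, m⟩ _
    have hnn : 0 ≤ 1 / (2 * (J : ℝ)) ^ 2 * E2b_w L l kd m :=
      mul_nonneg (by positivity) (E2b_w_nonneg _ _ _ _)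
    by_cases hV : Val L e ⟨τ, l, σ, kd, m⟩
    · have hc : col l = e.1 := hV.2.2.2.2.2.1
      have hm : kd = false → m ≠ l := hV.2.2.2.2.2.2
      show (if Val L e ⟨τ, l, σ, kd, m⟩ then coef J L ⟨τ, l, σ, kd, m⟩ ^ 2 else 0) ≤
        if col l = e.1 then 1 / (2 * (J : ℝ)) ^ 2 * E2b_w L l kd m else 0
      rw [if_pos hV, if_pos hc, E2b_coef J L τ l σ kd m hm]
    · show (if Val L e ⟨τ, l, σ, kd, m⟩ then coef J L ⟨τ, l, σ, kd, m⟩ ^ 2 else 0) ≤
        if col l = e.1 then 1 / (2 * (J : ℝ)) ^ 2 * E2b_w L l kd m else 0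
      rw [if_neg hV]
      split_ifs
      · exact hnn
      · exact le_rfl
  refine h1.trans ?_
  rw [Finset.sum_product]
  have h2 : ∀ τ : Sg, ∑ y ∈ Finset.range L ×ˢ SgF (Finset.range J) ×ˢ
        (Finset.univ : Finset Bool) ×ˢ Finset.range L,
        (if col y.1 = e.1 then 1 / (2 * (J : ℝ)) ^ 2 * E2b_w L y.1 y.2.2.1 y.2.2.2 else 0) =
      (L : ℝ) / 4 * (2 * J * (1 / (2 * (J : ℝ)) ^ 2 * (1 / (L : ℝ) + 1 / ((L : ℝ) - 1)))) := by
    intro τ
    rw [Finset.sum_product]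
    have h3 : ∀ l ∈ Finset.range L, ∑ y ∈ SgF (Finset.range J) ×ˢ
        (Finset.univ : Finset Bool) ×ˢ Finset.range L,
        (if col l = e.1 then 1 / (2 * (J : ℝ)) ^ 2 * E2b_w L l y.2.1 y.2.2 else 0) =
        if col l = e.1 then
          (2 * J * (1 / (2 * (J : ℝ)) ^ 2 * (1 / (L : ℝ) + 1 / ((L : ℝ) - 1)))) else 0 := by
      intro l hl
      rw [Finset.mem_range] at hl
      by_cases hc : col l = e.1
      · simp only [if_pos hc]
        rw [Finset.sum_product]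
        simp only [← Finset.mul_sum]
        rw [Finset.sum_const, nsmul_eq_mul, E2b_card, Finset.sum_product, E2b_inner L l hL hl]
        ring
      · simp only [if_neg hc, Finset.sum_const_zero]
    rw [Finset.sum_congr rfl h3, ← Finset.sum_filter, Finset.sum_const, nsmul_eq_mul,
      col_count L h4]
  rw [Finset.sum_congr rfl (fun τ _ => h2 τ), Finset.sum_const, nsmul_eq_mul, E2b_card]
  have h5 : 2 * (J : ℝ) * ((L : ℝ) / 4 * (2 * J * (1 / (2 * (J : ℝ)) ^ 2 *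
      (1 / (L : ℝ) + 1 / ((L : ℝ) - 1))))) = 1 / 4 * (1 + L / ((L : ℝ) - 1)) := by
    have hL1 : (L : ℝ) - 1 ≠ 0 := by linarith
    field_simp
  rw [h5]
  have h6 : (L : ℝ) / ((L : ℝ) - 1) ≤ 2 := by
    rw [div_le_iff₀ (by linarith)]
    linarith
  linarith

end

end H684FC.P
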