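import Pool.Agent.H684R3.FC.Stubs

namespace H684FC.P

noncomputable section

theorem eta_norm_succ (J L n : ℕ) (hJ : 0 < J) (hL : 1 < L) (h4 : 4 ∣ L) :
    N2 (eta J L (n+1)) ≤ 3 / 4 * N2 (eta J L n) := by
  classical
  rw [eta_succ]
  have hinj : Set.InjOn (fun x : (_ : E) × Dt => out L x.1 x.2)
      ((Gen L n (Finset.range J)).sigma (fun e => DtF L (Finset.range J) e)) := by
    rintro ⟨e, d⟩ hx ⟨e', d'⟩ hy h
    rw [Finset.mem_coe, Finset.mem_sigma] at hx hy
    have hd : Val L e d := (Finset.mem_filter.1 hx.2).2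
    have hd' : Val L e' d' := (Finset.mem_filter.1 hy.2).2
    obtain ⟨h1, h2⟩ := out_inj L e e' d d' (Gen_prop L n _ e hx.1).1 (Gen_prop L n _ e' hy.1).1
      hd hd' h
    subst h1
    subst h2
    rfl
  rw [N2_sum_inj _ (fun x : (_ : E) × Dt => out L x.1 x.2)
    (fun x => eta J L n x.1 * coef J L x.2) hinj]
  rw [Finset.sum_sigma, N2_eq_sum (eta J L n) (Gen L n (Finset.range J)) (eta_support J L n),
    Finset.mul_sum]
  refine Finset.sum_le_sum fun e _ => ?_
  have h1 : ∑ d ∈ DtF L (Finset.range J) e, (eta J L n e * coef J L d) ^ 2 =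
      eta J L n e ^ 2 * ∑ d ∈ DtF L (Finset.range J) e, coef J L d ^ 2 := by
    rw [Finset.mul_sum]
    exact Finset.sum_congr rfl fun d _ => by ring
  simp only
  rw [h1, mul_comm (3 / 4 : ℝ)]
  exact mul_le_mul_of_nonneg_left (coef_sq J L e hJ hL h4) (sq_nonneg _)

end

end H684FC.P
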