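import Pool.Agent.H684R3.FC.Stubs

/-! Task E2d: the norm of the fresh part. -/

namespace H684FC.P

noncomputable section

open H684FC

/-- index set of the fresh part on a basis element -/
def E2d_auxS (J L : ℕ) (e : E) : Finset (Sg × ℕ) :=
  ((SgF (Finset.range J)).filter (fun τ => τ.1 ∉ idx e.2.1 e.2.2)) ×ˢ
    ((Finset.range L).filter (fun l => col l = e.1))

theorem E2d_aux_Y1 (J L : ℕ) (e : E) : Y1 J L e =
    ∑ x ∈ E2d_auxS J L e,
      Finsupp.single (XX L e.2.1 x.1 x.2, YY L e.2.2 x.1 x.2) (-sg x.1 * sJ J) := by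
  unfold Y1 E2d_auxS
  rw [Finset.sum_product]

theorem E2d_aux_sum (J L n : ℕ) : YL J L (eta J L n) =
    ∑ x ∈ (Gen L n (Finset.range J)).sigma (fun e => E2d_auxS J L e),
      Finsupp.single (XX L x.1.2.1 x.2.1 x.2.2, YY L x.1.2.2 x.2.1 x.2.2)
        (eta J L n x.1 * (-sg x.2.1 * sJ J)) := by
  rw [Finset.sum_sigma]
  unfold YL
  rw [Finsupp.linearCombination_apply]
  rw [Finsupp.sum_of_support_subset _ (eta_support J L n)]
  · apply Finset.sum_congr rfl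
    intro e _
    rw [E2d_aux_Y1, Finset.smul_sum]
    apply Finset.sum_congr rfl
    intro x _
    rw [Finsupp.smul_single, smul_eq_mul]
  · intro i _
    rw [zero_smul]

theorem E2d_aux_inj (J L n : ℕ) : Set.InjOn
    (fun x : (_ : E) × (Sg × ℕ) =>
      ((XX L x.1.2.1 x.2.1 x.2.2, YY L x.1.2.2 x.2.1 x.2.2) : Gam × Gam))
    ((Gen L n (Finset.range J)).sigma (fun e => E2d_auxS J L e)) := by
  rintro ⟨⟨c, A, B⟩, τ, l⟩ h1 ⟨⟨c', A', B'⟩, τ', l'⟩ h2 h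
  simp only [Finset.coe_sigma, Set.mem_sigma_iff, Finset.mem_coe, E2d_auxS,
    Finset.mem_product, Finset.mem_filter, Finset.mem_range] at h1 h2
  obtain ⟨hG1, ⟨hs1, hf1⟩, hl1, hc1⟩ := h1
  obtain ⟨hG2, ⟨hs2, hf2⟩, hl2, hc2⟩ := h2
  simp only [Prod.mk.injEq] at h
  obtain ⟨hX, hY⟩ := h
  obtain ⟨rfl, rfl, rfl, rfl⟩ := XY_inj L A B A' B' τ τ' l l' (Gen_prop L n _ _ hG1).1
    (Gen_prop L n _ _ hG2).1 hf1 hf2 hl1 hl2 hX hY
  subst hc1
  subst hc2
  rfl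

theorem E2d_aux_sg (σ : Sg) : sg σ ^ 2 = 1 := by
  unfold sg
  split_ifs <;> norm_num

theorem E2d_aux_sJ (J : ℕ) : sJ J ^ 2 = 1 / (2 * J) := by
  unfold sJ
  rw [div_pow, one_pow, Real.sq_sqrt (by positivity)]

theorem E2d_aux_count (J L n : ℕ) (hJ : 0 < J) (h4 : 4 ∣ L) (e : E)
    (he : e ∈ Gen L n (Finset.range J)) :
    ((E2d_auxS J L e).card : ℝ) * (1 / (2 * J)) ≤ L / 4 := by
  have hJ' : (0 : ℝ) < J := by exact_mod_cast hJ
  unfold E2d_auxS
  rw [Finset.card_product]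
  push_cast
  have h1 := fresh_count J (idx e.2.1 e.2.2) (Gen_prop L n _ _ he).2.1
  have h2 := col_count L h4 e.1
  have h3 : ((((SgF (Finset.range J)).filter
      (fun τ => τ.1 ∉ idx e.2.1 e.2.2)).card : ℕ) : ℝ) ≤ 2 * J := by
    rw [h1]
    have : (0 : ℝ) ≤ (idx e.2.1 e.2.2).card := by positivity
    linarith
  rw [h2]
  have hL : (0 : ℝ) ≤ L := by positivity
  calc _ ≤ (2 * J : ℝ) * (L / 4) * (1 / (2 * J)) := by
        gcongr
    _ = L / 4 := by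
        field_simp

theorem Y_norm (J L n : ℕ) (hJ : 0 < J) (hL : 0 < L) (h4 : 4 ∣ L) :
    N2 (YL J L (eta J L n)) ≤ L / 4 * N2 (eta J L n) := by
  rw [E2d_aux_sum, N2_sum_inj _ _ _ (E2d_aux_inj J L n), Finset.sum_sigma,
    N2_eq_sum (eta J L n) _ (eta_support J L n), Finset.mul_sum]
  apply Finset.sum_le_sum
  intro e he
  have h1 : ∀ x ∈ E2d_auxS J L e,
      (eta J L n e * (-sg x.1 * sJ J)) ^ 2 = eta J L n e ^ 2 * (1 / (2 * J)) := by
    intro x _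
    have h2 := E2d_aux_sg x.1
    have h3 := E2d_aux_sJ J
    rw [← h3]
    have : (eta J L n e * (-sg x.1 * sJ J)) ^ 2 = eta J L n e ^ 2 * (sg x.1 ^ 2 * sJ J ^ 2) := by
      ring
    rw [this, h2, one_mul]
  rw [Finset.sum_congr rfl h1, Finset.sum_const, nsmul_eq_mul]
  have h4' := E2d_aux_count J L n hJ h4 e he
  have h5 : 0 ≤ eta J L n e ^ 2 := sq_nonneg _
  calc ((E2d_auxS J L e).card : ℝ) * (eta J L n e ^ 2 * (1 / (2 * J)))
      = (((E2d_auxS J L e).card : ℝ) * (1 / (2 * J))) * eta J L n e ^ 2 := by ring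
    _ ≤ (L / 4) * eta J L n e ^ 2 := mul_le_mul_of_nonneg_right h4' h5

end

end H684FC.P
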