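import Pool.Agent.H684R3.FC.Stubs

namespace H684FC.P

noncomputable section

open Classical

theorem F_aux_eta (J L m : ℕ) (hJ : 0 < J) (hL : 1 < L) (h4 : 4 ∣ L) :
    N2 (eta J L m) ≤ (3 / 4) ^ m / L := by
  induction m with
  | zero =>
    rw [eta_zero_norm J L hJ (by omega), pow_zero]
  | succ m ih =>
    refine (eta_norm_succ J L m hJ hL h4).trans ?_
    rw [pow_succ, mul_comm ((3 / 4 : ℝ) ^ m), mul_div_assoc]
    exact mul_le_mul_of_nonneg_left ih (by norm_num)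

theorem F_aux_pow (m : ℕ) : ((3 : ℝ) / 4) ^ m ≤ 1 := pow_le_one₀ (by norm_num) (by norm_num)

theorem F_aux_T (J L : ℕ) (n : ℕ) (hJ : 2 * n + 2 ≤ J) (hL : 1 < L) :
    TL J L (∑ m ∈ Finset.range (n + 1), eta J L m) - Finsupp.single (1, 1) 1 =
      YL J L (eta J L n) + R0 J L
        + ∑ m ∈ Finset.range n, ((2 * m + 2) / J : ℝ) • YL J L (eta J L m)
        + ∑ m ∈ Finset.range n, RS J L m := by
  induction n with
  | zero =>
    simp only [zero_add, Finset.range_one, Finset.sum_singleton, Finset.range_zero,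
      Finset.sum_empty, add_zero]
    rw [T_zero J L (by omega) (by omega)]
    abel
  | succ n ih =>
    have ih' := ih (by omega)
    have e : TL J L (∑ m ∈ Finset.range (n + 1), eta J L m) =
        Finsupp.single (1, 1) 1 + (YL J L (eta J L n) + R0 J L
        + ∑ m ∈ Finset.range n, ((2 * m + 2) / J : ℝ) • YL J L (eta J L m)
        + ∑ m ∈ Finset.range n, RS J L m) := by
      rw [← ih']
      abel
    rw [Finset.sum_range_succ _ (n + 1), map_add, T_succ J L n (by omega) hL, e,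
      Finset.sum_range_succ (fun m : ℕ => ((2 * (m:ℝ) + 2) / J : ℝ) • YL J L (eta J L m)) n,
      Finset.sum_range_succ (fun m : ℕ => RS J L m) n, sub_smul, one_smul]
    abel

theorem F_aux_four {ι : Type} (a b c d : ι →₀ ℝ) :
    N2 (a + b + c + d) ≤ 4 * (N2 a + N2 b + N2 c + N2 d) := by
  have h := N2_sum_le (Finset.univ : Finset (Fin 4)) (![a, b, c, d])
  simp only [Fin.sum_univ_four, Finset.card_univ, Fintype.card_fin] at h
  simpa using h

theorem core (D : Fin 4 → Gam → Gam → ℤ) (hD : IsFox D) (ε : ℝ) (hε : 0 < ε) :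
    ∃ (J L : ℕ) (η : E →₀ ℝ), 0 < J ∧ 1 < L ∧ N2 η < ε ∧ (∀ v, BL D v η = PP J L v) ∧
      N2 (TL J L η - Finsupp.single (1, 1) 1) < ε := by
  obtain ⟨n, hn⟩ := exists_pow_lt_of_lt_one (half_pos hε) (show (3 / 4 : ℝ) < 1 by norm_num)
  obtain ⟨q, hq⟩ := exists_nat_gt (((n : ℝ) + 1) * (n + 1) / ε)
  set L := 4 * (q + 1) with hLdef
  have h4 : 4 ∣ L := ⟨q + 1, rfl⟩
  have hL1 : 1 < L := by omega
  have hLpos : (0 : ℝ) < L := by exact_mod_cast (by omega : 0 < L)
  have hLone : (1 : ℝ) ≤ L := by exact_mod_cast hL1.le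
  have hLε : ((n : ℝ) + 1) * (n + 1) / L < ε := by
    rw [div_lt_iff₀ hε] at hq
    rw [div_lt_iff₀ hLpos]
    have : (q : ℝ) ≤ L := by exact_mod_cast (by omega : q ≤ L)
    nlinarith
  -- the constants
  set C0 : ℝ := ((NG L 1 0 * (2 * L) : ℕ) : ℝ) with hC0
  set C1 : ℕ → ℝ := fun m => ((NG L (2 * m + 3) (m+1) * (2 * (2 * m + 3) * L) : ℕ) : ℝ) *
    ((2 * m + 3) * L) with hC1
  set K : ℝ := 4 * (C0 + n * ∑ m ∈ Finset.range n, ((2 * (m:ℝ) + 2) ^ 2) +
    n * ∑ m ∈ Finset.range n, C1 m) with hK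
  have hC0n : 0 ≤ C0 := Nat.cast_nonneg _
  have hC1n : ∀ m, 0 ≤ C1 m := fun m => by
    rw [hC1]
    positivity
  obtain ⟨J0, hJ0⟩ := exists_nat_gt (2 * K / ε)
  set J := J0 + 2 * n + 2 with hJdef
  have hJ1 : 0 < J := by omega
  have hJpos : (0 : ℝ) < J := by exact_mod_cast hJ1
  have hJone : (1 : ℝ) ≤ J := by exact_mod_cast hJ1
  have hKJ : K / J < ε / 2 := by
    rw [div_lt_iff₀ hε] at hJ0
    rw [div_lt_iff₀ hJpos]
    have : (J0 : ℝ) ≤ J := by exact_mod_cast (by omega : J0 ≤ J)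
    nlinarith
  have hN : ∀ m, N2 (eta J L m) ≤ 1 / L := fun m => (F_aux_eta J L m hJ1 hL1 h4).trans
    (div_le_div_of_nonneg_right (F_aux_pow m) hLpos.le)
  have hY : ∀ m, N2 (YL J L (eta J L m)) ≤ (3 / 4) ^ m / 4 := by
    intro m
    refine (Y_norm J L m hJ1 (by omega) h4).trans ?_
    have h1 := mul_le_mul_of_nonneg_left (F_aux_eta J L m hJ1 hL1 h4)
      (show (0:ℝ) ≤ (L : ℝ) / 4 by positivity)
    refine h1.trans (le_of_eq ?_)
    field_simp
  refine ⟨J, L, ∑ m ∈ Finset.range (n + 1), eta J L m, hJ1, hL1, ?_, ?_, ?_⟩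
  · refine lt_of_le_of_lt (N2_sum_le _ _) ?_
    have h1 : ∑ m ∈ Finset.range (n + 1), N2 (eta J L m) ≤ ∑ m ∈ Finset.range (n + 1), 1 / (L:ℝ) :=
      Finset.sum_le_sum fun m _ => hN m
    rw [Finset.sum_const, Finset.card_range, nsmul_eq_mul] at h1
    rw [Finset.card_range]
    have h2 : ((n + 1 : ℕ) : ℝ) * ∑ m ∈ Finset.range (n + 1), N2 (eta J L m) ≤
        ((n + 1 : ℕ) : ℝ) * (((n + 1 : ℕ) : ℝ) * (1 / L)) :=
      mul_le_mul_of_nonneg_left h1 (Nat.cast_nonneg _)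
    refine lt_of_le_of_lt h2 ?_
    refine lt_of_eq_of_lt ?_ hLε
    push_cast
    ring
  · intro v
    rw [map_sum, Finset.sum_range_succ', B_zero D hD J L (by omega) v]
    rw [Finset.sum_eq_zero (fun m _ => B_succ D hD J L m hL1 v), zero_add]
  · rw [F_aux_T J L n (by omega) hL1]
    refine lt_of_le_of_lt (F_aux_four _ _ _ _) ?_
    have b1 := hY n
    have b2 : N2 (R0 J L) ≤ C0 / J := R0_norm J L hJ1 (by omega)
    have b3 : N2 (∑ m ∈ Finset.range n, ((2 * m + 2) / J : ℝ) • YL J L (eta J L m)) ≤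
        (n * ∑ m ∈ Finset.range n, ((2 * (m:ℝ) + 2) ^ 2)) / J := by
      refine (N2_sum_le _ _).trans ?_
      rw [Finset.card_range, mul_div_assoc, Finset.sum_div]
      apply mul_le_mul_of_nonneg_left _ (Nat.cast_nonneg _)
      apply Finset.sum_le_sum
      intro m _
      rw [N2_smul]
      have c1 : N2 (YL J L (eta J L m)) ≤ 1 := by
        have := hY m
        have := F_aux_pow m
        linarith
      have c0 := N2_nonneg (YL J L (eta J L m))
      have c2 : ((2 * (m:ℝ) + 2) / J) ^ 2 ≤ (2 * (m:ℝ) + 2) ^ 2 / J := by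
        rw [div_pow]
        apply div_le_div_of_nonneg_left (by positivity) hJpos
        nlinarith
      calc ((2 * (m:ℝ) + 2) / J) ^ 2 * N2 (YL J L (eta J L m))
          ≤ ((2 * (m:ℝ) + 2) / J) ^ 2 * 1 := mul_le_mul_of_nonneg_left c1 (sq_nonneg _)
        _ = ((2 * (m:ℝ) + 2) / J) ^ 2 := mul_one _
        _ ≤ _ := c2
    have b4 : N2 (∑ m ∈ Finset.range n, RS J L m) ≤ (n * ∑ m ∈ Finset.range n, C1 m) / J := by
      refine (N2_sum_le _ _).trans ?_
      rw [Finset.card_range, mul_div_assoc, Finset.sum_div]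
      apply mul_le_mul_of_nonneg_left _ (Nat.cast_nonneg _)
      apply Finset.sum_le_sum
      intro m _
      refine (RS_norm J L m hJ1 (by omega)).trans ?_
      have c1 : N2 (eta J L (m+1)) ≤ 1 := (hN (m + 1)).trans (by
        rw [div_le_one hLpos]
        exact hLone)
      have c2 : (0 : ℝ) ≤ ((NG L (2 * m + 3) (m+1) * (2 * (2 * m + 3) * L) : ℕ) : ℝ) *
          ((2 * m + 3) * L / J) := by positivity
      calc _ ≤ ((NG L (2 * m + 3) (m+1) * (2 * (2 * m + 3) * L) : ℕ) : ℝ) *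
          ((2 * m + 3) * L / J) * 1 := mul_le_mul_of_nonneg_left c1 c2
        _ = C1 m / J := by rw [hC1]; ring
    have e1 : 4 * ((3 / 4 : ℝ) ^ n / 4 + C0 / J +
        (n * ∑ m ∈ Finset.range n, ((2 * (m:ℝ) + 2) ^ 2)) / J +
        (n * ∑ m ∈ Finset.range n, C1 m) / J) = (3 / 4) ^ n + K / J := by
      rw [hK]
      ring
    linarith

end

end H684FC.P
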