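import Pool.Agent.H684R3.FC.Stubs

/-! Task G1: the sets `Gen`. -/

namespace H684FC.P

open H684FC

theorem G1_ix_append (α β : List ((ℕ × ℕ) × Bool)) : ix (α ++ β) = ix α ∪ ix β := by
  unfold ix
  rw [List.map_append, List.toFinset_append]

theorem G1_ix_lg (L : ℕ) (σ : Sg) : ix (lg L σ) = {σ.1} := by
  have hne : st L σ ∈ lg L σ := by
    have h := lg_head L σ
    exact List.mem_of_mem_head? (by rw [h]; rfl)
  ext j
  simp only [ix, List.mem_toFinset, List.mem_map, Finset.mem_singleton]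
  constructor
  · rintro ⟨x, hx, rfl⟩
    exact lg_index L σ x hx
  · rintro rfl
    exact ⟨_, hne, lg_index L σ _ hne⟩

theorem G1_nodup (L : ℕ) (σ : Sg) (l : ℕ) (h : l < L) :
    ((la L σ l ++ lb L σ l).map Prod.fst).Nodup := by
  rw [la_append_lb L σ l h]
  exact lg_nodup L σ

theorem G1_wl_a (L : ℕ) (σ : Sg) (l : ℕ) (h : l < L) : wl (a L σ l) = la L σ l := by
  apply wl_eq _ _ (pi_a L σ l h)
  apply isReduced_of_nodup
  have := G1_nodup L σ l h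
  rw [List.map_append] at this
  exact this.of_append_left

theorem G1_wl_b (L : ℕ) (σ : Sg) (l : ℕ) (h : l < L) : wl (b L σ l) = lb L σ l := by
  apply wl_eq _ _ (pi_b L σ l h)
  apply isReduced_of_nodup
  have := G1_nodup L σ l h
  rw [List.map_append] at this
  exact this.of_append_right

theorem G1_idx_e0 (L : ℕ) (σ : Sg) (l : ℕ) (h : l < L) : idx (a L σ l) (b L σ l) = {σ.1} := by
  unfold idx
  rw [G1_wl_a L σ l h, G1_wl_b L σ l h, ← G1_ix_append, la_append_lb L σ l h, G1_ix_lg]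

theorem G1_Gd_e0 (L : ℕ) (σ : Sg) (l : ℕ) (h : l < L) : Gd (a L σ l) (b L σ l) := by
  unfold Gd
  rw [G1_wl_a L σ l h, G1_wl_b L σ l h]
  exact G1_nodup L σ l h

theorem G1_mem_SgF {V : Finset ℕ} {σ : Sg} : σ ∈ SgF V ↔ σ.1 ∈ V := by
  unfold SgF
  rw [Finset.mem_product]
  simp

theorem G1_mem_DtA {L : ℕ} {V : Finset ℕ} {d : Dt} :
    d ∈ DtA L V ↔ d.τ.1 ∈ V ∧ d.l < L ∧ d.σ.1 ∈ V ∧ d.m < L := by
  unfold DtA
  rw [Finset.mem_map]
  constructor
  · rintro ⟨⟨x1, x2, x3, x4, x5⟩, hx, rfl⟩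
    simp only [Finset.mem_product, Finset.mem_range, Finset.mem_univ, true_and,
      G1_mem_SgF] at hx
    exact ⟨hx.1, hx.2.1, hx.2.2.1, hx.2.2.2⟩
  · rintro ⟨h1, h2, h3, h4⟩
    refine ⟨(d.τ, d.l, d.σ, d.kd, d.m), ?_, rfl⟩
    simp only [Finset.mem_product, Finset.mem_range, Finset.mem_univ, true_and, G1_mem_SgF]
    exact ⟨h1, h2, h3, h4⟩

open Classical in
theorem G1_mem_zero {L : ℕ} {V : Finset ℕ} {e : E} :
    e ∈ Gen L 0 V ↔ ∃ σ : Sg, ∃ m : ℕ, σ.1 ∈ V ∧ m < L ∧ e = e0 L σ m := by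
  unfold Gen
  rw [Finset.mem_image]
  constructor
  · rintro ⟨⟨σ, m⟩, hx, rfl⟩
    rw [Finset.mem_product, G1_mem_SgF, Finset.mem_range] at hx
    exact ⟨σ, m, hx.1, hx.2, rfl⟩
  · rintro ⟨σ, m, h1, h2, rfl⟩
    refine ⟨(σ, m), ?_, rfl⟩
    rw [Finset.mem_product, G1_mem_SgF, Finset.mem_range]
    exact ⟨h1, h2⟩

open Classical in
theorem G1_mem_succ {L n : ℕ} {V : Finset ℕ} {e : E} :
    e ∈ Gen L (n+1) V ↔ ∃ e' ∈ Gen L n V, ∃ d ∈ DtA L V, Val L e' d ∧ e = out L e' d := by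
  rw [Gen, Finset.mem_image]
  constructor
  · rintro ⟨⟨e', d⟩, hx, rfl⟩
    rw [Finset.mem_filter, Finset.mem_product] at hx
    exact ⟨e', hx.1.1, d, hx.1.2, hx.2, rfl⟩
  · rintro ⟨e', h1, d, h2, h3, rfl⟩
    refine ⟨(e', d), ?_, rfl⟩
    rw [Finset.mem_filter, Finset.mem_product]
    exact ⟨⟨h1, h2⟩, h3⟩

theorem G1_out_mem {L : ℕ} {e : E} {d : Dt} {S : Finset ℕ}
    (h1 : e.2.1 ∈ GS S) (h2 : e.2.2 ∈ GS S) (hτ : d.τ.1 ∈ S) (hσ : d.σ.1 ∈ S) :
    (out L e d).2.1 ∈ GS S ∧ (out L e d).2.2 ∈ GS S := by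
  have m1 : ∀ l, a L d.τ l ∈ GS S := fun l =>
    GS_mono (Finset.singleton_subset_iff.2 hτ) (a_mem_GS L d.τ l)
  have m2 : ∀ l, b L d.τ l ∈ GS S := fun l =>
    GS_mono (Finset.singleton_subset_iff.2 hτ) (b_mem_GS L d.τ l)
  have m3 : ∀ l, a L d.σ l ∈ GS S := fun l =>
    GS_mono (Finset.singleton_subset_iff.2 hσ) (a_mem_GS L d.σ l)
  have m4 : ∀ l, b L d.σ l ∈ GS S := fun l =>
    GS_mono (Finset.singleton_subset_iff.2 hσ) (b_mem_GS L d.σ l)
  have m5 : g L d.σ ∈ GS S :=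
    GS_mono (Finset.singleton_subset_iff.2 hσ) (g_mem_GS L d.σ)
  unfold out
  split_ifs
  · exact ⟨mul_mem (mul_mem h1 (m2 _)) (m3 _), mul_mem (m4 _) (mul_mem (m1 _) h2)⟩
  · exact ⟨mul_mem (mul_mem h1 (inv_mem (m1 _))) (m1 _),
      mul_mem (mul_mem (mul_mem (m2 _) m5) (m1 _)) h2⟩
  · exact ⟨mul_mem (mul_mem (mul_mem h1 (m2 _)) m5) (m1 _),
      mul_mem (mul_mem (m2 _) (inv_mem (m2 _))) h2⟩

theorem Gen_prop (L n : ℕ) (V : Finset ℕ) (e : E) (h : e ∈ Gen L n V) :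
    Gd e.2.1 e.2.2 ∧ idx e.2.1 e.2.2 ⊆ V ∧ (idx e.2.1 e.2.2).card = 2 * n + 1 ∧
      e.2.1 ∈ GS (idx e.2.1 e.2.2) ∧ e.2.2 ∈ GS (idx e.2.1 e.2.2) := by
  induction n generalizing e with
  | zero =>
    obtain ⟨σ, m, h1, h2, rfl⟩ := G1_mem_zero.1 h
    simp only [e0]
    rw [G1_idx_e0 L σ m h2]
    refine ⟨G1_Gd_e0 L σ m h2, Finset.singleton_subset_iff.2 h1, by simp,
      a_mem_GS L σ m, b_mem_GS L σ m⟩
  | succ n ih =>
    obtain ⟨e', he', d, hd, hv, rfl⟩ := G1_mem_succ.1 h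
    obtain ⟨i1, i2, i3, i4, i5⟩ := ih e' he'
    obtain ⟨d1, d2, d3, d4⟩ := G1_mem_DtA.1 hd
    rw [idx_out L e' d i1 hv]
    have hsub : idx e'.2.1 e'.2.2 ⊆ insert d.τ.1 (insert d.σ.1 (idx e'.2.1 e'.2.2)) :=
      (Finset.subset_insert _ _).trans (Finset.subset_insert _ _)
    have ho := G1_out_mem (L := L) (e := e') (d := d)
      (S := insert d.τ.1 (insert d.σ.1 (idx e'.2.1 e'.2.2))) (GS_mono hsub i4) (GS_mono hsub i5)
      (Finset.mem_insert_self _ _) (Finset.mem_insert_of_mem (Finset.mem_insert_self _ _))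
    refine ⟨Gd_out L e' d i1 hv, ?_, ?_, ho.1, ho.2⟩
    · exact Finset.insert_subset d1 (Finset.insert_subset d3 i2)
    · rw [Finset.card_insert_of_notMem, Finset.card_insert_of_notMem hv.2.1, i3]
      · ring
      · rw [Finset.mem_insert, not_or]
        exact ⟨fun hc => hv.2.2.1 hc.symm, hv.1⟩

theorem Gen_mono (L n : ℕ) (V V' : Finset ℕ) (e : E) (h : e ∈ Gen L n V)
    (h' : idx e.2.1 e.2.2 ⊆ V') : e ∈ Gen L n V' := by
  induction n generalizing e with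
  | zero =>
    obtain ⟨σ, m, h1, h2, rfl⟩ := G1_mem_zero.1 h
    simp only [e0] at h'
    rw [G1_idx_e0 L σ m h2, Finset.singleton_subset_iff] at h'
    exact G1_mem_zero.2 ⟨σ, m, h', h2, rfl⟩
  | succ n ih =>
    obtain ⟨e', he', d, hd, hv, rfl⟩ := G1_mem_succ.1 h
    obtain ⟨i1, -, -, -, -⟩ := Gen_prop L n V e' he'
    obtain ⟨d1, d2, d3, d4⟩ := G1_mem_DtA.1 hd
    rw [idx_out L e' d i1 hv, Finset.insert_subset_iff, Finset.insert_subset_iff] at h'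
    exact G1_mem_succ.2 ⟨e', ih e' he' h'.2.2, d, G1_mem_DtA.2 ⟨h'.1, d2, h'.2.1, d4⟩, hv, rfl⟩

theorem G1_card_SgF (V : Finset ℕ) : (SgF V).card = 2 * V.card := by
  unfold SgF
  rw [Finset.card_product]
  simp [mul_comm]

theorem G1_card_DtA (L : ℕ) (V : Finset ℕ) :
    (DtA L V).card = (2 * V.card) * L * (2 * V.card) * 2 * L := by
  unfold DtA
  rw [Finset.card_map]
  simp only [Finset.card_product, G1_card_SgF, Finset.card_range, Finset.card_univ,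
    Fintype.card_bool]
  ring

open Classical in
theorem Gen_card (L n : ℕ) (V : Finset ℕ) : (Gen L n V).card ≤ NG L V.card n := by
  induction n with
  | zero =>
    unfold Gen NG
    refine Finset.card_image_le.trans ?_
    rw [Finset.card_product, G1_card_SgF, Finset.card_range]
  | succ n ih =>
    rw [Gen, NG]
    refine Finset.card_image_le.trans ((Finset.card_filter_le _ _).trans ?_)
    rw [Finset.card_product, G1_card_DtA]
    exact Nat.mul_le_mul_right _ ih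

end H684FC.P
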