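import Pool.Agent.H684R3.FC.Stubs

namespace H684FC.P

theorem I1_aux_count (L : ℕ) (α : List ((ℕ × ℕ) × Bool)) (τ : Sg) (l : ℕ) (hτ : τ.1 ∉ ix α)
    (hl : l < L) : (α ++ lb L τ l).countP (fun x => x.1.1 = τ.1) = (lb L τ l).length := by
  rw [List.countP_append]
  have h1 : α.countP (fun x => x.1.1 = τ.1) = 0 := by
    rw [List.countP_eq_zero]
    intro x hx h
    apply hτ
    unfold ix
    rw [List.mem_toFinset, List.mem_map]
    exact ⟨x, hx, by simpa using h⟩
  have h2 : (lb L τ l).countP (fun x => x.1.1 = τ.1) = (lb L τ l).length := by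
    rw [List.countP_eq_length]
    intro x hx
    have h3 : x ∈ lg L τ := by
      rw [← la_append_lb L τ l hl]
      exact List.mem_append_right _ hx
    simpa using lg_index L τ x h3
  rw [h1, h2, zero_add]

theorem I1_aux_len (L : ℕ) (τ : Sg) (l l' : ℕ) (hl : l < L) (hl' : l' < L)
    (h : (lb L τ l).length = (lb L τ l').length) : l = l' := by
  rw [lb_length L τ l hl, lb_length L τ l' hl'] at h
  split_ifs at h <;> omega

theorem XY_inj (L : ℕ) (A B A' B' : Gam) (τ τ' : Sg) (l l' : ℕ) (h : Gd A B) (h' : Gd A' B')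
    (hτ : τ.1 ∉ idx A B) (hτ' : τ'.1 ∉ idx A' B') (hl : l < L) (hl' : l' < L)
    (hX : XX L A τ l = XX L A' τ' l') (hY : YY L B τ l = YY L B' τ' l') :
    A = A' ∧ B = B' ∧ τ = τ' ∧ l = l' := by
  have hA : ((wl A).map Prod.fst).Nodup := by
    have := h; unfold Gd at this; rw [List.map_append] at this
    exact this.of_append_left
  have hA' : ((wl A').map Prod.fst).Nodup := by
    have := h'; unfold Gd at this; rw [List.map_append] at this
    exact this.of_append_left
  have hτA : τ.1 ∉ ix (wl A) := fun hh => hτ (Finset.mem_union_left _ hh)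
  have hτA' : τ'.1 ∉ ix (wl A') := fun hh => hτ' (Finset.mem_union_left _ hh)
  have e1 := wl_XX L A τ l hA hτA hl
  have e2 := wl_XX L A' τ' l' hA' hτA' hl'
  rw [hX, e2] at e1
  -- e1 : wl A' ++ lb L τ' l' = wl A ++ lb L τ l
  have e3 : some (en L τ') = some (en L τ) := by
    have h1 : (wl A' ++ lb L τ' l').getLast? = some (en L τ') := by
      rw [List.getLast?_append, lb_last L τ' l' hl']; rfl
    have h2 : (wl A ++ lb L τ l).getLast? = some (en L τ) := by
      rw [List.getLast?_append, lb_last L τ l hl]; rfl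
    rw [← h1, ← h2, e1]
  have e4 : τ = τ' := by
    have h3 := Option.some.inj e3
    unfold en at h3
    have h4 : τ'.2 = τ.2 := (Prod.mk.inj h3).2
    have h5 : τ'.1 = τ.1 := (Prod.mk.inj (Prod.mk.inj h3).1).1
    exact Prod.ext h5.symm h4.symm
  subst e4
  have e5 : l = l' := by
    apply I1_aux_len L τ l l' hl hl'
    rw [← I1_aux_count L (wl A) τ l hτA hl, ← I1_aux_count L (wl A') τ l' hτA' hl', e1]
  subst e5
  refine ⟨?_, ?_, rfl, rfl⟩
  · unfold XX at hX
    exact mul_right_cancel hX
  · unfold YY at hY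
    exact mul_left_cancel hY

end H684FC.P
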