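import Pool.Agent.H684R3.FC.Stubs

/-! Task I2: `(e, d) ↦ out` is injective. -/

namespace H684FC.P

theorem I2_bef (d : Dt) (hk : d.kd = false) (hne : d.kd = false → d.m ≠ d.l)
    (hb : ¬ bef d.τ d.l d.m) : bef d.τ d.m d.l := by
  have hne' := hne hk
  unfold bef at hb ⊢
  split_ifs with hs
  · rw [if_pos hs] at hb; omega
  · rw [if_neg hs] at hb; omega

theorem I2_le_inj (ρ ρ' : Sg) (p p' : ℕ) (h : le ρ p = le ρ' p') : ρ = ρ' ∧ p = p' := by
  unfold le at h
  rw [Prod.mk.injEq, Prod.mk.injEq] at h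
  obtain ⟨⟨h1, h2⟩, h3⟩ := h
  refine ⟨Prod.ext h1 h3, ?_⟩
  rw [h3] at h2
  split_ifs at h2 with hs <;> omega

theorem I2_st_inj (L : ℕ) (ρ ρ' : Sg) (h : st L ρ = st L ρ') : ρ = ρ' := by
  unfold st at h
  rw [Prod.mk.injEq, Prod.mk.injEq] at h
  exact Prod.ext h.1.1 h.2

theorem I2_en_inj (L : ℕ) (ρ ρ' : Sg) (h : en L ρ = en L ρ') : ρ = ρ' := by
  unfold en at h
  rw [Prod.mk.injEq, Prod.mk.injEq] at h
  exact Prod.ext h.1.1 h.2

/-- the block in which the gap `m` lies -/
def I2_blk (d : Dt) : Sg := if d.kd then d.σ else d.τ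

theorem I2_last (L : ℕ) (α : List ((ℕ × ℕ) × Bool)) (d : Dt) (hm : d.m < L) :
    (oa L α d).getLast? = some (le (I2_blk d) d.m) := by
  unfold oa I2_blk
  by_cases hk : d.kd = true
  · rw [if_pos hk, if_pos hk, List.getLast?_append, List.getLast?_append, la_last L d.σ d.m hm]
    rfl
  · rw [if_neg hk, if_neg hk]
    by_cases hb : bef d.τ d.l d.m
    · rw [if_pos hb, List.getLast?_append, mid_last d.τ d.l d.m hb]
      rfl
    · rw [if_neg hb, List.getLast?_append, List.getLast?_append, List.getLast?_append,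
        la_last L d.τ d.m hm]
      rfl

theorem I2_not_both (L : ℕ) (α β : List ((ℕ × ℕ) × Bool)) (d : Dt)
    (h : ((oa L α d ++ ob L β d).map Prod.fst).Nodup) (x : (ℕ × ℕ) × Bool)
    (h1 : x ∈ oa L α d) (h2 : x ∈ ob L β d) : False := by
  rw [List.map_append, List.nodup_append] at h
  exact h.2.2 x.1 (List.mem_map_of_mem h1) x.1 (List.mem_map_of_mem h2) rfl

/-- number of letters with index `j` -/
def I2_cnt (j : ℕ) (α : List ((ℕ × ℕ) × Bool)) : ℕ := α.countP (fun x => x.1.1 == j)

theorem I2_cnt_append (j : ℕ) (α β : List ((ℕ × ℕ) × Bool)) :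
    I2_cnt j (α ++ β) = I2_cnt j α + I2_cnt j β := by
  unfold I2_cnt; rw [List.countP_append]

theorem I2_cnt_all (j : ℕ) (α : List ((ℕ × ℕ) × Bool)) (h : ∀ x ∈ α, x.1.1 = j) :
    I2_cnt j α = α.length := by
  unfold I2_cnt
  rw [List.countP_eq_length]
  intro x hx
  simpa using h x hx

theorem I2_cnt_none (j : ℕ) (α : List ((ℕ × ℕ) × Bool)) (h : ∀ x ∈ α, x.1.1 ≠ j) :
    I2_cnt j α = 0 := by
  unfold I2_cnt
  rw [List.countP_eq_zero]
  intro x hx
  simpa using h x hx

theorem I2_mem_ix (α : List ((ℕ × ℕ) × Bool)) (x : (ℕ × ℕ) × Bool) (h : x ∈ α) : x.1.1 ∈ ix α := by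
  unfold ix
  rw [List.mem_toFinset, List.mem_map]
  exact ⟨x, h, rfl⟩

theorem I2_cnt_wl (j : ℕ) (A B : Gam) (h : j ∉ idx A B) : I2_cnt j (wl A) = 0 := by
  apply I2_cnt_none
  intro x hx hj
  apply h
  unfold idx
  rw [Finset.mem_union]
  left
  rw [← hj]
  exact I2_mem_ix _ x hx

theorem I2_la_index (L : ℕ) (σ : Sg) (l : ℕ) (hl : l < L) : ∀ x ∈ la L σ l, x.1.1 = σ.1 := by
  intro x hx
  apply lg_index L σ x
  rw [← la_append_lb L σ l hl]
  exact List.mem_append_left _ hx

theorem I2_lb_index (L : ℕ) (σ : Sg) (l : ℕ) (hl : l < L) : ∀ x ∈ lb L σ l, x.1.1 = σ.1 := by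
  intro x hx
  apply lg_index L σ x
  rw [← la_append_lb L σ l hl]
  exact List.mem_append_right _ hx

theorem I2_mid_index (L : ℕ) (τ : Sg) (l m : ℕ) (hl : l < L) (hm : m < L) (h : bef τ l m) :
    ∀ x ∈ mid τ l m, x.1.1 = τ.1 := by
  intro x hx
  apply I2_lb_index L τ l hl x
  rw [lb_split L τ l m hl hm h]
  exact List.mem_append_left _ hx

theorem I2_Dt_ext (d d' : Dt) (h1 : d.τ = d'.τ) (h2 : d.l = d'.l) (h3 : d.σ = d'.σ)
    (h4 : d.kd = d'.kd) (h5 : d.m = d'.m) : d = d' := by
  cases d; cases d'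
  simp only at h1 h2 h3 h4 h5
  subst h1 h2 h3 h4 h5
  rfl

theorem out_inj (L : ℕ) (e e' : E) (d d' : Dt) (he : Gd e.2.1 e.2.2) (he' : Gd e'.2.1 e'.2.2)
    (hd : Val L e d) (hd' : Val L e' d') (h : out L e d = out L e' d') : e = e' ∧ d = d' := by
  have hnd := out_nodup L e d he hd
  have hnd' := out_nodup L e' d' he' hd'
  have hW1 : oa L (wl e.2.1) d = oa L (wl e'.2.1) d' := by
    rw [← wl_out1 L e d he hd, ← wl_out1 L e' d' he' hd', h]
  have hW2 : ob L (wl e.2.2) d = ob L (wl e'.2.2) d' := by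
    rw [← wl_out2 L e d he hd, ← wl_out2 L e' d' he' hd', h]
  obtain ⟨v1, v2, v3, v4, v5, v6, v7⟩ := hd
  obtain ⟨v1', v2', v3', v4', v5', v6', v7'⟩ := hd'
  have hG1 : (out L e d).2.1 = (out L e' d').2.1 := by rw [h]
  have hG2 : (out L e d).2.2 = (out L e' d').2.2 := by rw [h]
  have hlast := I2_last L (wl e.2.1) d v5
  rw [hW1, I2_last L (wl e'.2.1) d' v5'] at hlast
  obtain ⟨hblk, hm⟩ := I2_le_inj _ _ _ _ (Option.some.inj hlast).symm
  unfold I2_blk at hblk
  -- membership facts
  have memA1 : ∀ (α : List ((ℕ × ℕ) × Bool)) (d : Dt), d.kd = true → d.m < L →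
      st L d.σ ∈ oa L α d := by
    intro α d hk hm
    unfold oa
    rw [if_pos hk]
    exact List.mem_append_right _ (List.mem_append_right _ (List.mem_of_head? (la_head L d.σ d.m hm)))
  have memA2 : ∀ (β : List ((ℕ × ℕ) × Bool)) (d : Dt), d.kd = true → d.m < L →
      en L d.σ ∈ ob L β d := by
    intro β d hk hm
    unfold ob
    rw [if_pos hk]
    exact List.mem_append_left _ (List.mem_of_getLast? (lb_last L d.σ d.m hm))
  have memB : ∀ (β : List ((ℕ × ℕ) × Bool)) (d : Dt), d.kd = false → bef d.τ d.l d.m → d.l < L →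
      st L d.τ ∈ ob L β d := by
    intro β d hk hb hl
    unfold ob
    rw [if_neg (by rw [hk]; decide), if_pos hb]
    exact List.mem_append_right _ (List.mem_append_right _ (List.mem_append_left _
      (List.mem_of_head? (la_head L d.τ d.l hl))))
  have memC1 : ∀ (α : List ((ℕ × ℕ) × Bool)) (d : Dt), d.kd = false → ¬ bef d.τ d.l d.m → d.l < L →
      en L d.τ ∈ oa L α d := by
    intro α d hk hb hl
    unfold oa
    rw [if_neg (by rw [hk]; decide), if_neg hb]
    exact List.mem_append_right _ (List.mem_append_left _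
      (List.mem_of_getLast? (lb_last L d.τ d.l hl)))
  have memC2 : ∀ (α : List ((ℕ × ℕ) × Bool)) (d : Dt), d.kd = false → ¬ bef d.τ d.l d.m → d.m < L →
      st L d.τ ∈ oa L α d := by
    intro α d hk hb hm
    unfold oa
    rw [if_neg (by rw [hk]; decide), if_neg hb]
    exact List.mem_append_right _ (List.mem_append_right _ (List.mem_append_right _
      (List.mem_of_head? (la_head L d.τ d.m hm))))
  by_cases hk : d.kd = true
  · by_cases hk' : d'.kd = true
    · -- case A
      rw [if_pos hk, if_pos hk'] at hblk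
      unfold out at hG1 hG2
      rw [if_pos hk, if_pos hk'] at hG1 hG2
      simp only at hG1 hG2
      rw [← hblk, ← hm] at hG1 hG2
      have hX : XX L e.2.1 d.τ d.l = XX L e'.2.1 d'.τ d'.l := mul_right_cancel hG1
      have hY : YY L e.2.2 d.τ d.l = YY L e'.2.2 d'.τ d'.l := mul_left_cancel hG2
      obtain ⟨r1, r2, r3, r4⟩ := XY_inj L _ _ _ _ _ _ _ _ he he' v1 v1' v4 v4' hX hY
      refine ⟨?_, I2_Dt_ext d d' r3 r4 hblk (hk.trans hk'.symm) hm⟩
      refine Prod.ext ?_ (Prod.ext r1 r2)
      rw [← v6, ← v6', r4]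
    · exfalso
      have hk'2 : d'.kd = false := by simpa using hk'
      rw [if_pos hk, if_neg hk'] at hblk
      by_cases hb' : bef d'.τ d'.l d'.m
      · apply I2_not_both L _ _ d hnd (st L d.σ) (memA1 _ d hk v5)
        rw [hW2, hblk]
        exact memB _ d' hk'2 hb' v4'
      · apply I2_not_both L _ _ d hnd (en L d.σ) _ (memA2 _ d hk v5)
        rw [hW1, hblk]
        exact memC1 _ d' hk'2 hb' v4'
  · have hk2 : d.kd = false := by simpa using hk
    by_cases hk' : d'.kd = true
    · exfalso
      rw [if_neg hk, if_pos hk'] at hblk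
      by_cases hb : bef d.τ d.l d.m
      · apply I2_not_both L _ _ d' hnd' (st L d'.σ) (memA1 _ d' hk' v5')
        rw [← hW2, ← hblk]
        exact memB _ d hk2 hb v4
      · apply I2_not_both L _ _ d' hnd' (en L d'.σ) _ (memA2 _ d' hk' v5')
        rw [← hW1, ← hblk]
        exact memC1 _ d hk2 hb v4
    · have hk'2 : d'.kd = false := by simpa using hk'
      rw [if_neg hk, if_neg hk'] at hblk
      by_cases hb : bef d.τ d.l d.m
      · by_cases hb' : bef d'.τ d'.l d'.m
        · -- case B
          have hW1' := hW1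
          unfold oa at hW1'
          rw [if_neg hk, if_neg hk', if_pos hb, if_pos hb'] at hW1'
          have hc := congrArg (I2_cnt d.τ.1) hW1'
          rw [I2_cnt_append, I2_cnt_append, I2_cnt_wl _ _ _ v1,
            I2_cnt_all _ _ (I2_mid_index L d.τ d.l d.m v4 v5 hb)] at hc
          have hτ1 : d.τ.1 = d'.τ.1 := by rw [hblk]
          rw [hτ1, I2_cnt_wl _ _ _ v1', I2_cnt_all _ _ (I2_mid_index L d'.τ d'.l d'.m v4' v5' hb'),
            mid_length _ _ _ hb, mid_length _ _ _ hb'] at hc
          have hll : d.l = d'.l := by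
            unfold bef at hb hb'
            rw [← hblk] at hc hb'
            split_ifs at hc hb hb' with hs <;> omega
          unfold out at hG1 hG2
          rw [if_neg hk, if_neg hk', if_pos hb, if_pos hb'] at hG1 hG2
          simp only at hG1 hG2
          rw [← hblk, ← hll, ← hm] at hG1
          have hA : e.2.1 = e'.2.1 := mul_right_cancel (mul_right_cancel hG1)
          have hW2' := hW2
          unfold ob at hW2'
          rw [if_neg hk, if_neg hk', if_pos hb, if_pos hb', ← hblk, ← hll, ← hm] at hW2'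
          have hW3 := List.append_cancel_left hW2'
          have hσ : d.σ = d'.σ := by
            have := congrArg List.head? hW3
            simp only [List.head?_append, lg_head, Option.some_or] at this
            exact I2_st_inj L _ _ (Option.some.inj this)
          rw [← hblk, ← hll, ← hm, ← hσ] at hG2
          have hB : e.2.2 = e'.2.2 := mul_left_cancel hG2
          refine ⟨?_, I2_Dt_ext d d' hblk hll hσ (hk2.trans hk'2.symm) hm⟩
          refine Prod.ext ?_ (Prod.ext hA hB)
          rw [← v6, ← v6', hll]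
        · exfalso
          apply I2_not_both L _ _ d hnd (st L d.τ) _ (memB _ d hk2 hb v4)
          rw [hW1, hblk]
          exact memC2 _ d' hk'2 hb' v5'
      · by_cases hb' : bef d'.τ d'.l d'.m
        · exfalso
          apply I2_not_both L _ _ d hnd (st L d.τ) (memC2 _ d hk2 hb v5)
          rw [hW2, hblk]
          exact memB _ d' hk'2 hb' v4'
        · -- case C
          have hW1' := hW1
          unfold oa at hW1'
          rw [if_neg hk, if_neg hk', if_neg hb, if_neg hb'] at hW1'
          have hc := congrArg (I2_cnt d.τ.1) hW1'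
          have hτ1 : d.τ.1 = d'.τ.1 := by rw [hblk]
          have hn : I2_cnt d.τ.1 (lg L d.σ) = 0 :=
            I2_cnt_none _ _ fun x hx hj => v3 ((lg_index L d.σ x hx).symm.trans hj)
          have hn' : I2_cnt d'.τ.1 (lg L d'.σ) = 0 :=
            I2_cnt_none _ _ fun x hx hj => v3' ((lg_index L d'.σ x hx).symm.trans hj)
          simp only [I2_cnt_append] at hc
          rw [I2_cnt_wl _ _ _ v1, I2_cnt_all _ _ (I2_lb_index L d.τ d.l v4), hn,
            I2_cnt_all _ _ (I2_la_index L d.τ d.m v5), hτ1, I2_cnt_wl _ _ _ v1', hn',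
            I2_cnt_all _ _ (I2_lb_index L d'.τ d'.l v4'),
            I2_cnt_all _ _ (I2_la_index L d'.τ d'.m v5'), lb_length _ _ _ v4, lb_length _ _ _ v4',
            la_length _ _ _ v5, la_length _ _ _ v5', ← hblk, ← hm] at hc
          have hll : d.l = d'.l := by
            split_ifs at hc with hs <;> omega
          rw [← hblk, ← hll, ← hm, ← List.append_assoc, ← List.append_assoc, ← List.append_assoc,
            ← List.append_assoc] at hW1'
          have hW3 := List.append_cancel_right hW1'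
          have hσ : d.σ = d'.σ := by
            have := congrArg List.getLast? hW3
            simp only [List.getLast?_append, lg_last, Option.some_or] at this
            exact I2_en_inj L _ _ (Option.some.inj this)
          unfold out at hG1 hG2
          rw [if_neg hk, if_neg hk', if_neg hb, if_neg hb'] at hG1 hG2
          simp only at hG1 hG2
          rw [← hblk, ← hll, ← hm, ← hσ] at hG1
          rw [← hblk, ← hll, ← hm] at hG2
          have hA : e.2.1 = e'.2.1 := mul_right_cancel (mul_right_cancel (mul_right_cancel hG1))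
          have hB : e.2.2 = e'.2.2 := mul_left_cancel hG2
          refine ⟨?_, I2_Dt_ext d d' hblk hll hσ (hk2.trans hk'2.symm) hm⟩
          refine Prod.ext ?_ (Prod.ext hA hB)
          rw [← v6, ← v6', hll]

end H684FC.P
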