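import Pool.Agent.H684R3.FC.Stubs

/-! Task N1 (norms of finitely supported functions). -/

namespace H684FC.P

noncomputable section

theorem N2_nonneg {ι : Type} (f : ι →₀ ℝ) : 0 ≤ N2 f :=
  Finset.sum_nonneg (fun _ _ => sq_nonneg _)

theorem N2_eq_sum {ι : Type} (f : ι →₀ ℝ) (s : Finset ι) (h : f.support ⊆ s) :
    N2 f = ∑ x ∈ s, f x ^ 2 := by
  unfold N2
  refine Finsupp.sum_of_support_subset _ h _ ?_
  intro i _
  simp

theorem N2_smul {ι : Type} (r : ℝ) (f : ι →₀ ℝ) : N2 (r • f) = r ^ 2 * N2 f := by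
  rw [N2_eq_sum (r • f) f.support Finsupp.support_smul, N2_eq_sum f f.support (le_refl _),
    Finset.mul_sum]
  refine Finset.sum_congr rfl (fun x _ => ?_)
  simp only [Finsupp.smul_apply, smul_eq_mul]
  ring

theorem N2_sum_le {ι κ : Type} (s : Finset κ) (F : κ → ι →₀ ℝ) :
    N2 (∑ i ∈ s, F i) ≤ s.card * ∑ i ∈ s, N2 (F i) := by
  classical
  set S : Finset ι := s.biUnion (fun i => (F i).support) with hS
  have h1 : (∑ i ∈ s, F i).support ⊆ S := Finsupp.support_finsetSum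
  have h2 : ∀ i ∈ s, (F i).support ⊆ S := fun i hi =>
    Finset.subset_biUnion_of_mem (fun i => (F i).support) hi
  rw [N2_eq_sum _ S h1]
  have h3 : ∑ i ∈ s, N2 (F i) = ∑ i ∈ s, ∑ x ∈ S, F i x ^ 2 :=
    Finset.sum_congr rfl (fun i hi => N2_eq_sum _ S (h2 i hi))
  rw [h3, Finset.sum_comm, Finset.mul_sum]
  refine Finset.sum_le_sum (fun x _ => ?_)
  rw [Finsupp.finsetSum_apply]
  exact sq_sum_le_card_mul_sum_sq

theorem N1_aux_apply {ι κ : Type} [DecidableEq ι] (s : Finset κ) (f : κ → ι) (c : κ → ℝ) (y : ι) :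
    (∑ i ∈ s, Finsupp.single (f i) (c i)) y = ∑ i ∈ s.filter (fun i => f i = y), c i := by
  classical
  rw [Finsupp.finsetSum_apply, Finset.sum_filter]
  refine Finset.sum_congr rfl (fun i _ => ?_)
  rw [Finsupp.single_apply]

theorem N1_aux_supp {ι κ : Type} [DecidableEq ι] (s : Finset κ) (f : κ → ι) (c : κ → ℝ) :
    (∑ i ∈ s, Finsupp.single (f i) (c i)).support ⊆ s.image f := by
  intro y hy
  rw [Finsupp.mem_support_iff, N1_aux_apply] at hy
  obtain ⟨i, hi, _⟩ := Finset.exists_ne_zero_of_sum_ne_zero hy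
  rw [Finset.mem_filter] at hi
  exact Finset.mem_image.mpr ⟨i, hi.1, hi.2⟩

theorem N2_sum_inj {ι κ : Type} (s : Finset κ) (f : κ → ι) (c : κ → ℝ) (hf : Set.InjOn f s) :
    N2 (∑ i ∈ s, Finsupp.single (f i) (c i)) = ∑ i ∈ s, c i ^ 2 := by
  classical
  rw [N2_eq_sum _ (s.image f) (N1_aux_supp s f c), Finset.sum_image hf]
  refine Finset.sum_congr rfl (fun i hi => ?_)
  rw [N1_aux_apply]
  have : s.filter (fun j => f j = f i) = {i} := by
    ext j
    simp only [Finset.mem_filter, Finset.mem_singleton]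
    constructor
    · rintro ⟨hj, hji⟩
      exact hf hj hi hji
    · rintro rfl
      exact ⟨hi, rfl⟩
  rw [this, Finset.sum_singleton]

open Classical in
theorem N2_sum_fib {ι κ : Type} (s : Finset κ) (f : κ → ι) (c : κ → ℝ) (M : ℕ)
    (hM : ∀ y, (s.filter (fun i => f i = y)).card ≤ M) :
    N2 (∑ i ∈ s, Finsupp.single (f i) (c i)) ≤ M * ∑ i ∈ s, c i ^ 2 := by
  rw [N2_eq_sum _ (s.image f) (N1_aux_supp s f c)]
  have h1 : ∑ i ∈ s, c i ^ 2 =
      ∑ y ∈ s.image f, ∑ i ∈ s.filter (fun i => f i = y), c i ^ 2 :=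
    (Finset.sum_fiberwise_of_maps_to (fun i hi => Finset.mem_image_of_mem f hi) _).symm
  rw [h1, Finset.mul_sum]
  refine Finset.sum_le_sum (fun y _ => ?_)
  rw [N1_aux_apply]
  have h2 : (∑ i ∈ s.filter (fun i => f i = y), c i) ^ 2 ≤
      (s.filter (fun i => f i = y)).card * ∑ i ∈ s.filter (fun i => f i = y), c i ^ 2 :=
    sq_sum_le_card_mul_sum_sq
  refine h2.trans ?_
  refine mul_le_mul_of_nonneg_right ?_ (Finset.sum_nonneg (fun _ _ => sq_nonneg _))
  exact_mod_cast hM y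

end

end H684FC.P
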