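import Pool.Agent.H684R3.FC.Stubs

/-! Task O1: words of `out`. -/

namespace H684FC.P

/-- the letters of the two words of `out` -/
theorem O1_perm (L : ℕ) (α β : List ((ℕ × ℕ) × Bool)) (d : Dt) (hl : d.l < L) (hm : d.m < L)
    (hne : d.kd = false → d.m ≠ d.l) :
    (oa L α d ++ ob L β d).Perm ((α ++ β) ++ (lg L d.τ ++ lg L d.σ)) := by
  have e1 := la_append_lb L d.τ d.l hl
  have e2 := la_append_lb L d.σ d.m hm
  rw [List.perm_iff_count]
  intro x
  unfold oa ob
  by_cases hk : d.kd = true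
  · rw [if_pos hk, if_pos hk, ← e1, ← e2]
    simp only [List.count_append]
    ring
  · rw [if_neg hk, if_neg hk]
    by_cases hb : bef d.τ d.l d.m
    · have e3 := lb_split L d.τ d.l d.m hl hm hb
      rw [if_pos hb, if_pos hb, ← e1, e3]
      simp only [List.count_append]
      ring
    · have hb' : bef d.τ d.m d.l := by
        have hne' := hne (by simpa using hk)
        unfold bef at hb ⊢
        split_ifs with hs
        · rw [if_pos hs] at hb; omega
        · rw [if_neg hs] at hb; omega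
      have e3 := la_split L d.τ d.m d.l hm hl hb'
      rw [if_neg hb, if_neg hb, ← e1, e3]
      simp only [List.count_append]
      ring

theorem O1_bef (d : Dt) (hk : ¬ d.kd = true) (hne : d.kd = false → d.m ≠ d.l)
    (hb : ¬ bef d.τ d.l d.m) : bef d.τ d.m d.l := by
  have hne' := hne (by simpa using hk)
  unfold bef at hb ⊢
  split_ifs with hs
  · rw [if_pos hs] at hb; omega
  · rw [if_neg hs] at hb; omega

theorem O1_mem_ix (α : List ((ℕ × ℕ) × Bool)) (x : (ℕ × ℕ) × Bool) (h : x ∈ α) : x.1.1 ∈ ix α := by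
  unfold ix
  rw [List.mem_toFinset, List.mem_map]
  exact ⟨x, h, rfl⟩

theorem out_nodup (L : ℕ) (e : E) (d : Dt) (he : Gd e.2.1 e.2.2) (hd : Val L e d) :
    ((oa L (wl e.2.1) d ++ ob L (wl e.2.2) d).map Prod.fst).Nodup := by
  obtain ⟨h1, h2, h3, h4, h5, _, h7⟩ := hd
  rw [((O1_perm L (wl e.2.1) (wl e.2.2) d h4 h5 h7).map Prod.fst).nodup_iff]
  rw [List.map_append, List.nodup_append, List.map_append (f := Prod.fst) (l₁ := lg L d.τ),
    List.nodup_append]
  refine ⟨he, ⟨lg_nodup L d.τ, lg_nodup L d.σ, ?_⟩, ?_⟩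
  · intro a ha b hb hab
    rw [List.mem_map] at ha hb
    obtain ⟨x, hx, rfl⟩ := ha
    obtain ⟨y, hy, rfl⟩ := hb
    have e1 := lg_index L d.τ x hx
    have e2 := lg_index L d.σ y hy
    apply h3
    rw [← e1, ← e2, hab]
  · intro a ha b hb hab
    rw [List.mem_map] at ha
    rw [List.mem_append, List.mem_map, List.mem_map] at hb
    obtain ⟨x, hx, rfl⟩ := ha
    have hxi : x.1.1 ∈ idx e.2.1 e.2.2 := by
      unfold idx
      rw [Finset.mem_union]
      rcases List.mem_append.mp hx with h | h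
      · left; exact O1_mem_ix _ x h
      · right; exact O1_mem_ix _ x h
    rcases hb with ⟨y, hy, rfl⟩ | ⟨y, hy, rfl⟩
    · apply h1
      rw [← lg_index L d.τ y hy, ← hab]
      exact hxi
    · apply h2
      rw [← lg_index L d.σ y hy, ← hab]
      exact hxi

theorem wl_out1 (L : ℕ) (e : E) (d : Dt) (he : Gd e.2.1 e.2.2) (hd : Val L e d) :
    wl (out L e d).2.1 = oa L (wl e.2.1) d := by
  have hnd := out_nodup L e d he hd
  obtain ⟨h1, h2, h3, h4, h5, _, h7⟩ := hd
  apply wl_eq
  · unfold out oa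
    by_cases hk : d.kd = true
    · rw [if_pos hk, if_pos hk]
      simp only [map_mul]
      rw [pi_eq_wl e.2.1, pi_b L d.τ d.l h4, pi_a L d.σ d.m h5, FreeGroup.mul_mk,
        FreeGroup.mul_mk, List.append_assoc]
    · rw [if_neg hk, if_neg hk]
      by_cases hb : bef d.τ d.l d.m
      · rw [if_pos hb, if_pos hb]
        simp only []
        rw [mul_assoc, map_mul, pi_mid L d.τ d.l d.m h4 h5 hb, pi_eq_wl e.2.1, FreeGroup.mul_mk]
      · rw [if_neg hb, if_neg hb]
        simp only [map_mul]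
        rw [pi_eq_wl e.2.1, pi_b L d.τ d.l h4, pi_a L d.τ d.m h5, pi_g L d.σ, FreeGroup.mul_mk,
          FreeGroup.mul_mk, FreeGroup.mul_mk, List.append_assoc, List.append_assoc]
  · apply isReduced_of_nodup
    rw [List.map_append, List.nodup_append] at hnd
    exact hnd.1

theorem wl_out2 (L : ℕ) (e : E) (d : Dt) (he : Gd e.2.1 e.2.2) (hd : Val L e d) :
    wl (out L e d).2.2 = ob L (wl e.2.2) d := by
  have hnd := out_nodup L e d he hd
  obtain ⟨h1, h2, h3, h4, h5, _, h7⟩ := hd
  apply wl_eq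
  · unfold out ob
    by_cases hk : d.kd = true
    · rw [if_pos hk, if_pos hk]
      simp only [map_mul]
      rw [pi_eq_wl e.2.2, pi_b L d.σ d.m h5, pi_a L d.τ d.l h4, FreeGroup.mul_mk,
        FreeGroup.mul_mk]
    · rw [if_neg hk, if_neg hk]
      by_cases hb : bef d.τ d.l d.m
      · rw [if_pos hb, if_pos hb]
        simp only [map_mul]
        rw [pi_eq_wl e.2.2, pi_b L d.τ d.m h5, pi_a L d.τ d.l h4, pi_g L d.σ, FreeGroup.mul_mk,
          FreeGroup.mul_mk, FreeGroup.mul_mk, List.append_assoc, List.append_assoc]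
      · have hb' := O1_bef d hk h7 hb
        rw [if_neg hb, if_neg hb]
        simp only []
        rw [map_mul, pi_mid' L d.τ d.l d.m h4 h5 hb', pi_eq_wl e.2.2, FreeGroup.mul_mk]
  · apply isReduced_of_nodup
    rw [List.map_append, List.nodup_append] at hnd
    exact hnd.2.1

theorem Gd_out (L : ℕ) (e : E) (d : Dt) (he : Gd e.2.1 e.2.2) (hd : Val L e d) :
    Gd (out L e d).2.1 (out L e d).2.2 := by
  unfold Gd
  rw [wl_out1 L e d he hd, wl_out2 L e d he hd]
  exact out_nodup L e d he hd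

theorem O1_ix_append (α β : List ((ℕ × ℕ) × Bool)) : ix (α ++ β) = ix α ∪ ix β := by
  unfold ix
  rw [List.map_append, List.toFinset_append]

theorem O1_ix_lg (L : ℕ) (σ : Sg) : ix (lg L σ) = {σ.1} := by
  ext j
  rw [Finset.mem_singleton]
  constructor
  · intro h
    unfold ix at h
    rw [List.mem_toFinset, List.mem_map] at h
    obtain ⟨x, hx, rfl⟩ := h
    exact lg_index L σ x hx
  · rintro rfl
    have h := lg_head L σ
    have hm : st L σ ∈ lg L σ := List.mem_of_head? h
    have := O1_mem_ix _ _ hm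
    simpa [st] using this

theorem idx_out (L : ℕ) (e : E) (d : Dt) (he : Gd e.2.1 e.2.2) (hd : Val L e d) :
    idx (out L e d).2.1 (out L e d).2.2 = insert d.τ.1 (insert d.σ.1 (idx e.2.1 e.2.2)) := by
  unfold idx
  rw [wl_out1 L e d he hd, wl_out2 L e d he hd, ← O1_ix_append]
  obtain ⟨h1, h2, h3, h4, h5, _, h7⟩ := hd
  have hp := O1_perm L (wl e.2.1) (wl e.2.2) d h4 h5 h7
  have e1 : ix (oa L (wl e.2.1) d ++ ob L (wl e.2.2) d) =
      ix ((wl e.2.1 ++ wl e.2.2) ++ (lg L d.τ ++ lg L d.σ)) := by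
    unfold ix
    exact List.toFinset_eq_of_perm _ _ (hp.map _)
  rw [e1, O1_ix_append, O1_ix_append, O1_ix_append, O1_ix_lg, O1_ix_lg]
  ext j
  simp only [Finset.mem_union, Finset.mem_singleton, Finset.mem_insert]
  tauto

end H684FC.P
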