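import Pool.Agent.H684R3.FC.Stubs

/-! O2: the words of `XX`, `YY` -/

namespace H684FC.P

open H684FC

theorem O2_aux_disj (α β : List ((ℕ × ℕ) × Bool)) (j : ℕ) (hβ : ∀ x ∈ β, x.1.1 = j)
    (hα : j ∉ ix α) : ∀ x ∈ α.map Prod.fst, ∀ y ∈ β.map Prod.fst, x ≠ y := by
  intro x hx y hy hxy
  rw [List.mem_map] at hx hy
  obtain ⟨z, hz, rfl⟩ := hx
  obtain ⟨t, ht, rfl⟩ := hy
  apply hα
  unfold ix
  rw [List.mem_toFinset, List.mem_map]
  refine ⟨z, hz, ?_⟩
  rw [← hβ t ht, ← hxy]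

theorem wl_XX (L : ℕ) (A : Gam) (τ : Sg) (l : ℕ) (hA : ((wl A).map Prod.fst).Nodup)
    (hτ : τ.1 ∉ ix (wl A)) (hl : l < L) : wl (XX L A τ l) = wl A ++ lb L τ l := by
  apply wl_eq
  · unfold XX
    rw [map_mul, pi_eq_wl A, pi_b L τ l hl, FreeGroup.mul_mk]
  · apply isReduced_of_nodup
    have h := lg_nodup L τ
    rw [← la_append_lb L τ l hl, List.map_append, List.nodup_append] at h
    rw [List.map_append, List.nodup_append]
    refine ⟨hA, h.2.1, O2_aux_disj _ _ τ.1 (fun x hx => lg_index L τ x ?_) hτ⟩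
    rw [← la_append_lb L τ l hl]
    exact List.mem_append_right _ hx

theorem wl_YY (L : ℕ) (B : Gam) (τ : Sg) (l : ℕ) (hB : ((wl B).map Prod.fst).Nodup)
    (hτ : τ.1 ∉ ix (wl B)) (hl : l < L) : wl (YY L B τ l) = la L τ l ++ wl B := by
  apply wl_eq
  · unfold YY
    rw [map_mul, pi_eq_wl B, pi_a L τ l hl, FreeGroup.mul_mk]
  · apply isReduced_of_nodup
    have h := lg_nodup L τ
    rw [← la_append_lb L τ l hl, List.map_append, List.nodup_append] at h
    rw [List.map_append, List.nodup_append]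
    refine ⟨h.1, hB, fun x hx y hy hxy => ?_⟩
    refine O2_aux_disj (wl B) (la L τ l) τ.1 (fun z hz => lg_index L τ z ?_) hτ y hy x hx hxy.symm
    rw [← la_append_lb L τ l hl]
    exact List.mem_append_left _ hz

end H684FC.P
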