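import Pool.Agent.H684R3.FC.Stubs

/-! Task R0: bound for the remainder of stage 0. -/

namespace H684FC.P

noncomputable section

theorem R0_aux_idx (L : ℕ) (σ : Sg) (m : ℕ) (hm : m < L) :
    idx (a L σ m) (b L σ m) ⊆ {σ.1} := by
  have hnd : ((la L σ m ++ lb L σ m).map Prod.fst).Nodup := by
    rw [la_append_lb L σ m hm]; exact lg_nodup L σ
  rw [List.map_append] at hnd
  have h1 : wl (a L σ m) = la L σ m :=
    wl_eq _ _ (pi_a L σ m hm) (isReduced_of_nodup _ (List.Nodup.of_append_left hnd))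
  have h2 : wl (b L σ m) = lb L σ m :=
    wl_eq _ _ (pi_b L σ m hm) (isReduced_of_nodup _ (List.Nodup.of_append_right hnd))
  intro j hj
  unfold idx at hj
  rw [h1, h2] at hj
  simp only [ix, Finset.mem_union, List.mem_toFinset, List.mem_map] at hj
  rw [Finset.mem_singleton]
  rcases hj with ⟨x, hx, rfl⟩ | ⟨x, hx, rfl⟩
  · exact lg_index L σ x (by rw [← la_append_lb L σ m hm]; exact List.mem_append_left _ hx)
  · exact lg_index L σ x (by rw [← la_append_lb L σ m hm]; exact List.mem_append_right _ hx)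

open Classical in
/-- the index set of the total remainder of stage 0 -/
def R0_auxS (J L : ℕ) : Finset ((Sg × ℕ) × (Sg × ℕ)) :=
  ((SgF (Finset.range J) ×ˢ Finset.range L) ×ˢ (SgF (Finset.range J) ×ˢ Finset.range L)).filter
    (fun z => col z.2.2 = col z.1.2 ∧ z.2.1.1 ∈ ({z.1.1.1} : Finset ℕ) ∧
      ¬ (z.2.1 = bar z.1.1 ∧ z.2.2 = z.1.2))

/-- the outcome -/
def R0_auxf (L : ℕ) (z : (Sg × ℕ) × (Sg × ℕ)) : Gam × Gam :=
  (XX L (a L z.1.1 z.1.2) z.2.1 z.2.2, YY L (b L z.1.1 z.1.2) z.2.1 z.2.2)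

/-- the coefficient -/
def R0_auxc (J L : ℕ) (z : (Sg × ℕ) × (Sg × ℕ)) : ℝ :=
  (sJ J * sg z.1.1 / L) * (-sg z.2.1 * sJ J)

theorem R0_aux_eq (J L : ℕ) :
    R0 J L = ∑ z ∈ R0_auxS J L, Finsupp.single (R0_auxf L z) (R0_auxc J L z) := by
  unfold R0 Rz R0_auxS
  refine Eq.trans ?_ (Finset.sum_filter _ _).symm
  refine Eq.trans ?_ (Finset.sum_product _ _ _).symm
  refine Finset.sum_congr rfl fun x _ => ?_
  rw [Finset.smul_sum]
  refine Eq.trans (Finset.sum_filter _ _) ?_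
  refine Finset.sum_congr rfl fun y _ => ?_
  unfold R0_auxf R0_auxc
  simp only [Finsupp.smul_single, smul_eq_mul]

theorem R0_aux_mem {J L : ℕ} {z : (Sg × ℕ) × (Sg × ℕ)} (hz : z ∈ R0_auxS J L) :
    z.1.1.1 < J ∧ z.1.2 < L ∧ z.2.1.1 < J ∧ z.2.2 < L ∧ z.2.1.1 = z.1.1.1 ∧
      ¬ (z.2.1 = bar z.1.1 ∧ z.2.2 = z.1.2) := by
  unfold R0_auxS at hz
  rw [Finset.mem_filter, Finset.mem_product, Finset.mem_product, Finset.mem_product] at hz
  obtain ⟨⟨⟨h1, h2⟩, ⟨h3, h4⟩⟩, -, h5, h6⟩ := hz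
  unfold SgF at h1 h3
  rw [Finset.mem_product] at h1 h3
  exact ⟨Finset.mem_range.mp h1.1, Finset.mem_range.mp h2, Finset.mem_range.mp h3.1,
    Finset.mem_range.mp h4, Finset.mem_singleton.mp h5, h6⟩

theorem R0_aux_same {J L : ℕ} {z z0 : (Sg × ℕ) × (Sg × ℕ)} (hz : z ∈ R0_auxS J L)
    (hz0 : z0 ∈ R0_auxS J L) (h : R0_auxf L z = R0_auxf L z0) : z.1.1.1 = z0.1.1.1 := by
  obtain ⟨-, h2, -, h4, h5, h6⟩ := R0_aux_mem hz
  obtain ⟨-, h2', -, h4', h5', -⟩ := R0_aux_mem hz0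
  have hv := vis0 L z.1.1 z.1.2 h2 z.2.1 z.2.2 h4 h6
  unfold R0_auxf at h
  rw [Prod.mk.injEq] at h
  rw [h.1, h.2] at hv
  have hi := idx_XY L (a L z0.1.1 z0.1.2) (b L z0.1.1 z0.1.2) z0.2.1 z0.2.2 h4'
  have h7 := hi (hv (Finset.mem_singleton_self _))
  rw [Finset.mem_insert] at h7
  rcases h7 with h7 | h7
  · rw [h7, h5']
  · exact Finset.mem_singleton.mp (R0_aux_idx L z0.1.1 z0.1.2 h2' h7)

open Classical in
theorem R0_aux_fib (J L : ℕ) (y : Gam × Gam) :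
    ((R0_auxS J L).filter (fun i => R0_auxf L i = y)).card ≤ NG L 1 0 * (2 * L) := by
  rcases ((R0_auxS J L).filter (fun i => R0_auxf L i = y)).eq_empty_or_nonempty with h | ⟨z0, h0⟩
  · rw [h]; simp
  · rw [Finset.mem_filter] at h0
    obtain ⟨h0, h0y⟩ := h0
    have hsub : (R0_auxS J L).filter (fun i => R0_auxf L i = y) ⊆
        ((({z0.1.1.1} : Finset ℕ) ×ˢ (Finset.univ : Finset Bool)) ×ˢ Finset.range L) ×ˢ
          ((({z0.1.1.1} : Finset ℕ) ×ˢ (Finset.univ : Finset Bool)) ×ˢ Finset.range L) := by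
      intro z hz
      rw [Finset.mem_filter] at hz
      obtain ⟨hz, hzy⟩ := hz
      have h1 := R0_aux_same hz h0 (hzy.trans h0y.symm)
      obtain ⟨-, h2, -, h4, h5, -⟩ := R0_aux_mem hz
      simp only [Finset.mem_product, Finset.mem_singleton, Finset.mem_univ, and_true,
        Finset.mem_range]
      exact ⟨⟨h1, h2⟩, ⟨h5.trans h1, h4⟩⟩
    refine (Finset.card_le_card hsub).trans ?_
    simp only [Finset.card_product, Finset.card_singleton, Finset.card_univ, Fintype.card_bool,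
      Finset.card_range, NG]
    exact le_of_eq (by ring)

theorem R0_aux_card (J L : ℕ) : (R0_auxS J L).card ≤ J * 2 * L * (2 * L) := by
  classical
  have h : (R0_auxS J L).card ≤ ((SgF (Finset.range J) ×ˢ Finset.range L) ×ˢ
      ((Finset.univ : Finset Bool) ×ˢ Finset.range L)).card := by
    apply Finset.card_le_card_of_injOn (fun z => (z.1, (z.2.1.2, z.2.2)))
    · intro z hz
      obtain ⟨h1, h2, -, h4, -, -⟩ := R0_aux_mem (Finset.mem_coe.mp hz)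
      rw [Finset.mem_coe]
      unfold SgF
      simp only [Finset.mem_product, Finset.mem_range, Finset.mem_univ, true_and, and_true]
      exact ⟨⟨h1, h2⟩, h4⟩
    · intro z hz z' hz' hzz
      obtain ⟨-, -, -, -, h5, -⟩ := R0_aux_mem (Finset.mem_coe.mp hz)
      obtain ⟨-, -, -, -, h5', -⟩ := R0_aux_mem (Finset.mem_coe.mp hz')
      simp only [Prod.mk.injEq] at hzz
      obtain ⟨e1, e2, e3⟩ := hzz
      obtain ⟨z1, ⟨j, s⟩, l⟩ := z
      obtain ⟨z1', ⟨j', s'⟩, l'⟩ := z'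
      simp only at e1 e2 e3 h5 h5'
      subst e1 e2 e3
      rw [h5, h5']
  refine h.trans (le_of_eq ?_)
  simp only [SgF, Finset.card_product, Finset.card_univ, Fintype.card_bool, Finset.card_range]

theorem R0_aux_sq (σ : Sg) : sg σ ^ 2 = 1 := by
  unfold sg; split_ifs <;> norm_num

theorem R0_aux_sJ (J : ℕ) : sJ J ^ 2 = 1 / (2 * J) := by
  unfold sJ
  rw [div_pow, one_pow, Real.sq_sqrt (by positivity)]

/-- R0 bound -/
theorem R0_norm (J L : ℕ) (hJ : 0 < J) (hL : 0 < L) :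
    N2 (R0 J L) ≤ ((NG L 1 0 * (2 * L) : ℕ) : ℝ) / J := by
  have hJ' : (0 : ℝ) < J := by exact_mod_cast hJ
  have hL' : (0 : ℝ) < L := by exact_mod_cast hL
  rw [R0_aux_eq]
  refine (N2_sum_fib (R0_auxS J L) (R0_auxf L) (R0_auxc J L) (NG L 1 0 * (2 * L))
    (fun y => by convert R0_aux_fib J L y)).trans ?_
  have hc : ∀ z ∈ R0_auxS J L, R0_auxc J L z ^ 2 = 1 / (2 * J : ℝ) ^ 2 / (L : ℝ) ^ 2 := by
    intro z _
    unfold R0_auxc
    have e1 := R0_aux_sq z.1.1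
    have e2 := R0_aux_sq z.2.1
    have e3 := R0_aux_sJ J
    calc (sJ J * sg z.1.1 / L * (-sg z.2.1 * sJ J)) ^ 2
        = (sJ J ^ 2) ^ 2 * sg z.1.1 ^ 2 * sg z.2.1 ^ 2 / (L : ℝ) ^ 2 := by ring
      _ = 1 / (2 * J : ℝ) ^ 2 / (L : ℝ) ^ 2 := by
        rw [e1, e2, e3]; ring
  rw [Finset.sum_congr rfl hc, Finset.sum_const, nsmul_eq_mul]
  have hcard : ((R0_auxS J L).card : ℝ) ≤ J * 2 * L * (2 * L) := by
    exact_mod_cast R0_aux_card J L
  have hM : (0 : ℝ) ≤ ((NG L 1 0 * (2 * L) : ℕ) : ℝ) := Nat.cast_nonneg _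
  calc ((NG L 1 0 * (2 * L) : ℕ) : ℝ) *
        (((R0_auxS J L).card : ℝ) * (1 / (2 * J : ℝ) ^ 2 / (L : ℝ) ^ 2))
      ≤ ((NG L 1 0 * (2 * L) : ℕ) : ℝ) *
        ((J * 2 * L * (2 * L) : ℝ) * (1 / (2 * J : ℝ) ^ 2 / (L : ℝ) ^ 2)) := by
        apply mul_le_mul_of_nonneg_left _ hM
        apply mul_le_mul_of_nonneg_right hcard
        positivity
    _ = ((NG L 1 0 * (2 * L) : ℕ) : ℝ) / J := by
        field_simp

end

end H684FC.P
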