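import Pool.Agent.H684R3.FC.Stubs

/-!
Combinatorial core of the free group factor theorem: the bound of the remainders of the later
stages (task RS).
-/

namespace H684FC.P

noncomputable section

theorem RS_mem_out {J L n : ℕ} {x : (_ : E) × Dt}
    (hx : x ∈ (Gen L n (Finset.range J)).sigma (fun e => DtF L (Finset.range J) e)) :
    out L x.1 x.2 ∈ Gen L (n+1) (Finset.range J) ∧ Gd x.1.2.1 x.1.2.2 ∧ Val L x.1 x.2 := by
  classical
  obtain ⟨h1, h2⟩ := Finset.mem_sigma.1 hx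
  unfold DtF at h2
  obtain ⟨h3, h4⟩ := Finset.mem_filter.1 h2
  refine ⟨?_, (Gen_prop L n _ _ h1).1, h4⟩
  rw [Gen]
  exact Finset.mem_image.2 ⟨(x.1, x.2), Finset.mem_filter.2 ⟨Finset.mem_product.2 ⟨h1, h3⟩, h4⟩, rfl⟩

theorem RS_inj {J L n : ℕ} {x x' : (_ : E) × Dt}
    (hx : x ∈ (Gen L n (Finset.range J)).sigma (fun e => DtF L (Finset.range J) e))
    (hx' : x' ∈ (Gen L n (Finset.range J)).sigma (fun e => DtF L (Finset.range J) e))
    (h : out L x.1 x.2 = out L x'.1 x'.2) : x = x' := by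
  obtain ⟨-, h1, h2⟩ := RS_mem_out hx
  obtain ⟨-, h1', h2'⟩ := RS_mem_out hx'
  obtain ⟨e1, e2⟩ := out_inj L x.1 x'.1 x.2 x'.2 h1 h1' h2 h2' h
  rcases x with ⟨e, d⟩
  rcases x' with ⟨e', d'⟩
  simp only at e1 e2
  subst e1 e2
  rfl

open Classical in
/-- the second index set -/
def RS_F (J L : ℕ) (x : (_ : E) × Dt) : Finset (Sg × ℕ) :=
  (SgF (Finset.range J) ×ˢ Finset.range L).filter
      (fun y => col y.2 = (out L x.1 x.2).1 ∧ y.1.1 ∈ idx (out L x.1 x.2).2.1 (out L x.1 x.2).2.2 ∧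
        ¬ (x.2.kd = true ∧ y.1 = bar x.2.σ ∧ y.2 = x.2.m))

theorem RS_F_mem {J L : ℕ} {x : (_ : E) × Dt} {y : Sg × ℕ} (h : y ∈ RS_F J L x) :
    y.2 < L ∧ y.1.1 ∈ idx (out L x.1 x.2).2.1 (out L x.1 x.2).2.2 ∧
        ¬ (x.2.kd = true ∧ y.1 = bar x.2.σ ∧ y.2 = x.2.m) := by
  classical
  unfold RS_F at h
  obtain ⟨h1, h2⟩ := Finset.mem_filter.1 h
  exact ⟨Finset.mem_range.1 (Finset.mem_product.1 h1).2, h2.2⟩

theorem RS_SgF_mem {V : Finset ℕ} {σ : Sg} : σ ∈ SgF V ↔ σ.1 ∈ V := by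
  unfold SgF
  rw [Finset.mem_product]
  simp

theorem RS_SgF_card (V : Finset ℕ) : (SgF V).card = 2 * V.card := by
  unfold SgF
  rw [Finset.card_product, Finset.card_univ, Fintype.card_bool, mul_comm]

theorem RS_F_card {J L n : ℕ} {x : (_ : E) × Dt}
    (hx : x ∈ (Gen L n (Finset.range J)).sigma (fun e => DtF L (Finset.range J) e)) :
    (RS_F J L x).card ≤ 2 * (2 * n + 3) * L := by
  classical
  have h1 : RS_F J L x ⊆ SgF (idx (out L x.1 x.2).2.1 (out L x.1 x.2).2.2) ×ˢ Finset.range L := by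
    intro y hy
    obtain ⟨h2, h3, -⟩ := RS_F_mem hy
    exact Finset.mem_product.2 ⟨RS_SgF_mem.2 h3, Finset.mem_range.2 h2⟩
  refine (Finset.card_le_card h1).trans ?_
  rw [Finset.card_product, RS_SgF_card, Finset.card_range,
    (Gen_prop L (n+1) _ _ (RS_mem_out hx).1).2.2.1]
  apply le_of_eq; ring

theorem RS_eq (J L n : ℕ) : RS J L n =
    ∑ z ∈ ((Gen L n (Finset.range J)).sigma (fun e => DtF L (Finset.range J) e)).sigma (RS_F J L),
      Finsupp.single (XX L (out L z.1.1 z.1.2).2.1 z.2.1 z.2.2, YY L (out L z.1.1 z.1.2).2.2 z.2.1 z.2.2)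
        (eta J L n z.1.1 * coef J L z.1.2 * (-sg z.2.1 * sJ J)) := by
  rw [Finset.sum_sigma]
  unfold RS
  refine Finset.sum_congr rfl fun x _ => ?_
  unfold Rs
  rw [Finset.smul_sum]
  refine Finset.sum_congr rfl fun y _ => ?_
  rw [Finsupp.smul_single, smul_eq_mul]

/-- the fibres are bounded -/
theorem RS_fib (J L n : ℕ) (y0 : Gam × Gam) (Q : Finset ((_ : (_ : E) × Dt) × (Sg × ℕ)))
    (hQ : ∀ z ∈ Q, z ∈ ((Gen L n (Finset.range J)).sigma
        (fun e => DtF L (Finset.range J) e)).sigma (RS_F J L) ∧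
        (XX L (out L z.1.1 z.1.2).2.1 z.2.1 z.2.2, YY L (out L z.1.1 z.1.2).2.2 z.2.1 z.2.2) = y0) :
    Q.card ≤ NG L (2 * n + 3) (n+1) * (2 * (2 * n + 3) * L) := by
  classical
  rcases Finset.eq_empty_or_nonempty Q with hemp | ⟨z0, hz0⟩
  · rw [hemp]; simp
  · obtain ⟨hz0a, hz0b⟩ := hQ z0 hz0
    obtain ⟨hz0c, hz0d⟩ := Finset.mem_sigma.1 hz0a
    obtain ⟨hp0, hρ0, hn0⟩ := RS_F_mem hz0d
    set V := idx (out L z0.1.1 z0.1.2).2.1 (out L z0.1.1 z0.1.2).2.2 with hV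
    have hVcard : V.card = 2 * n + 3 := by
      have := (Gen_prop L (n+1) _ _ (RS_mem_out hz0c).1).2.2.1
      rw [hV, this]
      ring
    have hy0 : idx y0.1 y0.2 ⊆ V := by
      have h1 := idx_XY L (out L z0.1.1 z0.1.2).2.1 (out L z0.1.1 z0.1.2).2.2 z0.2.1 z0.2.2 hp0
      rw [← hz0b]
      refine h1.trans ?_
      rw [Finset.insert_eq_of_mem hρ0]
    let φ : ((_ : (_ : E) × Dt) × (Sg × ℕ)) → E × Sg × ℕ := fun z => (out L z.1.1 z.1.2, z.2.1, z.2.2)
    have hmaps : ∀ z ∈ Q, φ z ∈ Gen L (n+1) V ×ˢ SgF V ×ˢ Finset.range L := by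
      intro z hz
      obtain ⟨hza, hzb⟩ := hQ z hz
      obtain ⟨hzc, hzd⟩ := Finset.mem_sigma.1 hza
      obtain ⟨hp, hρ, hn⟩ := RS_F_mem hzd
      obtain ⟨ho, hg, hv⟩ := RS_mem_out hzc
      have h2 : idx (out L z.1.1 z.1.2).2.1 (out L z.1.1 z.1.2).2.2 ⊆ V := by
        have h3 := vis L z.1.1 z.1.2 hg hv z.2.1 z.2.2 hp hn
        refine h3.trans ?_
        have h4 : idx (XX L (out L z.1.1 z.1.2).2.1 z.2.1 z.2.2)
            (YY L (out L z.1.1 z.1.2).2.2 z.2.1 z.2.2) = idx y0.1 y0.2 := by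
          rw [← hzb]
        rw [h4]
        exact hy0
      exact Finset.mem_product.2 ⟨Gen_mono L (n+1) _ V _ ho h2,
        Finset.mem_product.2 ⟨RS_SgF_mem.2 (h2 hρ), Finset.mem_range.2 hp⟩⟩
    have hinj : ∀ z ∈ Q, ∀ z' ∈ Q, φ z = φ z' → z = z' := by
      intro z hz z' hz' h
      have h1 := (Finset.mem_sigma.1 (hQ z hz).1).1
      have h1' := (Finset.mem_sigma.1 (hQ z' hz').1).1
      have e1 : out L z.1.1 z.1.2 = out L z'.1.1 z'.1.2 := congrArg (fun x => x.1) h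
      have e2 : z.2.1 = z'.2.1 := congrArg (fun x => x.2.1) h
      have e3 : z.2.2 = z'.2.2 := congrArg (fun x => x.2.2) h
      have e4 := RS_inj h1 h1' e1
      rcases z with ⟨x, ρ, p⟩
      rcases z' with ⟨x', ρ', p'⟩
      simp only at e2 e3 e4
      subst e2 e3 e4
      rfl
    have hcard := Finset.card_le_card_of_injOn φ hmaps (fun z hz z' hz' h =>
      hinj z (Finset.mem_coe.1 hz) z' (Finset.mem_coe.1 hz') h)
    refine hcard.trans ?_
    rw [Finset.card_product, Finset.card_product, RS_SgF_card, Finset.card_range]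
    have h5 := Gen_card L (n+1) V
    rw [hVcard] at h5 ⊢
    exact Nat.mul_le_mul_right _ h5

theorem RS_norm (J L n : ℕ) (hJ : 0 < J) (hL : 0 < L) :
    N2 (RS J L n) ≤ ((NG L (2 * n + 3) (n+1) * (2 * (2 * n + 3) * L) : ℕ) : ℝ) *
      ((2 * n + 3) * L / J) * N2 (eta J L (n+1)) := by
  classical
  rw [RS_eq]
  have hJ' : (0 : ℝ) < J := by exact_mod_cast hJ
  refine (N2_sum_fib _ _ _ (NG L (2 * n + 3) (n+1) * (2 * (2 * n + 3) * L)) ?_).trans ?_
  · intro y0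
    exact RS_fib J L n y0 _ fun z hz => (@Finset.mem_filter _ _ (fun _ => Classical.propDecidable _) _ _).1 hz
  · rw [mul_assoc (((NG L (2 * n + 3) (n+1) * (2 * (2 * n + 3) * L) : ℕ) : ℝ))]
    refine mul_le_mul_of_nonneg_left ?_ (Nat.cast_nonneg _)
    rw [Finset.sum_sigma]
    have hN : N2 (eta J L (n+1)) = ∑ x ∈ (Gen L n (Finset.range J)).sigma
        (fun e => DtF L (Finset.range J) e), (eta J L n x.1 * coef J L x.2) ^ 2 := by
      rw [eta_succ]
      refine N2_sum_inj _ _ _ ?_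
      intro x hx x' hx' h
      exact RS_inj (Finset.mem_coe.1 hx) (Finset.mem_coe.1 hx') h
    rw [hN, Finset.mul_sum]
    refine Finset.sum_le_sum fun x hx => ?_
    have hsq : ∀ y : Sg × ℕ, (eta J L n x.1 * coef J L x.2 * (-sg y.1 * sJ J)) ^ 2
        = (eta J L n x.1 * coef J L x.2) ^ 2 * (1 / (2 * J)) := by
      intro y
      have h1 : sg y.1 ^ 2 = 1 := by
        unfold sg; split_ifs <;> norm_num
      have h2 : sJ J ^ 2 = 1 / (2 * J) := by
        unfold sJ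
        rw [div_pow, Real.sq_sqrt (by positivity)]
        norm_num
      calc (eta J L n x.1 * coef J L x.2 * (-sg y.1 * sJ J)) ^ 2
          = (eta J L n x.1 * coef J L x.2) ^ 2 * (sg y.1 ^ 2 * sJ J ^ 2) := by ring
        _ = _ := by rw [h1, h2, one_mul]
    simp only [hsq]
    rw [Finset.sum_const, nsmul_eq_mul]
    have hc : ((RS_F J L x).card : ℝ) ≤ 2 * (2 * n + 3) * L := by
      exact_mod_cast RS_F_card hx
    calc ((RS_F J L x).card : ℝ) * ((eta J L n x.1 * coef J L x.2) ^ 2 * (1 / (2 * J)))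
        ≤ (2 * (2 * n + 3) * L) * ((eta J L n x.1 * coef J L x.2) ^ 2 * (1 / (2 * J))) :=
          mul_le_mul_of_nonneg_right hc (by positivity)
      _ = (2 * n + 3) * L / J * (eta J L n x.1 * coef J L x.2) ^ 2 := by
          field_simp

end

end H684FC.P
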