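import Pool.Agent.H684R3.FC.Stubs

/-! S1: the subgroups `GS` (helper903). -/

namespace H684FC.P

theorem GS_mono {S S' : Finset ℕ} (h : S ⊆ S') : GS S ≤ GS S' := by
  refine Subgroup.closure_mono ?_
  rintro x (⟨j, hj, q, rfl⟩ | hx)
  · exact Or.inl ⟨j, h hj, q, rfl⟩
  · exact Or.inr hx

theorem S1_aux_w (j q : ℕ) : w j q ∈ GS {j} :=
  Subgroup.subset_closure (Or.inl ⟨j, by simp, q, rfl⟩)

theorem S1_aux_u (S : Finset ℕ) (i : Fin 4) : u i ∈ GS S :=
  Subgroup.subset_closure (Or.inr ⟨i, rfl⟩)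

theorem S1_aux_AA (j n : ℕ) : AA j n ∈ GS {j} := by
  induction n with
  | zero => exact one_mem _
  | succ n ih =>
    exact mul_mem ih (mul_mem (S1_aux_w j n) (S1_aux_u _ _))

theorem S1_aux_gP (L j : ℕ) : gP L j ∈ GS {j} := mul_mem (S1_aux_AA j L) (S1_aux_w j L)

theorem a_mem_GS (L : ℕ) (σ : Sg) (l : ℕ) : a L σ l ∈ GS {σ.1} := by
  unfold a
  split_ifs
  · exact S1_aux_AA _ _
  · exact mul_mem (inv_mem (S1_aux_gP _ _)) (S1_aux_AA _ _)

theorem b_mem_GS (L : ℕ) (σ : Sg) (l : ℕ) : b L σ l ∈ GS {σ.1} := by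
  unfold b
  split_ifs
  · exact mul_mem (inv_mem (S1_aux_AA _ _)) (S1_aux_gP _ _)
  · exact inv_mem (S1_aux_AA _ _)

theorem g_mem_GS (L : ℕ) (σ : Sg) : g L σ ∈ GS {σ.1} := by
  unfold g
  split_ifs
  · exact S1_aux_gP _ _
  · exact inv_mem (S1_aux_gP _ _)

theorem ix_of_mem_GS (S : Finset ℕ) (x : Gam) (h : x ∈ GS S) : ix (wl x) ⊆ S := by
  unfold GS at h
  induction h using Subgroup.closure_induction with
  | mem x hx =>
    rcases hx with ⟨j, hj, q, rfl⟩ | ⟨i, rfl⟩
    · have h1 : pi (w j q) = FreeGroup.of (j, q) := by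
        unfold pi w
        rw [FreeGroup.lift_apply_of]
        rfl
      have h2 : wl (w j q) = [((j, q), true)] := by
        unfold wl
        rw [h1, FreeGroup.toWord_of]
      rw [h2]
      intro k hk
      simp only [ix, List.map_cons, List.map_nil, List.toFinset_cons, List.toFinset_nil,
        insert_empty_eq, Finset.mem_singleton] at hk
      rw [hk]
      exact hj
    · have h1 : pi (u i) = 1 := by
        unfold pi u
        rw [FreeGroup.lift_apply_of]
        rfl
      have h2 : wl (u i) = [] := by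
        unfold wl
        rw [h1, FreeGroup.toWord_one]
      rw [h2]
      intro k hk
      simp [ix] at hk
  | one =>
    have h2 : wl (1 : Gam) = [] := by
      unfold wl
      rw [map_one, FreeGroup.toWord_one]
    rw [h2]
    intro k hk
    simp [ix] at hk
  | mul x y _ _ hx hy => exact (ix_mul x y).trans (Finset.union_subset hx hy)
  | inv x _ hx =>
    rw [ix_inv]
    exact hx

end H684FC.P
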