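import Pool.Agent.H684R3.FC.Defs

/-! Stubs for the combinatorial core (each is a task; see table h684_tasks). -/

namespace H684FC

/-! ## W1: words -/

theorem a_mul_b (L : ℕ) (σ : Sg) (l : ℕ) : a L σ l * b L σ l = g L σ := by sorry
theorem a_bar (L : ℕ) (σ : Sg) (l : ℕ) : a L (bar σ) l = (b L σ l)⁻¹ := by sorry
theorem b_bar (L : ℕ) (σ : Sg) (l : ℕ) : b L (bar σ) l = (a L σ l)⁻¹ := by sorry
theorem g_bar (L : ℕ) (σ : Sg) : g L (bar σ) = (g L σ)⁻¹ := by sorry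
theorem pi_AA (j n : ℕ) : pi (AA j n) = FreeGroup.mk (seg j 0 n) := by sorry
theorem pi_a (L : ℕ) (σ : Sg) (l : ℕ) (h : l < L) : pi (a L σ l) = FreeGroup.mk (la L σ l) := by sorry
theorem pi_b (L : ℕ) (σ : Sg) (l : ℕ) (h : l < L) : pi (b L σ l) = FreeGroup.mk (lb L σ l) := by sorry
theorem pi_g (L : ℕ) (σ : Sg) : pi (g L σ) = FreeGroup.mk (lg L σ) := by sorry
theorem pi_mid (L : ℕ) (τ : Sg) (l m : ℕ) (hl : l < L) (hm : m < L) (h : bef τ l m) :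
    pi ((a L τ l)⁻¹ * a L τ m) = FreeGroup.mk (mid τ l m) := by sorry
theorem pi_mid' (L : ℕ) (τ : Sg) (l m : ℕ) (hl : l < L) (hm : m < L) (h : bef τ m l) :
    pi (b L τ m * (b L τ l)⁻¹) = FreeGroup.mk (mid τ m l) := by sorry

/-! ## W2: lists -/

theorem la_append_lb (L : ℕ) (σ : Sg) (l : ℕ) (h : l < L) : la L σ l ++ lb L σ l = lg L σ := by sorry
theorem lb_split (L : ℕ) (τ : Sg) (l m : ℕ) (hl : l < L) (hm : m < L) (h : bef τ l m) :
    lb L τ l = mid τ l m ++ lb L τ m := by sorry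
theorem la_split (L : ℕ) (τ : Sg) (l m : ℕ) (hl : l < L) (hm : m < L) (h : bef τ l m) :
    la L τ m = la L τ l ++ mid τ l m := by sorry
theorem lg_nodup (L : ℕ) (σ : Sg) : ((lg L σ).map Prod.fst).Nodup := by sorry
theorem lg_index (L : ℕ) (σ : Sg) : ∀ x ∈ lg L σ, x.1.1 = σ.1 := by sorry
theorem la_length (L : ℕ) (σ : Sg) (l : ℕ) (h : l < L) :
    (la L σ l).length = if σ.2 then l + 1 else L - l := by sorry
theorem lb_length (L : ℕ) (σ : Sg) (l : ℕ) (h : l < L) :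
    (lb L σ l).length = if σ.2 then L - l else l + 1 := by sorry
theorem mid_length (τ : Sg) (l m : ℕ) (h : bef τ l m) :
    (mid τ l m).length = if τ.2 then m - l else l - m := by sorry
theorem la_last (L : ℕ) (σ : Sg) (l : ℕ) (h : l < L) : (la L σ l).getLast? = some (le σ l) := by sorry
theorem la_head (L : ℕ) (σ : Sg) (l : ℕ) (h : l < L) : (la L σ l).head? = some (st L σ) := by sorry
theorem lb_last (L : ℕ) (σ : Sg) (l : ℕ) (h : l < L) : (lb L σ l).getLast? = some (en L σ) := by sorry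
theorem lb_head (L : ℕ) (σ : Sg) (l : ℕ) (h : l < L) : (lb L σ l).head? = some (fe σ l) := by sorry
theorem lg_head (L : ℕ) (σ : Sg) : (lg L σ).head? = some (st L σ) := by sorry
theorem lg_last (L : ℕ) (σ : Sg) : (lg L σ).getLast? = some (en L σ) := by sorry
theorem mid_last (τ : Sg) (l m : ℕ) (h : bef τ l m) : (mid τ l m).getLast? = some (le τ m) := by sorry
theorem mid_head (τ : Sg) (l m : ℕ) (h : bef τ l m) : (mid τ l m).head? = some (fe τ l) := by sorry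

/-! ## W3: reduced words -/

theorem isReduced_of_nodup (α : List ((ℕ × ℕ) × Bool)) (h : (α.map Prod.fst).Nodup) :
    FreeGroup.IsReduced α := by sorry
theorem wl_eq (x : Gam) (α : List ((ℕ × ℕ) × Bool)) (h : pi x = FreeGroup.mk α)
    (hα : FreeGroup.IsReduced α) : wl x = α := by sorry
theorem pi_eq_wl (x : Gam) : pi x = FreeGroup.mk (wl x) := by sorry
theorem ix_mul (x y : Gam) : ix (wl (x * y)) ⊆ ix (wl x) ∪ ix (wl y) := by sorry
theorem ix_inv (x : Gam) : ix (wl x⁻¹) = ix (wl x) := by sorry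

/-! ## O1: words of `out` -/

/-- first word of `out` -/
def oa (L : ℕ) (α : List ((ℕ × ℕ) × Bool)) (d : Dt) : List ((ℕ × ℕ) × Bool) :=
  if d.kd then α ++ (lb L d.τ d.l ++ la L d.σ d.m)
  else if bef d.τ d.l d.m then α ++ mid d.τ d.l d.m
  else α ++ (lb L d.τ d.l ++ (lg L d.σ ++ la L d.τ d.m))

/-- second word of `out` -/
def ob (L : ℕ) (β : List ((ℕ × ℕ) × Bool)) (d : Dt) : List ((ℕ × ℕ) × Bool) :=
  if d.kd then lb L d.σ d.m ++ (la L d.τ d.l ++ β)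
  else if bef d.τ d.l d.m then lb L d.τ d.m ++ (lg L d.σ ++ (la L d.τ d.l ++ β))
  else mid d.τ d.m d.l ++ β

theorem out_nodup (L : ℕ) (e : E) (d : Dt) (he : Gd e.2.1 e.2.2) (hd : Val L e d) :
    ((oa L (wl e.2.1) d ++ ob L (wl e.2.2) d).map Prod.fst).Nodup := by sorry
theorem wl_out1 (L : ℕ) (e : E) (d : Dt) (he : Gd e.2.1 e.2.2) (hd : Val L e d) :
    wl (out L e d).2.1 = oa L (wl e.2.1) d := by sorry
theorem wl_out2 (L : ℕ) (e : E) (d : Dt) (he : Gd e.2.1 e.2.2) (hd : Val L e d) :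
    wl (out L e d).2.2 = ob L (wl e.2.2) d := by sorry
theorem Gd_out (L : ℕ) (e : E) (d : Dt) (he : Gd e.2.1 e.2.2) (hd : Val L e d) :
    Gd (out L e d).2.1 (out L e d).2.2 := by sorry
theorem idx_out (L : ℕ) (e : E) (d : Dt) (he : Gd e.2.1 e.2.2) (hd : Val L e d) :
    idx (out L e d).2.1 (out L e d).2.2 = insert d.τ.1 (insert d.σ.1 (idx e.2.1 e.2.2)) := by sorry

/-! ## O2: the word of `XX`, `YY` -/

theorem wl_XX (L : ℕ) (A : Gam) (τ : Sg) (l : ℕ) (hA : ((wl A).map Prod.fst).Nodup)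
    (hτ : τ.1 ∉ ix (wl A)) (hl : l < L) : wl (XX L A τ l) = wl A ++ lb L τ l := by sorry
theorem wl_YY (L : ℕ) (B : Gam) (τ : Sg) (l : ℕ) (hB : ((wl B).map Prod.fst).Nodup)
    (hτ : τ.1 ∉ ix (wl B)) (hl : l < L) : wl (YY L B τ l) = la L τ l ++ wl B := by sorry

/-! ## I1: `(A,B,τ,l) ↦ (X,Y)` is injective -/

theorem XY_inj (L : ℕ) (A B A' B' : Gam) (τ τ' : Sg) (l l' : ℕ) (h : Gd A B) (h' : Gd A' B')
    (hτ : τ.1 ∉ idx A B) (hτ' : τ'.1 ∉ idx A' B') (hl : l < L) (hl' : l' < L)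
    (hX : XX L A τ l = XX L A' τ' l') (hY : YY L B τ l = YY L B' τ' l') :
    A = A' ∧ B = B' ∧ τ = τ' ∧ l = l' := by sorry

/-! ## I2: `(e,d) ↦ out` is injective -/

theorem out_inj (L : ℕ) (e e' : E) (d d' : Dt) (he : Gd e.2.1 e.2.2) (he' : Gd e'.2.1 e'.2.2)
    (hd : Val L e d) (hd' : Val L e' d') (h : out L e d = out L e' d') : e = e' ∧ d = d' := by sorry

/-! ## V1: everything is visible in the remainder -/

theorem vis (L : ℕ) (e : E) (d : Dt) (he : Gd e.2.1 e.2.2) (hd : Val L e d) (ρ : Sg) (p : ℕ)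
    (hp : p < L) (hnc : ¬ (d.kd = true ∧ ρ = bar d.σ ∧ p = d.m)) :
    idx (out L e d).2.1 (out L e d).2.2 ⊆
      idx (XX L (out L e d).2.1 ρ p) (YY L (out L e d).2.2 ρ p) := by sorry
theorem vis0 (L : ℕ) (σ : Sg) (m : ℕ) (hm : m < L) (ρ : Sg) (p : ℕ)
    (hp : p < L) (hnc : ¬ (ρ = bar σ ∧ p = m)) :
    {σ.1} ⊆ idx (XX L (a L σ m) ρ p) (YY L (b L σ m) ρ p) := by sorry
theorem idx_XY (L : ℕ) (A B : Gam) (ρ : Sg) (p : ℕ) (hp : p < L) :
    idx (XX L A ρ p) (YY L B ρ p) ⊆ insert ρ.1 (idx A B) := by sorry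
theorem b_inj (L : ℕ) (ρ ρ' : Sg) (p p' : ℕ) (hp : p < L) (hp' : p' < L)
    (h : b L ρ p = b L ρ' p') : ρ = ρ' ∧ p = p' := by sorry
theorem a_inj (L : ℕ) (ρ ρ' : Sg) (p p' : ℕ) (hp : p < L) (hp' : p' < L)
    (h : a L ρ p = a L ρ' p') : ρ = ρ' ∧ p = p' := by sorry

/-! ## S1: subgroups -/

theorem GS_mono {S S' : Finset ℕ} (h : S ⊆ S') : GS S ≤ GS S' := by sorry
theorem a_mem_GS (L : ℕ) (σ : Sg) (l : ℕ) : a L σ l ∈ GS {σ.1} := by sorry
theorem b_mem_GS (L : ℕ) (σ : Sg) (l : ℕ) : b L σ l ∈ GS {σ.1} := by sorry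
theorem g_mem_GS (L : ℕ) (σ : Sg) : g L σ ∈ GS {σ.1} := by sorry
theorem ix_of_mem_GS (S : Finset ℕ) (x : Gam) (h : x ∈ GS S) : ix (wl x) ⊆ S := by sorry

/-! ## G1: the sets `Gen` -/

theorem Gen_prop (L n : ℕ) (V : Finset ℕ) (e : E) (h : e ∈ Gen L n V) :
    Gd e.2.1 e.2.2 ∧ idx e.2.1 e.2.2 ⊆ V ∧ (idx e.2.1 e.2.2).card = 2 * n + 1 ∧
      e.2.1 ∈ GS (idx e.2.1 e.2.2) ∧ e.2.2 ∈ GS (idx e.2.1 e.2.2) := by sorry
theorem Gen_mono (L n : ℕ) (V V' : Finset ℕ) (e : E) (h : e ∈ Gen L n V)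
    (h' : idx e.2.1 e.2.2 ⊆ V') : e ∈ Gen L n V' := by sorry
theorem Gen_card (L n : ℕ) (V : Finset ℕ) : (Gen L n V).card ≤ NG L V.card n := by sorry

/-! ## D1, D2: Fox derivatives -/

theorem D_GS (D : Fin 4 → Gam → Gam → ℤ) (hD : IsFox D) (S : Finset ℕ) (v A : Gam) (hv : v ∈ GS S)
    (hA : A ∉ GS S) (i : Fin 4) : D i v A = 0 := by sorry
theorem D_AA (D : Fin 4 → Gam → Gam → ℤ) (hD : IsFox D) (i : Fin 4) (j n : ℕ) (A : Gam) :
    D i (AA j n) A = ∑ l ∈ Finset.range n, if col l = i ∧ A = AA j (l+1) then 1 else 0 := by sorry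
theorem D_g (D : Fin 4 → Gam → Gam → ℤ) (hD : IsFox D) (L : ℕ) (σ : Sg) (i : Fin 4) (A : Gam) :
    D i (g L σ) A = sz σ * ∑ l ∈ Finset.range L, if col l = i ∧ A = a L σ l then 1 else 0 := by sorry
theorem D_g_a (D : Fin 4 → Gam → Gam → ℤ) (hD : IsFox D) (L : ℕ) (σ : Sg) (m : ℕ) (hm : m < L) :
    D (col m) (g L σ) (a L σ m) = sz σ := by sorry
theorem D_a_a (D : Fin 4 → Gam → Gam → ℤ) (hD : IsFox D) (L : ℕ) (τ : Sg) (l m : ℕ) (hl : l < L)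
    (hm : m < L) (h : bef τ m l) : D (col m) (a L τ l) (a L τ m) = sz τ := by sorry
theorem D_b_mid (D : Fin 4 → Gam → Gam → ℤ) (hD : IsFox D) (L : ℕ) (τ : Sg) (l m : ℕ) (hl : l < L)
    (hm : m < L) (h : bef τ l m) :
    D (col m) (b L τ l) ((a L τ l)⁻¹ * a L τ m) = sz τ := by sorry
/-- D3 -/
theorem D_out (D : Fin 4 → Gam → Gam → ℤ) (hD : IsFox D) (L : ℕ) (e : E) (d : Dt)
    (he : Gd e.2.1 e.2.2) (h1 : e.2.1 ∈ GS (idx e.2.1 e.2.2)) (h2 : e.2.2 ∈ GS (idx e.2.1 e.2.2))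
    (hd : Val L e d) :
    D (out L e d).1 ((out L e d).2.1 * (out L e d).2.2) (out L e d).2.1 =
      if d.kd then sz d.σ else sz d.τ := by sorry
theorem out_mul (L : ℕ) (e : E) (d : Dt) :
    (out L e d).2.1 * (out L e d).2.2 = XX L e.2.1 d.τ d.l * g L d.σ * YY L e.2.2 d.τ d.l := by sorry

noncomputable section

/-! ## N1: norms -/

theorem N2_nonneg {ι : Type} (f : ι →₀ ℝ) : 0 ≤ N2 f := by sorry
theorem N2_smul {ι : Type} (r : ℝ) (f : ι →₀ ℝ) : N2 (r • f) = r ^ 2 * N2 f := by sorry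
theorem N2_sum_le {ι κ : Type} (s : Finset κ) (F : κ → ι →₀ ℝ) :
    N2 (∑ i ∈ s, F i) ≤ s.card * ∑ i ∈ s, N2 (F i) := by sorry
theorem N2_sum_inj {ι κ : Type} (s : Finset κ) (f : κ → ι) (c : κ → ℝ) (hf : Set.InjOn f s) :
    N2 (∑ i ∈ s, Finsupp.single (f i) (c i)) = ∑ i ∈ s, c i ^ 2 := by sorry
open Classical in
theorem N2_sum_fib {ι κ : Type} (s : Finset κ) (f : κ → ι) (c : κ → ℝ) (M : ℕ)
    (hM : ∀ y, (s.filter (fun i => f i = y)).card ≤ M) :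
    N2 (∑ i ∈ s, Finsupp.single (f i) (c i)) ≤ M * ∑ i ∈ s, c i ^ 2 := by sorry
theorem N2_eq_sum {ι : Type} (f : ι →₀ ℝ) (s : Finset ι) (h : f.support ⊆ s) :
    N2 f = ∑ x ∈ s, f x ^ 2 := by sorry

/-! ## C1: counting -/

theorem col_count (L : ℕ) (h4 : 4 ∣ L) (i : Fin 4) :
    (((Finset.range L).filter (fun l => col l = i)).card : ℝ) = L / 4 := by sorry
theorem fresh_count (J : ℕ) (S : Finset ℕ) (hS : S ⊆ Finset.range J) :
    ((((SgF (Finset.range J)).filter (fun τ => τ.1 ∉ S)).card : ℕ) : ℝ) = 2 * J - 2 * S.card := by sorry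

/-! ## E1: supports and expansions of `eta` -/

theorem eta_support (J L n : ℕ) : (eta J L n).support ⊆ Gen L n (Finset.range J) := by sorry
/-- `eta (n+1)` as one sum over pairs -/
theorem eta_succ (J L n : ℕ) : eta J L (n+1) =
    ∑ x ∈ (Gen L n (Finset.range J)).sigma (fun e => DtF L (Finset.range J) e),
      Finsupp.single (out L x.1 x.2) (eta J L n x.1 * coef J L x.2) := by sorry

/-! ## E2: norms -/

theorem eta_zero_norm (J L : ℕ) (hJ : 0 < J) (hL : 0 < L) : N2 (eta J L 0) = 1 / L := by sorry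
/-- sum of the squares of the coefficients of a step -/
theorem coef_sq (J L : ℕ) (e : E) (hJ : 0 < J) (hL : 1 < L) (h4 : 4 ∣ L) :
    ∑ d ∈ DtF L (Finset.range J) e, coef J L d ^ 2 ≤ 3 / 4 := by sorry
theorem eta_norm_succ (J L n : ℕ) (hJ : 0 < J) (hL : 1 < L) (h4 : 4 ∣ L) :
    N2 (eta J L (n+1)) ≤ 3 / 4 * N2 (eta J L n) := by sorry
theorem Y_norm (J L n : ℕ) (hJ : 0 < J) (hL : 0 < L) (h4 : 4 ∣ L) :
    N2 (YL J L (eta J L n)) ≤ L / 4 * N2 (eta J L n) := by sorry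

/-! ## R1: the remainders -/

open Classical in
/-- remainder of stage 0 on `(σ,m)` -/
def Rz (J L : ℕ) (σ : Sg) (m : ℕ) : (Gam × Gam) →₀ ℝ :=
  ∑ x ∈ (SgF (Finset.range J) ×ˢ Finset.range L).filter
      (fun x => col x.2 = col m ∧ x.1.1 ∈ ({σ.1} : Finset ℕ) ∧ ¬ (x.1 = bar σ ∧ x.2 = m)),
    Finsupp.single (XX L (a L σ m) x.1 x.2, YY L (b L σ m) x.1 x.2) (-sg x.1 * sJ J)

open Classical in
/-- remainder of a later stage on `(e,d)` -/
def Rs (J L : ℕ) (e : E) (d : Dt) : (Gam × Gam) →₀ ℝ :=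
  ∑ x ∈ (SgF (Finset.range J) ×ˢ Finset.range L).filter
      (fun x => col x.2 = (out L e d).1 ∧ x.1.1 ∈ idx (out L e d).2.1 (out L e d).2.2 ∧
        ¬ (d.kd = true ∧ x.1 = bar d.σ ∧ x.2 = d.m)),
    Finsupp.single (XX L (out L e d).2.1 x.1 x.2, YY L (out L e d).2.2 x.1 x.2) (-sg x.1 * sJ J)

/-- total remainder of stage 0 -/
def R0 (J L : ℕ) : (Gam × Gam) →₀ ℝ :=
  ∑ x ∈ SgF (Finset.range J) ×ˢ Finset.range L, (sJ J * sg x.1 / L) • Rz J L x.1 x.2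

/-- total remainder of stage `n+1` -/
def RS (J L n : ℕ) : (Gam × Gam) →₀ ℝ :=
  ∑ x ∈ (Gen L n (Finset.range J)).sigma (fun e => DtF L (Finset.range J) e),
    (eta J L n x.1 * coef J L x.2) • Rs J L x.1 x.2

/-- T0 -/
theorem T_zero (J L : ℕ) (hJ : 0 < J) (hL : 0 < L) :
    TL J L (eta J L 0) = Finsupp.single (1, 1) 1 + YL J L (eta J L 0) + R0 J L := by sorry
/-- T1 -/
theorem T_succ (J L n : ℕ) (hJ : 2 * n + 2 ≤ J) (hL : 1 < L) :
    TL J L (eta J L (n+1)) =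
      -((1 - (2 * n + 2) / J : ℝ) • YL J L (eta J L n)) + YL J L (eta J L (n+1)) + RS J L n := by
  sorry
/-- R0 bound -/
theorem R0_norm (J L : ℕ) (hJ : 0 < J) (hL : 0 < L) :
    N2 (R0 J L) ≤ ((NG L 1 0 * (2 * L) : ℕ) : ℝ) / J := by sorry
/-- RS bound -/
theorem RS_norm (J L n : ℕ) (hJ : 0 < J) (hL : 0 < L) :
    N2 (RS J L n) ≤ ((NG L (2 * n + 3) (n+1) * (2 * (2 * n + 3) * L) : ℕ) : ℝ) *
      ((2 * n + 3) * L / J) * N2 (eta J L (n+1)) := by sorry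

/-! ## B: `b` -/

theorem B_zero (D : Fin 4 → Gam → Gam → ℤ) (hD : IsFox D) (J L : ℕ) (hL : 0 < L) (v : Gam) :
    BL D v (eta J L 0) = PP J L v := by sorry
theorem B_succ (D : Fin 4 → Gam → Gam → ℤ) (hD : IsFox D) (J L n : ℕ) (hL : 1 < L) (v : Gam) :
    BL D v (eta J L (n+1)) = 0 := by sorry

/-! ## F: the core in `Gam` -/

theorem core (D : Fin 4 → Gam → Gam → ℤ) (hD : IsFox D) (ε : ℝ) (hε : 0 < ε) :
    ∃ (J L : ℕ) (η : E →₀ ℝ), 0 < J ∧ 1 < L ∧ N2 η < ε ∧ (∀ v, BL D v η = PP J L v) ∧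
      N2 (TL J L η - Finsupp.single (1, 1) 1) < ε := by sorry

end

end H684FC
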