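import Pool.Agent.H684R3.FC.Stubs

/-! Task T0: `T` on `eta 0`. -/

namespace H684FC.P

noncomputable section

open Classical

theorem T0_idx (L : ℕ) (σ : Sg) (m : ℕ) (hm : m < L) : idx (a L σ m) (b L σ m) = {σ.1} := by
  have hnd := lg_nodup L σ
  rw [← la_append_lb L σ m hm, List.map_append] at hnd
  have h1 : ((la L σ m).map Prod.fst).Nodup := (List.nodup_append.1 hnd).1
  have h2 : ((lb L σ m).map Prod.fst).Nodup := (List.nodup_append.1 hnd).2.1
  have e1 : wl (a L σ m) = la L σ m := wl_eq _ _ (pi_a L σ m hm) (isReduced_of_nodup _ h1)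
  have e2 : wl (b L σ m) = lb L σ m := wl_eq _ _ (pi_b L σ m hm) (isReduced_of_nodup _ h2)
  unfold idx
  rw [e1, e2]
  ext j
  simp only [Finset.mem_union, Finset.mem_singleton, ix, List.mem_toFinset, List.mem_map]
  constructor
  · rintro (⟨x, hx, rfl⟩ | ⟨x, hx, rfl⟩)
    · exact lg_index L σ x (by rw [← la_append_lb L σ m hm]; exact List.mem_append_left _ hx)
    · exact lg_index L σ x (by rw [← la_append_lb L σ m hm]; exact List.mem_append_right _ hx)
  · rintro rfl
    have h3 := la_head L σ m hm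
    exact Or.inl ⟨st L σ, List.mem_of_head? h3, rfl⟩

theorem T0_main (J L : ℕ) (σ : Sg) (m : ℕ) (hσ : σ.1 < J) (hm : m < L) :
    T1 J L (e0 L σ m) = Finsupp.single (1, 1) (sg σ * sJ J) + Y1 J L (e0 L σ m) + Rz J L σ m := by
  set F : Sg × ℕ → ((Gam × Gam) →₀ ℝ) := fun x =>
    Finsupp.single (XX L (a L σ m) x.1 x.2, YY L (b L σ m) x.1 x.2) (-sg x.1 * sJ J) with hF
  have hT : T1 J L (e0 L σ m) = ∑ x ∈ SgF (Finset.range J) ×ˢ Finset.range L,
      if col x.2 = col m then F x else 0 := by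
    rw [Finset.sum_product]
    unfold T1
    apply Finset.sum_congr rfl
    intro τ _
    rw [Finset.sum_filter]
    rfl
  have hY : Y1 J L (e0 L σ m) = ∑ x ∈ SgF (Finset.range J) ×ˢ Finset.range L,
      if x.1.1 ≠ σ.1 then (if col x.2 = col m then F x else 0) else 0 := by
    rw [Finset.sum_product]
    unfold Y1
    rw [Finset.sum_filter]
    apply Finset.sum_congr rfl
    intro τ _
    have h1 : τ.1 ∉ idx (e0 L σ m).2.1 (e0 L σ m).2.2 ↔ τ.1 ≠ σ.1 := by
      show τ.1 ∉ idx (a L σ m) (b L σ m) ↔ _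
      rw [T0_idx L σ m hm, Finset.mem_singleton]
    by_cases h : τ.1 = σ.1
    · rw [if_neg (fun h' => h1.1 h' h)]
      simp [h]
    · rw [if_pos (h1.2 h), Finset.sum_filter]
      simp only [ne_eq, h, not_false_eq_true, if_true]
      rfl
  have hR : Rz J L σ m = ∑ x ∈ SgF (Finset.range J) ×ˢ Finset.range L,
      if (col x.2 = col m ∧ x.1.1 ∈ ({σ.1} : Finset ℕ) ∧ ¬ (x.1 = bar σ ∧ x.2 = m)) then F x
      else 0 := by
    unfold Rz
    rw [Finset.sum_filter]
  have h11 : Finsupp.single ((1 : Gam), (1 : Gam)) (sg σ * sJ J) =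
      ∑ x ∈ SgF (Finset.range J) ×ˢ Finset.range L,
        if x = (bar σ, m) then F x else 0 := by
    have hmem : ((bar σ, m) : Sg × ℕ) ∈ SgF (Finset.range J) ×ˢ Finset.range L := by
      simp [SgF, bar, hσ, hm]
    rw [Finset.sum_ite_eq' _ (bar σ, m) F, if_pos hmem]
    have e1 : XX L (a L σ m) (bar σ) m = 1 := by
      unfold XX
      rw [b_bar, mul_inv_cancel]
    have e2 : YY L (b L σ m) (bar σ) m = 1 := by
      unfold YY
      rw [a_bar, inv_mul_cancel]
    have e3 : -sg (bar σ) = sg σ := by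
      unfold sg bar
      cases σ.2 <;> simp
    show _ = Finsupp.single (XX L (a L σ m) (bar σ) m, YY L (b L σ m) (bar σ) m)
      (-sg (bar σ) * sJ J)
    rw [e1, e2, e3]
  rw [hT, hY, hR, h11, ← Finset.sum_add_distrib, ← Finset.sum_add_distrib]
  apply Finset.sum_congr rfl
  intro x _
  by_cases hc : col x.2 = col m
  · by_cases hi : x.1.1 = σ.1
    · by_cases hb : x = (bar σ, m)
      · have h1 : x.1 = bar σ ∧ x.2 = m := by rw [hb]; exact ⟨rfl, rfl⟩
        rw [if_pos hc, if_pos hb, if_neg (not_not.2 hi), if_neg (fun h => h.2.2 h1)]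
        simp
      · have h1 : ¬ (x.1 = bar σ ∧ x.2 = m) := fun h => hb (Prod.ext h.1 h.2)
        rw [if_pos hc, if_neg hb, if_neg (not_not.2 hi),
          if_pos ⟨hc, by rw [hi]; exact Finset.mem_singleton_self _, h1⟩]
        simp
    · have hb : x ≠ (bar σ, m) := by
        rintro rfl
        exact hi rfl
      rw [if_pos hc, if_neg hb, if_pos hi,
        if_neg (fun h => hi (Finset.mem_singleton.1 h.2.1))]
      simp
  · have hb : x ≠ (bar σ, m) := by
      rintro rfl
      exact hc rfl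
    have hr : ¬ (col x.2 = col m ∧ x.1.1 ∈ ({σ.1} : Finset ℕ) ∧ ¬ (x.1 = bar σ ∧ x.2 = m)) :=
      fun h => hc h.1
    rw [if_neg hr, if_neg hc, if_neg hb]
    simp

/-- T0 -/
theorem T_zero (J L : ℕ) (hJ : 0 < J) (hL : 0 < L) :
    TL J L (eta J L 0) = Finsupp.single (1, 1) 1 + YL J L (eta J L 0) + R0 J L := by
  have hJ' : (0 : ℝ) < J := by exact_mod_cast hJ
  have hL' : (0 : ℝ) < L := by exact_mod_cast hL
  have e0' : eta J L 0 = ∑ x ∈ SgF (Finset.range J) ×ˢ Finset.range L,
      Finsupp.single (e0 L x.1 x.2) (sJ J * sg x.1 / L) := rfl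
  have hTL : TL J L (eta J L 0) = ∑ x ∈ SgF (Finset.range J) ×ˢ Finset.range L,
      (sJ J * sg x.1 / L) • T1 J L (e0 L x.1 x.2) := by
    rw [e0', map_sum]
    apply Finset.sum_congr rfl
    intro x _
    unfold TL
    rw [Finsupp.linearCombination_single]
  have hYL : YL J L (eta J L 0) = ∑ x ∈ SgF (Finset.range J) ×ˢ Finset.range L,
      (sJ J * sg x.1 / L) • Y1 J L (e0 L x.1 x.2) := by
    rw [e0', map_sum]
    apply Finset.sum_congr rfl
    intro x _
    unfold YL
    rw [Finsupp.linearCombination_single]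
  have hsq : sJ J * sJ J = 1 / (2 * J) := by
    unfold sJ
    rw [div_mul_div_comm, one_mul, Real.mul_self_sqrt (by positivity)]
  have hsg : ∀ σ : Sg, sg σ * sg σ = 1 := by
    intro σ
    unfold sg
    split_ifs <;> norm_num
  have h1 : Finsupp.single ((1 : Gam), (1 : Gam)) (1 : ℝ) =
      ∑ x ∈ SgF (Finset.range J) ×ˢ Finset.range L,
      (sJ J * sg x.1 / L) • Finsupp.single ((1 : Gam), (1 : Gam)) (sg x.1 * sJ J) := by
    have h2 : ∀ x ∈ SgF (Finset.range J) ×ˢ Finset.range L,
        (sJ J * sg x.1 / L) • Finsupp.single ((1 : Gam), (1 : Gam)) (sg x.1 * sJ J)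
          = Finsupp.single ((1 : Gam), (1 : Gam)) (1 / (2 * J) / L : ℝ) := by
      intro x _
      rw [Finsupp.smul_single, smul_eq_mul]
      congr 1
      rw [← hsq]
      have h9 : sJ J * sg x.1 / (L : ℝ) * (sg x.1 * sJ J)
          = sJ J * sJ J * (sg x.1 * sg x.1) / L := by ring
      rw [h9, hsg x.1, mul_one]
    rw [Finset.sum_congr rfl h2, ← Finsupp.single_finsetSum, Finset.sum_const]
    congr 1
    have h3 : (SgF (Finset.range J) ×ˢ Finset.range L).card = 2 * J * L := by
      rw [Finset.card_product, Finset.card_range]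
      unfold SgF
      rw [Finset.card_product, Finset.card_range,
        show (Finset.univ : Finset Bool).card = 2 from rfl]
      ring
    rw [h3, nsmul_eq_mul]
    push_cast
    field_simp
  rw [hTL, hYL, h1]
  unfold R0
  rw [← Finset.sum_add_distrib, ← Finset.sum_add_distrib]
  apply Finset.sum_congr rfl
  intro x hx
  rw [Finset.mem_product] at hx
  have hx1 : x.1.1 < J := by
    have := hx.1
    unfold SgF at this
    rw [Finset.mem_product] at this
    exact Finset.mem_range.1 this.1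
  rw [T0_main J L x.1 x.2 hx1 (Finset.mem_range.1 hx.2), smul_add, smul_add]

end

end H684FC.P
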