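import Pool.Agent.H684R3.FC.Stubs

set_option autoImplicit false

namespace H684FC.P

noncomputable section

open Finset

/-- the coherent term -/
def T1_Coh (J L : ℕ) (e : E) (d : Dt) : (Gam × Gam) →₀ ℝ :=
  if d.kd then Finsupp.single (XX L e.2.1 d.τ d.l, YY L e.2.2 d.τ d.l) (sg d.σ * sJ J) else 0

theorem T1_T (J L : ℕ) (e : E) : T1 J L e =
    ∑ x ∈ SgF (Finset.range J) ×ˢ Finset.range L, if col x.2 = e.1 then
      Finsupp.single (XX L e.2.1 x.1 x.2, YY L e.2.2 x.1 x.2) (-sg x.1 * sJ J) else 0 := by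
  rw [Finset.sum_product]
  unfold T1
  apply Finset.sum_congr rfl
  intro τ _
  rw [Finset.sum_filter]

theorem T1_Y (J L : ℕ) (e : E) : Y1 J L e =
    ∑ x ∈ SgF (Finset.range J) ×ˢ Finset.range L,
      if col x.2 = e.1 ∧ x.1.1 ∉ idx e.2.1 e.2.2 then
      Finsupp.single (XX L e.2.1 x.1 x.2, YY L e.2.2 x.1 x.2) (-sg x.1 * sJ J) else 0 := by
  rw [Finset.sum_product]
  unfold Y1
  rw [Finset.sum_filter]
  apply Finset.sum_congr rfl
  intro τ _
  rw [Finset.sum_filter]
  by_cases h : τ.1 ∉ idx e.2.1 e.2.2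
  · rw [if_pos h]
    apply Finset.sum_congr rfl
    intro l _
    by_cases h' : col l = e.1
    · rw [if_pos h', if_pos ⟨h', h⟩]
    · rw [if_neg h', if_neg (fun hc => h' hc.1)]
  · rw [if_neg h]
    symm
    apply Finset.sum_eq_zero
    intro l _
    rw [if_neg (fun hc => h hc.2)]

theorem T1_out1 (L : ℕ) (e : E) (d : Dt) : (out L e d).1 = col d.m := by
  unfold out
  split_ifs <;> rfl

theorem T1_sg_bar (σ : Sg) : -sg (bar σ) = sg σ := by
  unfold sg bar
  cases σ.2 <;> simp

theorem T1_sg_sq (σ : Sg) : sg σ * sg σ = 1 := by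
  unfold sg
  cases σ.2 <;> simp

theorem T1_split (J L : ℕ) (e : E) (d : Dt) (he : Gd e.2.1 e.2.2) (hd : Val L e d)
    (hσ : d.σ.1 < J) :
    T1 J L (out L e d) = Y1 J L (out L e d) + T1_Coh J L e d + Rs J L e d := by
  classical
  obtain ⟨f, hf⟩ : ∃ f : Sg × ℕ → ((Gam × Gam) →₀ ℝ), f = fun x =>
    Finsupp.single (XX L (out L e d).2.1 x.1 x.2, YY L (out L e d).2.2 x.1 x.2)
      (-sg x.1 * sJ J) := ⟨_, rfl⟩
  have hm : d.m < L := hd.2.2.2.2.1
  have hcoh : T1_Coh J L e d = ∑ x ∈ SgF (Finset.range J) ×ˢ Finset.range L,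
      if d.kd = true ∧ x.1 = bar d.σ ∧ x.2 = d.m then f x else 0 := by
    unfold T1_Coh
    by_cases hk : d.kd = true
    · rw [if_pos hk]
      have hmem : (bar d.σ, d.m) ∈ SgF (Finset.range J) ×ˢ Finset.range L := by
        rw [Finset.mem_product]
        unfold SgF
        rw [Finset.mem_product]
        exact ⟨⟨Finset.mem_range.mpr hσ, Finset.mem_univ _⟩, Finset.mem_range.mpr hm⟩
      rw [Finset.sum_eq_single_of_mem _ hmem]
      · rw [if_pos ⟨hk, rfl, rfl⟩, hf]
        beta_reduce
        have e1 : (out L e d).2.1 = e.2.1 * b L d.τ d.l * a L d.σ d.m := by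
          unfold out; rw [if_pos hk]
        have e2 : (out L e d).2.2 = b L d.σ d.m * (a L d.τ d.l * e.2.2) := by
          unfold out; rw [if_pos hk]
        have e3 : XX L (out L e d).2.1 (bar d.σ) d.m = XX L e.2.1 d.τ d.l := by
          unfold XX
          rw [e1, b_bar]
          group
        have e4 : YY L (out L e d).2.2 (bar d.σ) d.m = YY L e.2.2 d.τ d.l := by
          unfold YY
          rw [e2, a_bar]
          group
        rw [e3, e4, T1_sg_bar]
      · intro x _ hx
        rw [if_neg]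
        rintro ⟨_, h1, h2⟩
        exact hx (Prod.ext h1 h2)
    · rw [if_neg hk]
      symm
      apply Finset.sum_eq_zero
      intro x _
      rw [if_neg (fun hc => hk hc.1)]
  have hRs : Rs J L e d = ∑ x ∈ SgF (Finset.range J) ×ˢ Finset.range L,
      if col x.2 = (out L e d).1 ∧ x.1.1 ∈ idx (out L e d).2.1 (out L e d).2.2 ∧
        ¬ (d.kd = true ∧ x.1 = bar d.σ ∧ x.2 = d.m) then f x else 0 := by
    unfold Rs
    rw [Finset.sum_filter, hf]
  rw [T1_T, T1_Y, hcoh, hRs, ← Finset.sum_add_distrib, ← Finset.sum_add_distrib]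
  apply Finset.sum_congr rfl
  intro x _
  have hfx : Finsupp.single (XX L (out L e d).2.1 x.1 x.2, YY L (out L e d).2.2 x.1 x.2)
      (-sg x.1 * sJ J) = f x := by rw [hf]
  rw [hfx]
  by_cases hC : d.kd = true ∧ x.1 = bar d.σ ∧ x.2 = d.m
  · have h1 : col x.2 = (out L e d).1 := by rw [hC.2.2, T1_out1]
    have h2 : x.1.1 ∈ idx (out L e d).2.1 (out L e d).2.2 := by
      rw [idx_out L e d he hd, hC.2.1]
      unfold bar
      exact Finset.mem_insert_of_mem (Finset.mem_insert_self _ _)
    rw [if_pos h1, if_neg (fun hc => hc.2 h2), if_pos hC, if_neg (fun hc => hc.2.2 hC)]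
    simp
  · rw [if_neg hC]
    by_cases h1 : col x.2 = (out L e d).1
    · by_cases h2 : x.1.1 ∈ idx (out L e d).2.1 (out L e d).2.2
      · rw [if_pos h1, if_neg (fun hc => hc.2 h2), if_pos ⟨h1, h2, hC⟩]
        simp
      · rw [if_pos h1, if_pos ⟨h1, h2⟩, if_neg (fun hc => h2 hc.2.1)]
        simp
    · rw [if_neg h1, if_neg (fun hc => h1 hc.1), if_neg (fun hc => h1 hc.1)]
      simp

theorem T1_sumF {M : Type} [AddCommMonoid M] (L : ℕ) (V : Finset ℕ) (e : E) (F : Dt → M)
    [DecidablePred (Val L e)] :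
    ∑ d ∈ DtF L V e, F d = ∑ τ ∈ SgF V, ∑ l ∈ Finset.range L, ∑ σ ∈ SgF V, ∑ k : Bool,
      ∑ m ∈ Finset.range L, if Val L e ⟨τ, l, σ, k, m⟩ then F ⟨τ, l, σ, k, m⟩ else 0 := by
  unfold DtF DtA
  have h1 : ∀ (S : Finset Dt), ∑ d ∈ S.filter (fun d => Val L e d), F d =
      ∑ d ∈ S, if Val L e d then F d else 0 := by
    intro S
    rw [Finset.sum_filter]
  have h2 := h1 ((SgF V ×ˢ Finset.range L ×ˢ SgF V ×ˢ (Finset.univ : Finset Bool) ×ˢ
    Finset.range L).map dtEmb)
  refine Eq.trans ?_ (h2.trans ?_)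
  · congr!
  · rw [Finset.sum_map, Finset.sum_product]
    apply Finset.sum_congr rfl
    intro τ _
    rw [Finset.sum_product]
    apply Finset.sum_congr rfl
    intro l _
    rw [Finset.sum_product]
    apply Finset.sum_congr rfl
    intro σ _
    rw [Finset.sum_product]
    rfl

/-- T1 -/
theorem T_succ (J L n : ℕ) (hJ : 2 * n + 2 ≤ J) (hL : 1 < L) :
    TL J L (eta J L (n+1)) =
      -((1 - (2 * n + 2) / J : ℝ) • YL J L (eta J L n)) + YL J L (eta J L (n+1)) + RS J L n := by
  classical
  have hJ0 : (J : ℝ) ≠ 0 := by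
    have : 0 < J := by omega
    exact_mod_cast this.ne'
  have hL0 : (L : ℝ) ≠ 0 := by
    have : 0 < L := by omega
    exact_mod_cast this.ne'
  -- one basis element
  have key : ∀ e ∈ Gen L n (Finset.range J),
      ∑ d ∈ DtF L (Finset.range J) e, coef J L d • T1_Coh J L e d =
        (-(1 - (2 * n + 2) / J : ℝ)) • Y1 J L e := by
    intro e he
    obtain ⟨hG, hV, hcard, -, -⟩ := Gen_prop L n (Finset.range J) e he
    rw [T1_sumF, T1_Y, Finset.sum_product, Finset.smul_sum]
    apply Finset.sum_congr rfl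
    intro τ hτ
    rw [Finset.smul_sum]
    apply Finset.sum_congr rfl
    intro l hl
    have hτJ : τ.1 < J := by
      unfold SgF at hτ
      rw [Finset.mem_product] at hτ
      exact Finset.mem_range.mp hτ.1
    have hl' : l < L := Finset.mem_range.mp hl
    by_cases hc : col l = e.1 ∧ τ.1 ∉ idx e.2.1 e.2.2
    · rw [if_pos hc]
      obtain ⟨hc1, hc2⟩ := hc
      obtain ⟨s, hs⟩ : ∃ s : (Gam × Gam) →₀ ℝ, s =
        Finsupp.single (XX L e.2.1 τ l, YY L e.2.2 τ l) (-sg τ * sJ J) := ⟨_, rfl⟩
      have hterm : ∀ σ ∈ SgF (Finset.range J), ∑ k : Bool, ∑ m ∈ Finset.range L,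
          (if Val L e ⟨τ, l, σ, k, m⟩ then
            coef J L ⟨τ, l, σ, k, m⟩ • T1_Coh J L e ⟨τ, l, σ, k, m⟩ else 0) =
          if σ.1 ∉ insert τ.1 (idx e.2.1 e.2.2) then (-(1 / (2 * J) : ℝ)) • s else 0 := by
        intro σ _
        rw [Fintype.sum_bool]
        have hfalse : ∑ m ∈ Finset.range L, (if Val L e ⟨τ, l, σ, false, m⟩ then
            coef J L ⟨τ, l, σ, false, m⟩ • T1_Coh J L e ⟨τ, l, σ, false, m⟩ else 0) = 0 := by
          apply Finset.sum_eq_zero
          intro m _
          have : T1_Coh J L e ⟨τ, l, σ, false, m⟩ = 0 := by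
            unfold T1_Coh; simp
          rw [this, smul_zero]
          simp
        rw [hfalse, add_zero]
        by_cases h : σ.1 ∉ insert τ.1 (idx e.2.1 e.2.2)
        · rw [if_pos h]
          rw [Finset.mem_insert, not_or] at h
          have hone : ∀ m ∈ Finset.range L, (if Val L e ⟨τ, l, σ, true, m⟩ then
            coef J L ⟨τ, l, σ, true, m⟩ • T1_Coh J L e ⟨τ, l, σ, true, m⟩ else 0) =
              (-(1 / (2 * J * L) : ℝ)) • s := by
            intro m hm
            have hval : Val L e ⟨τ, l, σ, true, m⟩ :=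
              ⟨hc2, h.2, h.1, hl', Finset.mem_range.mp hm, hc1, by simp⟩
            rw [if_pos hval]
            unfold T1_Coh coef
            simp only [if_true]
            rw [Finsupp.smul_single, hs, Finsupp.smul_single]
            congr 1
            rw [smul_eq_mul, smul_eq_mul]
            have hsq := T1_sg_sq σ
            have e1 : (-sg τ) / (2 * J) * (-sg σ / L) * (sg σ * sJ J) =
                (sg σ * sg σ) * (sg τ * sJ J * (1 / (2 * J * L))) := by
              field_simp
            rw [e1, hsq]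
            ring
          rw [Finset.sum_congr rfl hone, Finset.sum_const, Finset.card_range,
            ← Nat.cast_smul_eq_nsmul ℝ, smul_smul]
          congr 1
          field_simp
        · rw [if_neg h]
          apply Finset.sum_eq_zero
          intro m _
          rw [if_neg]
          intro hval
          apply h
          rw [Finset.mem_insert, not_or]
          exact ⟨hval.2.2.1, hval.2.1⟩
      rw [Finset.sum_congr rfl hterm, ← Finset.sum_filter, Finset.sum_const,
        ← Nat.cast_smul_eq_nsmul ℝ, fresh_count J _ (by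
          rw [Finset.insert_subset_iff]
          exact ⟨Finset.mem_range.mpr hτJ, hV⟩), Finset.card_insert_of_notMem hc2, hcard,
        smul_smul, hs]
      congr 1
      push_cast
      field_simp
      ring
    · rw [if_neg hc, smul_zero]
      apply Finset.sum_eq_zero
      intro σ _
      apply Finset.sum_eq_zero
      intro k _
      apply Finset.sum_eq_zero
      intro m _
      rw [if_neg]
      intro hval
      exact hc ⟨hval.2.2.2.2.2.1, hval.1⟩
  -- the expansion of YL (eta n)
  have hYn : YL J L (eta J L n) = ∑ e ∈ Gen L n (Finset.range J), eta J L n e • Y1 J L e := by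
    unfold YL
    rw [Finsupp.linearCombination_apply, Finsupp.sum]
    apply Finset.sum_subset (eta_support J L n)
    intro e _ he
    rw [Finsupp.notMem_support_iff.mp he, zero_smul]
  have hTs : TL J L (eta J L (n+1)) =
      ∑ x ∈ (Gen L n (Finset.range J)).sigma (fun e => DtF L (Finset.range J) e),
        (eta J L n x.1 * coef J L x.2) • T1 J L (out L x.1 x.2) := by
    rw [eta_succ]
    unfold TL
    rw [map_sum]
    apply Finset.sum_congr rfl
    intro x _
    rw [Finsupp.linearCombination_single]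
  have hYs : YL J L (eta J L (n+1)) =
      ∑ x ∈ (Gen L n (Finset.range J)).sigma (fun e => DtF L (Finset.range J) e),
        (eta J L n x.1 * coef J L x.2) • Y1 J L (out L x.1 x.2) := by
    rw [eta_succ]
    unfold YL
    rw [map_sum]
    apply Finset.sum_congr rfl
    intro x _
    rw [Finsupp.linearCombination_single]
  have hcoh : -((1 - (2 * n + 2) / J : ℝ) • YL J L (eta J L n)) =
      ∑ x ∈ (Gen L n (Finset.range J)).sigma (fun e => DtF L (Finset.range J) e),
        (eta J L n x.1 * coef J L x.2) • T1_Coh J L x.1 x.2 := by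
    rw [hYn, Finset.sum_sigma, ← neg_smul, Finset.smul_sum]
    apply Finset.sum_congr rfl
    intro e he
    rw [smul_comm, ← key e he, Finset.smul_sum]
    apply Finset.sum_congr rfl
    intro d _
    rw [smul_smul]
  rw [hTs, hYs, hcoh]
  unfold RS
  rw [← Finset.sum_add_distrib, ← Finset.sum_add_distrib]
  apply Finset.sum_congr rfl
  intro x hx
  rw [Finset.mem_sigma] at hx
  obtain ⟨hx1, hx2⟩ := hx
  obtain ⟨hG, -, -, -, -⟩ := Gen_prop L n (Finset.range J) x.1 hx1
  unfold DtF at hx2
  rw [Finset.mem_filter] at hx2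
  obtain ⟨hx3, hx4⟩ := hx2
  have hσ : x.2.σ.1 < J := by
    unfold DtA at hx3
    rw [Finset.mem_map] at hx3
    obtain ⟨y, hy, hyx⟩ := hx3
    rw [← hyx]
    simp only [Finset.mem_product, SgF, Finset.mem_range] at hy
    exact hy.2.2.1.1
  rw [T1_split J L x.1 x.2 hG hx4 hσ, smul_add, smul_add]
  abel

end

end H684FC.P
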