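import Pool.Agent.H684R3.FC.Stubs

/-! V1: everything is visible in the remainder. -/

namespace H684FC.P

noncomputable section
open Classical

theorem V1_ix_append (α β : List ((ℕ × ℕ) × Bool)) : ix (α ++ β) = ix α ∪ ix β := by
  unfold ix
  rw [List.map_append, List.toFinset_append]

theorem V1_mem_ix {α : List ((ℕ × ℕ) × Bool)} {x : (ℕ × ℕ) × Bool} (h : x ∈ α) : x.1.1 ∈ ix α := by
  unfold ix
  rw [List.mem_toFinset, List.mem_map]
  exact ⟨x, h, rfl⟩

theorem V1_la_red (L : ℕ) (σ : Sg) (l : ℕ) (h : l < L) : FreeGroup.IsReduced (la L σ l) := by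
  apply isReduced_of_nodup
  have h1 := lg_nodup L σ
  rw [← la_append_lb L σ l h, List.map_append] at h1
  exact h1.of_append_left

theorem V1_lb_red (L : ℕ) (σ : Sg) (l : ℕ) (h : l < L) : FreeGroup.IsReduced (lb L σ l) := by
  apply isReduced_of_nodup
  have h1 := lg_nodup L σ
  rw [← la_append_lb L σ l h, List.map_append] at h1
  exact h1.of_append_right

theorem V1_wl_a (L : ℕ) (σ : Sg) (l : ℕ) (h : l < L) : wl (a L σ l) = la L σ l :=
  wl_eq _ _ (pi_a L σ l h) (V1_la_red L σ l h)

theorem V1_wl_b (L : ℕ) (σ : Sg) (l : ℕ) (h : l < L) : wl (b L σ l) = lb L σ l :=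
  wl_eq _ _ (pi_b L σ l h) (V1_lb_red L σ l h)

theorem V1_ix_a (L : ℕ) (σ : Sg) (l : ℕ) (h : l < L) : ix (wl (a L σ l)) ⊆ {σ.1} := by
  intro x hx
  rw [V1_wl_a L σ l h] at hx
  unfold ix at hx
  rw [List.mem_toFinset, List.mem_map] at hx
  obtain ⟨y, hy, rfl⟩ := hx
  rw [Finset.mem_singleton]
  apply lg_index L σ
  rw [← la_append_lb L σ l h]
  exact List.mem_append_left _ hy

theorem V1_ix_b (L : ℕ) (σ : Sg) (l : ℕ) (h : l < L) : ix (wl (b L σ l)) ⊆ {σ.1} := by
  intro x hx
  rw [V1_wl_b L σ l h] at hx
  unfold ix at hx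
  rw [List.mem_toFinset, List.mem_map] at hx
  obtain ⟨y, hy, rfl⟩ := hx
  rw [Finset.mem_singleton]
  apply lg_index L σ
  rw [← la_append_lb L σ l h]
  exact List.mem_append_right _ hy

/-- the letter after the block end: no cancellation on the right -/
theorem V1_red_right (L : ℕ) (α : List ((ℕ × ℕ) × Bool)) (hα : FreeGroup.IsReduced α) (κ : Sg)
    (m : ℕ) (hl : α.getLast? = some (le κ m)) (ρ : Sg) (p : ℕ) (hp : p < L)
    (hn : ¬ (ρ = bar κ ∧ p = m)) : FreeGroup.IsReduced (α ++ lb L ρ p) := by
  unfold FreeGroup.IsReduced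
  rw [List.isChain_append]
  refine ⟨hα, V1_lb_red L ρ p hp, ?_⟩
  rw [hl, lb_head L ρ p hp]
  intro x hx y hy
  rw [Option.mem_def, Option.some.injEq] at hx hy
  subst hx hy
  obtain ⟨κ1, κ2⟩ := κ
  obtain ⟨ρ1, ρ2⟩ := ρ
  unfold le fe
  intro h
  rw [Prod.mk.injEq] at h
  obtain ⟨h1, h2⟩ := h
  cases κ2 <;> cases ρ2 <;> simp_all [bar]

/-- no cancellation on the left -/
theorem V1_red_left (L : ℕ) (β : List ((ℕ × ℕ) × Bool)) (hβ : FreeGroup.IsReduced β) (κ : Sg)
    (m : ℕ) (hl : β.head? = some (fe κ m)) (ρ : Sg) (p : ℕ) (hp : p < L)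
    (hn : ¬ (ρ = bar κ ∧ p = m)) : FreeGroup.IsReduced (la L ρ p ++ β) := by
  unfold FreeGroup.IsReduced
  rw [List.isChain_append]
  refine ⟨V1_la_red L ρ p hp, hβ, ?_⟩
  rw [hl, la_last L ρ p hp]
  intro x hx y hy
  rw [Option.mem_def, Option.some.injEq] at hx hy
  subst hx hy
  obtain ⟨κ1, κ2⟩ := κ
  obtain ⟨ρ1, ρ2⟩ := ρ
  unfold le fe
  intro h
  rw [Prod.mk.injEq] at h
  obtain ⟨h1, h2⟩ := h
  cases κ2 <;> cases ρ2 <;> simp_all [bar]

/-- generic visibility -/
theorem V1_generic (L : ℕ) (A B : Gam) (κ : Sg) (m : ℕ) (hA : (wl A).getLast? = some (le κ m))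
    (hB : (wl B).head? = some (fe κ m)) (ρ : Sg) (p : ℕ) (hp : p < L)
    (hn : ¬ (ρ = bar κ ∧ p = m)) : idx A B ⊆ idx (XX L A ρ p) (YY L B ρ p) := by
  have h1 : wl (XX L A ρ p) = wl A ++ lb L ρ p := by
    apply wl_eq
    · unfold XX
      rw [map_mul, pi_b L ρ p hp, pi_eq_wl A, FreeGroup.mul_mk]
    · exact V1_red_right L _ FreeGroup.isReduced_toWord κ m hA ρ p hp hn
  have h2 : wl (YY L B ρ p) = la L ρ p ++ wl B := by
    apply wl_eq
    · unfold YY
      rw [map_mul, pi_a L ρ p hp, pi_eq_wl B, FreeGroup.mul_mk]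
    · exact V1_red_left L _ FreeGroup.isReduced_toWord κ m hB ρ p hp hn
  unfold idx
  rw [h1, h2, V1_ix_append, V1_ix_append]
  intro x hx
  simp only [Finset.mem_union] at hx ⊢
  tauto

theorem vis (L : ℕ) (e : E) (d : Dt) (he : Gd e.2.1 e.2.2) (hd : Val L e d) (ρ : Sg) (p : ℕ)
    (hp : p < L) (hnc : ¬ (d.kd = true ∧ ρ = bar d.σ ∧ p = d.m)) :
    idx (out L e d).2.1 (out L e d).2.2 ⊆
      idx (XX L (out L e d).2.1 ρ p) (YY L (out L e d).2.2 ρ p) := by
  have hw1 := wl_out1 L e d he hd
  have hw2 := wl_out2 L e d he hd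
  have hnd := out_nodup L e d he hd
  have hix := idx_out L e d he hd
  obtain ⟨hτi, hσi, hστ, hl, hm, hcol, hkd⟩ := hd
  rcases hk : d.kd with _ | _
  · -- kd = false
    have hml := hkd hk
    by_cases hbef : bef d.τ d.l d.m
    · have hoa : oa L (wl e.2.1) d = wl e.2.1 ++ mid d.τ d.l d.m := by
        unfold oa; simp [hk, hbef]
      have hob : ob L (wl e.2.2) d = lb L d.τ d.m ++ (lg L d.σ ++ (la L d.τ d.l ++ wl e.2.2)) := by
        unfold ob; simp [hk, hbef]
      by_cases hco : ρ = bar d.τ ∧ p = d.m
      · -- the rotated block comes back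
        obtain ⟨rfl, rfl⟩ := hco
        have hX : XX L (out L e d).2.1 (bar d.τ) d.m * a L d.τ d.l = e.2.1 := by
          unfold XX out
          simp only [hk, hbef, if_true, Bool.false_eq_true, if_false]
          rw [b_bar]
          group
        have hY : YY L (out L e d).2.2 (bar d.τ) d.m = g L d.σ * a L d.τ d.l * e.2.2 := by
          unfold YY out
          simp only [hk, hbef, if_true, Bool.false_eq_true, if_false]
          rw [a_bar]
          group
        have hwY : wl (YY L (out L e d).2.2 (bar d.τ) d.m)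
            = lg L d.σ ++ la L d.τ d.l ++ wl e.2.2 := by
          apply wl_eq
          · rw [hY, map_mul, map_mul, pi_g, pi_a L _ _ hl, pi_eq_wl e.2.2, FreeGroup.mul_mk,
              FreeGroup.mul_mk]
          · apply isReduced_of_nodup
            rw [hob, List.map_append, List.map_append] at hnd
            have h3 := hnd.of_append_right.of_append_right
            rw [List.append_assoc]
            exact h3
        have hτY : d.τ.1 ∈ ix (wl (YY L (out L e d).2.2 (bar d.τ) d.m)) := by
          rw [hwY]
          have h3 : st L d.τ ∈ la L d.τ d.l := List.mem_of_mem_head? (la_head L d.τ d.l hl)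
          exact V1_mem_ix (x := st L d.τ)
            (List.mem_append_left _ (List.mem_append_right _ h3))
        have hσY : d.σ.1 ∈ ix (wl (YY L (out L e d).2.2 (bar d.τ) d.m)) := by
          rw [hwY]
          have h3 : st L d.σ ∈ lg L d.σ := List.mem_of_mem_head? (lg_head L d.σ)
          exact V1_mem_ix (x := st L d.σ)
            (List.mem_append_left _ (List.mem_append_left _ h3))
        rw [hix]
        intro x hx
        rw [Finset.mem_insert, Finset.mem_insert] at hx
        unfold idx at hx ⊢
        rw [Finset.mem_union] at hx ⊢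
        rcases hx with rfl | rfl | hx | hx
        · exact Or.inr hτY
        · exact Or.inr hσY
        · have h3 := ix_mul (XX L (out L e d).2.1 (bar d.τ) d.m) (a L d.τ d.l)
          rw [hX] at h3
          have h4 := h3 hx
          rw [Finset.mem_union] at h4
          rcases h4 with h4 | h4
          · exact Or.inl h4
          · have h5 := V1_ix_a L d.τ d.l hl h4
            rw [Finset.mem_singleton] at h5
            rw [h5]
            exact Or.inr hτY
        · refine Or.inr ?_
          rw [hwY, V1_ix_append, Finset.mem_union]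
          exact Or.inr hx
      · apply V1_generic L _ _ d.τ d.m _ _ ρ p hp hco
        · rw [hw1, hoa, List.getLast?_append, mid_last d.τ d.l d.m hbef]
          rfl
        · rw [hw2, hob, List.head?_append, lb_head L d.τ d.m hm]
          rfl
    · have hbef' : bef d.τ d.m d.l := by
        unfold bef at hbef ⊢
        split_ifs at hbef ⊢ <;> omega
      have hoa : oa L (wl e.2.1) d = wl e.2.1 ++ (lb L d.τ d.l ++ (lg L d.σ ++ la L d.τ d.m)) := by
        unfold oa; simp [hk, hbef]
      have hob : ob L (wl e.2.2) d = mid d.τ d.m d.l ++ wl e.2.2 := by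
        unfold ob; simp [hk, hbef]
      by_cases hco : ρ = bar d.τ ∧ p = d.m
      · obtain ⟨rfl, rfl⟩ := hco
        have hX : XX L (out L e d).2.1 (bar d.τ) d.m = e.2.1 * b L d.τ d.l * g L d.σ := by
          unfold XX out
          simp only [hk, hbef, Bool.false_eq_true, if_false]
          rw [b_bar]
          group
        have hY : b L d.τ d.l * YY L (out L e d).2.2 (bar d.τ) d.m = e.2.2 := by
          unfold YY out
          simp only [hk, hbef, Bool.false_eq_true, if_false]
          rw [a_bar]
          group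
        have hwX : wl (XX L (out L e d).2.1 (bar d.τ) d.m)
            = wl e.2.1 ++ lb L d.τ d.l ++ lg L d.σ := by
          apply wl_eq
          · rw [hX, map_mul, map_mul, pi_g, pi_b L _ _ hl, pi_eq_wl e.2.1, FreeGroup.mul_mk,
              FreeGroup.mul_mk]
          · apply isReduced_of_nodup
            rw [hoa, List.map_append] at hnd
            have h3 := hnd.of_append_left
            rw [← List.append_assoc, ← List.append_assoc, List.map_append] at h3
            exact h3.of_append_left
        have hτX : d.τ.1 ∈ ix (wl (XX L (out L e d).2.1 (bar d.τ) d.m)) := by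
          rw [hwX]
          have h3 : fe d.τ d.l ∈ lb L d.τ d.l := List.mem_of_mem_head? (lb_head L d.τ d.l hl)
          exact V1_mem_ix (x := fe d.τ d.l)
            (List.mem_append_left _ (List.mem_append_right _ h3))
        have hσX : d.σ.1 ∈ ix (wl (XX L (out L e d).2.1 (bar d.τ) d.m)) := by
          rw [hwX]
          have h3 : st L d.σ ∈ lg L d.σ := List.mem_of_mem_head? (lg_head L d.σ)
          exact V1_mem_ix (x := st L d.σ) (List.mem_append_right _ h3)
        rw [hix]
        intro x hx
        rw [Finset.mem_insert, Finset.mem_insert] at hx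
        unfold idx at hx ⊢
        rw [Finset.mem_union] at hx ⊢
        rcases hx with rfl | rfl | hx | hx
        · exact Or.inl hτX
        · exact Or.inl hσX
        · refine Or.inl ?_
          rw [hwX, V1_ix_append, V1_ix_append, Finset.mem_union, Finset.mem_union]
          exact Or.inl (Or.inl hx)
        · have h3 := ix_mul (b L d.τ d.l) (YY L (out L e d).2.2 (bar d.τ) d.m)
          rw [hY] at h3
          have h4 := h3 hx
          rw [Finset.mem_union] at h4
          rcases h4 with h4 | h4
          · have h5 := V1_ix_b L d.τ d.l hl h4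
            rw [Finset.mem_singleton] at h5
            rw [h5]
            exact Or.inl hτX
          · exact Or.inr h4
      · apply V1_generic L _ _ d.τ d.m _ _ ρ p hp hco
        · rw [hw1, hoa, ← List.append_assoc, ← List.append_assoc, List.getLast?_append,
            la_last L d.τ d.m hm]
          rfl
        · rw [hw2, hob, List.head?_append, mid_head d.τ d.m d.l hbef']
          rfl
  · -- kd = true
    have hoa : oa L (wl e.2.1) d = wl e.2.1 ++ (lb L d.τ d.l ++ la L d.σ d.m) := by
      unfold oa; simp [hk]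
    have hob : ob L (wl e.2.2) d = lb L d.σ d.m ++ (la L d.τ d.l ++ wl e.2.2) := by
      unfold ob; simp [hk]
    apply V1_generic L _ _ d.σ d.m _ _ ρ p hp
    · intro h
      exact hnc ⟨hk, h⟩
    · rw [hw1, hoa, ← List.append_assoc, List.getLast?_append, la_last L d.σ d.m hm]
      rfl
    · rw [hw2, hob, List.head?_append, lb_head L d.σ d.m hm]
      rfl

end

end H684FC.P
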