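import Pool.Agent.H684R3.FC.Stubs

/-! Task V2: `vis0`, `idx_XY`, `a_inj`, `b_inj`. -/

namespace H684FC.P

theorem V2_mem_ix (α : List ((ℕ × ℕ) × Bool)) (x : (ℕ × ℕ) × Bool) (h : x ∈ α) : x.1.1 ∈ ix α := by
  unfold ix
  rw [List.mem_toFinset, List.mem_map]
  exact ⟨x, h, rfl⟩

theorem V2_la_nodup (L : ℕ) (σ : Sg) (l : ℕ) (hl : l < L) : ((la L σ l).map Prod.fst).Nodup := by
  have h := lg_nodup L σ
  rw [← la_append_lb L σ l hl, List.map_append, List.nodup_append] at h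
  exact h.1

theorem V2_lb_nodup (L : ℕ) (σ : Sg) (l : ℕ) (hl : l < L) : ((lb L σ l).map Prod.fst).Nodup := by
  have h := lg_nodup L σ
  rw [← la_append_lb L σ l hl, List.map_append, List.nodup_append] at h
  exact h.2.1

theorem V2_wl_a (L : ℕ) (σ : Sg) (l : ℕ) (hl : l < L) : wl (a L σ l) = la L σ l :=
  wl_eq _ _ (pi_a L σ l hl) (isReduced_of_nodup _ (V2_la_nodup L σ l hl))

theorem V2_wl_b (L : ℕ) (σ : Sg) (l : ℕ) (hl : l < L) : wl (b L σ l) = lb L σ l :=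
  wl_eq _ _ (pi_b L σ l hl) (isReduced_of_nodup _ (V2_lb_nodup L σ l hl))

theorem V2_le_inj (ρ ρ' : Sg) (p p' : ℕ) (h : le ρ p = le ρ' p') : ρ = ρ' ∧ p = p' := by
  unfold le at h
  rw [Prod.mk.injEq, Prod.mk.injEq] at h
  obtain ⟨⟨h1, h2⟩, h3⟩ := h
  refine ⟨Prod.ext h1 h3, ?_⟩
  rw [h3] at h2
  split_ifs at h2 with hs <;> omega

theorem V2_fe_inj (ρ ρ' : Sg) (p p' : ℕ) (h : fe ρ p = fe ρ' p') : ρ = ρ' ∧ p = p' := by
  unfold fe at h
  rw [Prod.mk.injEq, Prod.mk.injEq] at h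
  obtain ⟨⟨h1, h2⟩, h3⟩ := h
  refine ⟨Prod.ext h1 h3, ?_⟩
  rw [h3] at h2
  split_ifs at h2 with hs <;> omega

theorem a_inj (L : ℕ) (ρ ρ' : Sg) (p p' : ℕ) (hp : p < L) (hp' : p' < L)
    (h : a L ρ p = a L ρ' p') : ρ = ρ' ∧ p = p' := by
  have h1 : la L ρ p = la L ρ' p' := by rw [← V2_wl_a L ρ p hp, ← V2_wl_a L ρ' p' hp', h]
  have h2 : some (le ρ p) = some (le ρ' p') := by
    rw [← la_last L ρ p hp, ← la_last L ρ' p' hp', h1]
  exact V2_le_inj _ _ _ _ (Option.some.inj h2)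

theorem b_inj (L : ℕ) (ρ ρ' : Sg) (p p' : ℕ) (hp : p < L) (hp' : p' < L)
    (h : b L ρ p = b L ρ' p') : ρ = ρ' ∧ p = p' := by
  have h1 : lb L ρ p = lb L ρ' p' := by rw [← V2_wl_b L ρ p hp, ← V2_wl_b L ρ' p' hp', h]
  have h2 : some (fe ρ p) = some (fe ρ' p') := by
    rw [← lb_head L ρ p hp, ← lb_head L ρ' p' hp', h1]
  exact V2_fe_inj _ _ _ _ (Option.some.inj h2)

theorem V2_ix_la (L : ℕ) (σ : Sg) (l : ℕ) (hl : l < L) : ix (la L σ l) ⊆ {σ.1} := by
  intro j hj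
  unfold ix at hj
  rw [List.mem_toFinset, List.mem_map] at hj
  obtain ⟨x, hx, rfl⟩ := hj
  rw [Finset.mem_singleton]
  apply lg_index L σ x
  rw [← la_append_lb L σ l hl]
  exact List.mem_append_left _ hx

theorem V2_ix_lb (L : ℕ) (σ : Sg) (l : ℕ) (hl : l < L) : ix (lb L σ l) ⊆ {σ.1} := by
  intro j hj
  unfold ix at hj
  rw [List.mem_toFinset, List.mem_map] at hj
  obtain ⟨x, hx, rfl⟩ := hj
  rw [Finset.mem_singleton]
  apply lg_index L σ x
  rw [← la_append_lb L σ l hl]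
  exact List.mem_append_right _ hx

theorem idx_XY (L : ℕ) (A B : Gam) (ρ : Sg) (p : ℕ) (hp : p < L) :
    idx (XX L A ρ p) (YY L B ρ p) ⊆ insert ρ.1 (idx A B) := by
  intro j hj
  unfold idx XX YY at hj
  rw [Finset.mem_union] at hj
  unfold idx
  rw [Finset.mem_insert, Finset.mem_union]
  rcases hj with hj | hj
  · have h := ix_mul A (b L ρ p) hj
    rw [Finset.mem_union] at h
    rcases h with h | h
    · right; left; exact h
    · left
      rw [V2_wl_b L ρ p hp] at h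
      have := V2_ix_lb L ρ p hp h
      rwa [Finset.mem_singleton] at this
  · have h := ix_mul (a L ρ p) B hj
    rw [Finset.mem_union] at h
    rcases h with h | h
    · left
      rw [V2_wl_a L ρ p hp] at h
      have := V2_ix_la L ρ p hp h
      rwa [Finset.mem_singleton] at this
    · right; right; exact h

theorem V2_junction (σ ρ : Sg) (m p : ℕ) (hnc : ¬ (ρ = bar σ ∧ p = m)) :
    (le σ m).1 = (fe ρ p).1 → (le σ m).2 = (fe ρ p).2 := by
  unfold le fe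
  intro h
  simp only [Prod.mk.injEq] at h
  obtain ⟨h1, h2⟩ := h
  show σ.2 = ρ.2
  by_contra hne
  apply hnc
  cases hs : σ.2 <;> cases hr : ρ.2
  · rw [hs, hr] at hne; exact absurd rfl hne
  · rw [hs, hr] at h2
    simp at h2
    refine ⟨Prod.ext h1.symm ?_, h2.symm⟩
    show ρ.2 = !σ.2
    rw [hs, hr]; rfl
  · rw [hs, hr] at h2
    simp at h2
    refine ⟨Prod.ext h1.symm ?_, h2.symm⟩
    show ρ.2 = !σ.2
    rw [hs, hr]; rfl
  · rw [hs, hr] at hne; exact absurd rfl hne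

theorem vis0 (L : ℕ) (σ : Sg) (m : ℕ) (hm : m < L) (ρ : Sg) (p : ℕ)
    (hp : p < L) (hnc : ¬ (ρ = bar σ ∧ p = m)) :
    {σ.1} ⊆ idx (XX L (a L σ m) ρ p) (YY L (b L σ m) ρ p) := by
  intro j hj
  rw [Finset.mem_singleton] at hj
  subst hj
  unfold idx
  rw [Finset.mem_union]
  left
  have hred : FreeGroup.IsReduced (la L σ m ++ lb L ρ p) := by
    unfold FreeGroup.IsReduced
    rw [List.isChain_append]
    refine ⟨isReduced_of_nodup _ (V2_la_nodup L σ m hm), isReduced_of_nodup _ (V2_lb_nodup L ρ p hp),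
      ?_⟩
    intro x hx y hy
    rw [la_last L σ m hm, Option.mem_some_iff] at hx
    rw [lb_head L ρ p hp, Option.mem_some_iff] at hy
    subst hx; subst hy
    exact V2_junction σ ρ m p hnc
  have hw : wl (XX L (a L σ m) ρ p) = la L σ m ++ lb L ρ p := by
    apply wl_eq _ _ _ hred
    unfold XX
    rw [map_mul, pi_a L σ m hm, pi_b L ρ p hp, FreeGroup.mul_mk]
  rw [hw]
  have h1 : le σ m ∈ la L σ m := List.mem_of_getLast? (la_last L σ m hm)
  have h2 := V2_mem_ix (la L σ m ++ lb L ρ p) (le σ m) (List.mem_append_left _ h1)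
  simpa [le] using h2

end H684FC.P
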