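import Pool.Agent.H684R3.FC.Stubs

/-! Task W1 (helper409): group words and their images. -/

namespace H684FC.P

theorem W1_aux_seg (j p m n : ℕ) : seg j p (m + n) = seg j p m ++ seg j (p + m) n := by
  unfold seg
  rw [← List.map_append, List.range'_append_1]

theorem a_mul_b (L : ℕ) (σ : Sg) (l : ℕ) : a L σ l * b L σ l = g L σ := by
  obtain ⟨j, s⟩ := σ
  cases s <;> simp [a, b, g]

theorem a_bar (L : ℕ) (σ : Sg) (l : ℕ) : a L (bar σ) l = (b L σ l)⁻¹ := by
  obtain ⟨j, s⟩ := σ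
  cases s <;> simp [a, b, bar]

theorem b_bar (L : ℕ) (σ : Sg) (l : ℕ) : b L (bar σ) l = (a L σ l)⁻¹ := by
  obtain ⟨j, s⟩ := σ
  cases s <;> simp [a, b, bar]

theorem g_bar (L : ℕ) (σ : Sg) : g L (bar σ) = (g L σ)⁻¹ := by
  obtain ⟨j, s⟩ := σ
  cases s <;> simp [g, bar]

theorem W1_aux_w (j n : ℕ) : pi (w j n) = FreeGroup.mk [((j, n), true)] := by
  unfold pi w
  rw [FreeGroup.lift_apply_of]
  rfl

theorem W1_aux_u (i : Fin 4) : pi (u i) = 1 := by
  unfold pi u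
  rw [FreeGroup.lift_apply_of]
  rfl

theorem pi_AA (j n : ℕ) : pi (AA j n) = FreeGroup.mk (seg j 0 n) := by
  induction n with
  | zero => rw [AA, map_one]; rfl
  | succ n ih =>
    rw [AA, map_mul, map_mul, ih, W1_aux_w, W1_aux_u, mul_one, FreeGroup.mul_mk, W1_aux_seg]
    simp [seg]

theorem W1_aux_gP (L j : ℕ) : pi (gP L j) = FreeGroup.mk (seg j 0 (L + 1)) := by
  rw [gP, map_mul, pi_AA, W1_aux_w, FreeGroup.mul_mk, W1_aux_seg]
  simp [seg]

/-- splitting of a segment -/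
theorem W1_aux_split (j : ℕ) {l m : ℕ} (h : l ≤ m) :
    (FreeGroup.mk (seg j 0 m) : Wd) = FreeGroup.mk (seg j 0 l) * FreeGroup.mk (seg j l (m - l)) := by
  rw [FreeGroup.mul_mk]
  congr 1
  conv_lhs => rw [show m = l + (m - l) by omega, W1_aux_seg, Nat.zero_add]

theorem pi_a (L : ℕ) (σ : Sg) (l : ℕ) (h : l < L) : pi (a L σ l) = FreeGroup.mk (la L σ l) := by
  obtain ⟨j, s⟩ := σ
  cases s
  · simp only [a, la, Bool.false_eq_true, if_false]
    rw [map_mul, map_inv, W1_aux_gP, pi_AA, W1_aux_split j (show l + 1 ≤ L + 1 by omega),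
      mul_inv_rev, inv_mul_cancel_right, FreeGroup.inv_mk]
    congr 3
    omega
  · simp only [a, la, if_true]
    exact pi_AA _ _

theorem pi_b (L : ℕ) (σ : Sg) (l : ℕ) (h : l < L) : pi (b L σ l) = FreeGroup.mk (lb L σ l) := by
  obtain ⟨j, s⟩ := σ
  cases s
  · simp only [b, lb, Bool.false_eq_true, if_false]
    rw [map_inv, pi_AA, FreeGroup.inv_mk]
  · simp only [b, lb, if_true]
    rw [map_mul, map_inv, W1_aux_gP, pi_AA, W1_aux_split j (show l + 1 ≤ L + 1 by omega),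
      inv_mul_cancel_left]
    congr 2
    omega

theorem pi_g (L : ℕ) (σ : Sg) : pi (g L σ) = FreeGroup.mk (lg L σ) := by
  obtain ⟨j, s⟩ := σ
  cases s
  · simp only [g, lg, Bool.false_eq_true, if_false]
    rw [map_inv, W1_aux_gP, FreeGroup.inv_mk]
  · simp only [g, lg, if_true]
    exact W1_aux_gP _ _

theorem W1_aux_pos (j : ℕ) {l m : ℕ} (h : l < m) :
    pi ((AA j (l + 1))⁻¹ * AA j (m + 1)) = FreeGroup.mk (seg j (l + 1) (m - l)) := by
  rw [map_mul, map_inv, pi_AA, pi_AA, W1_aux_split j (show l + 1 ≤ m + 1 by omega),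
    inv_mul_cancel_left]
  congr 2
  omega

theorem W1_aux_neg (j : ℕ) {l m : ℕ} (h : m < l) :
    pi ((AA j (l + 1))⁻¹ * AA j (m + 1)) =
      FreeGroup.mk (FreeGroup.invRev (seg j (m + 1) (l - m))) := by
  have : (AA j (l + 1))⁻¹ * AA j (m + 1) = ((AA j (m + 1))⁻¹ * AA j (l + 1))⁻¹ := by group
  rw [this, map_inv, W1_aux_pos j h, FreeGroup.inv_mk]

theorem pi_mid (L : ℕ) (τ : Sg) (l m : ℕ) (hl : l < L) (hm : m < L) (h : bef τ l m) :
    pi ((a L τ l)⁻¹ * a L τ m) = FreeGroup.mk (mid τ l m) := by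
  obtain ⟨j, s⟩ := τ
  cases s
  · simp only [a, mid, bef, Bool.false_eq_true, if_false] at h ⊢
    rw [← W1_aux_neg j h]
    congr 1
    group
  · simp only [a, mid, bef, if_true] at h ⊢
    exact W1_aux_pos j h

theorem pi_mid' (L : ℕ) (τ : Sg) (l m : ℕ) (hl : l < L) (hm : m < L) (h : bef τ m l) :
    pi (b L τ m * (b L τ l)⁻¹) = FreeGroup.mk (mid τ m l) := by
  obtain ⟨j, s⟩ := τ
  cases s
  · simp only [b, mid, bef, Bool.false_eq_true, if_false] at h ⊢
    rw [inv_inv]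
    exact W1_aux_neg j h
  · simp only [b, mid, bef, if_true] at h ⊢
    rw [← W1_aux_pos j h]
    congr 1
    group

end H684FC.P
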