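import Pool.Agent.H684R3.FC.Stubs

/-! W2 (helper640): lists `la`, `lb`, `lg`, `mid`. -/

namespace H684FC.P

noncomputable section
open Classical

theorem W2_aux_append (j p n m : ℕ) : seg j p n ++ seg j (p + n) m = seg j p (n + m) := by
  unfold seg
  rw [← List.map_append, List.range'_append_1]

theorem W2_aux_inv_append (X Y : List ((ℕ × ℕ) × Bool)) :
    FreeGroup.invRev X ++ FreeGroup.invRev Y = FreeGroup.invRev (Y ++ X) := by
  simp [FreeGroup.invRev]

theorem W2_aux_len (j p n : ℕ) : (seg j p n).length = n := by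
  simp [seg]

theorem W2_aux_head (j p n : ℕ) (h : 0 < n) : (seg j p n).head? = some ((j, p), true) := by
  obtain ⟨m, rfl⟩ : ∃ m, n = m + 1 := ⟨n - 1, by omega⟩
  simp [seg, List.range'_succ]

theorem W2_aux_last (j p n : ℕ) (h : 0 < n) :
    (seg j p n).getLast? = some ((j, p + n - 1), true) := by
  obtain ⟨m, rfl⟩ : ∃ m, n = m + 1 := ⟨n - 1, by omega⟩
  have : seg j p (m + 1) = seg j p m ++ seg j (p + m) 1 := (W2_aux_append j p m 1).symm
  rw [this]
  simp [seg]

theorem W2_aux_inv_head (X : List ((ℕ × ℕ) × Bool)) :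
    (FreeGroup.invRev X).head? = X.getLast?.map (fun x => (x.1, !x.2)) := by
  simp [FreeGroup.invRev]

theorem W2_aux_inv_last (X : List ((ℕ × ℕ) × Bool)) :
    (FreeGroup.invRev X).getLast? = X.head?.map (fun x => (x.1, !x.2)) := by
  simp [FreeGroup.invRev]

theorem la_append_lb (L : ℕ) (σ : Sg) (l : ℕ) (h : l < L) : la L σ l ++ lb L σ l = lg L σ := by
  obtain ⟨j, _ | _⟩ := σ
  · simp only [la, lb, lg, Bool.false_eq_true, if_false, W2_aux_inv_append]
    have := W2_aux_append j 0 (l + 1) (L - l)
    rw [Nat.zero_add] at this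
    rw [this, show l + 1 + (L - l) = L + 1 by omega]
  · simp only [la, lb, lg, if_true]
    have := W2_aux_append j 0 (l + 1) (L - l)
    rw [Nat.zero_add] at this
    rw [this, show l + 1 + (L - l) = L + 1 by omega]

theorem lb_split (L : ℕ) (τ : Sg) (l m : ℕ) (hl : l < L) (hm : m < L) (h : bef τ l m) :
    lb L τ l = mid τ l m ++ lb L τ m := by
  obtain ⟨j, _ | _⟩ := τ
  · simp only [bef, Bool.false_eq_true, if_false] at h
    simp only [mid, lb, Bool.false_eq_true, if_false, W2_aux_inv_append]
    have := W2_aux_append j 0 (m + 1) (l - m)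
    rw [Nat.zero_add] at this
    rw [this, show m + 1 + (l - m) = l + 1 by omega]
  · simp only [bef, if_true] at h
    simp only [mid, lb, if_true]
    have := W2_aux_append j (l + 1) (m - l) (L - m)
    rw [show l + 1 + (m - l) = m + 1 by omega, show m - l + (L - m) = L - l by omega] at this
    rw [this]

theorem la_split (L : ℕ) (τ : Sg) (l m : ℕ) (hl : l < L) (hm : m < L) (h : bef τ l m) :
    la L τ m = la L τ l ++ mid τ l m := by
  obtain ⟨j, _ | _⟩ := τ
  · simp only [bef, Bool.false_eq_true, if_false] at h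
    simp only [mid, la, Bool.false_eq_true, if_false, W2_aux_inv_append]
    have := W2_aux_append j (m + 1) (l - m) (L - l)
    rw [show m + 1 + (l - m) = l + 1 by omega, show l - m + (L - l) = L - m by omega] at this
    rw [this]
  · simp only [bef, if_true] at h
    simp only [mid, la, if_true]
    have := W2_aux_append j 0 (l + 1) (m - l)
    rw [Nat.zero_add] at this
    rw [this, show l + 1 + (m - l) = m + 1 by omega]

theorem W2_aux_nodup (j p n : ℕ) : ((seg j p n).map Prod.fst).Nodup := by
  unfold seg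
  rw [List.map_map]
  refine List.Nodup.map ?_ (List.nodup_range' (step := 1))
  intro a b hab
  simpa using hab

theorem lg_nodup (L : ℕ) (σ : Sg) : ((lg L σ).map Prod.fst).Nodup := by
  obtain ⟨j, _ | _⟩ := σ
  · simp only [lg, Bool.false_eq_true, if_false]
    have h := W2_aux_nodup j 0 (L + 1)
    have e : (FreeGroup.invRev (seg j 0 (L + 1))).map Prod.fst =
        ((seg j 0 (L + 1)).map Prod.fst).reverse := by
      simp only [FreeGroup.invRev, List.map_reverse, List.map_map]
      rfl
    rw [e]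
    exact List.nodup_reverse.2 h
  · simp only [lg, if_true]
    exact W2_aux_nodup j 0 (L + 1)

theorem lg_index (L : ℕ) (σ : Sg) : ∀ x ∈ lg L σ, x.1.1 = σ.1 := by
  obtain ⟨j, _ | _⟩ := σ
  · intro x hx
    simp only [lg, Bool.false_eq_true, if_false, FreeGroup.invRev, seg, List.mem_reverse,
      List.mem_map] at hx
    obtain ⟨y, ⟨q, -, rfl⟩, rfl⟩ := hx
    rfl
  · intro x hx
    simp only [lg, if_true, seg, List.mem_map] at hx
    obtain ⟨q, -, rfl⟩ := hx
    rfl

theorem la_length (L : ℕ) (σ : Sg) (l : ℕ) (h : l < L) :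
    (la L σ l).length = if σ.2 then l + 1 else L - l := by
  obtain ⟨j, _ | _⟩ := σ <;> simp [la, W2_aux_len]

theorem lb_length (L : ℕ) (σ : Sg) (l : ℕ) (h : l < L) :
    (lb L σ l).length = if σ.2 then L - l else l + 1 := by
  obtain ⟨j, _ | _⟩ := σ <;> simp [lb, W2_aux_len]

theorem mid_length (τ : Sg) (l m : ℕ) (h : bef τ l m) :
    (mid τ l m).length = if τ.2 then m - l else l - m := by
  obtain ⟨j, _ | _⟩ := τ <;> simp [mid, W2_aux_len]

theorem la_last (L : ℕ) (σ : Sg) (l : ℕ) (h : l < L) :
    (la L σ l).getLast? = some (le σ l) := by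
  obtain ⟨j, _ | _⟩ := σ
  · simp only [la, le, Bool.false_eq_true, if_false, W2_aux_inv_last]
    rw [W2_aux_head _ _ _ (by omega)]
    rfl
  · simp only [la, le, if_true]
    rw [W2_aux_last _ _ _ (by omega)]
    simp

theorem la_head (L : ℕ) (σ : Sg) (l : ℕ) (h : l < L) : (la L σ l).head? = some (st L σ) := by
  obtain ⟨j, _ | _⟩ := σ
  · simp only [la, st, Bool.false_eq_true, if_false, W2_aux_inv_head]
    rw [W2_aux_last _ _ _ (by omega), show l + 1 + (L - l) - 1 = L by omega]
    rfl
  · simp only [la, st, if_true]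
    rw [W2_aux_head _ _ _ (by omega)]

theorem lb_last (L : ℕ) (σ : Sg) (l : ℕ) (h : l < L) : (lb L σ l).getLast? = some (en L σ) := by
  obtain ⟨j, _ | _⟩ := σ
  · simp only [lb, en, Bool.false_eq_true, if_false, W2_aux_inv_last]
    rw [W2_aux_head _ _ _ (by omega)]
    rfl
  · simp only [lb, en, if_true]
    rw [W2_aux_last _ _ _ (by omega), show l + 1 + (L - l) - 1 = L by omega]

theorem lb_head (L : ℕ) (σ : Sg) (l : ℕ) (h : l < L) : (lb L σ l).head? = some (fe σ l) := by
  obtain ⟨j, _ | _⟩ := σ
  · simp only [lb, fe, Bool.false_eq_true, if_false, W2_aux_inv_head]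
    rw [W2_aux_last _ _ _ (by omega), show 0 + (l + 1) - 1 = l by omega]
    rfl
  · simp only [lb, fe, if_true]
    rw [W2_aux_head _ _ _ (by omega)]

theorem lg_head (L : ℕ) (σ : Sg) : (lg L σ).head? = some (st L σ) := by
  obtain ⟨j, _ | _⟩ := σ
  · simp only [lg, st, Bool.false_eq_true, if_false, W2_aux_inv_head]
    rw [W2_aux_last _ _ _ (by omega), show 0 + (L + 1) - 1 = L by omega]
    rfl
  · simp only [lg, st, if_true]
    rw [W2_aux_head _ _ _ (by omega)]

theorem lg_last (L : ℕ) (σ : Sg) : (lg L σ).getLast? = some (en L σ) := by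
  obtain ⟨j, _ | _⟩ := σ
  · simp only [lg, en, Bool.false_eq_true, if_false, W2_aux_inv_last]
    rw [W2_aux_head _ _ _ (by omega)]
    rfl
  · simp only [lg, en, if_true]
    rw [W2_aux_last _ _ _ (by omega), show 0 + (L + 1) - 1 = L by omega]

theorem mid_last (τ : Sg) (l m : ℕ) (h : bef τ l m) :
    (mid τ l m).getLast? = some (le τ m) := by
  obtain ⟨j, _ | _⟩ := τ
  · simp only [bef, Bool.false_eq_true, if_false] at h
    simp only [mid, le, Bool.false_eq_true, if_false, W2_aux_inv_last]
    rw [W2_aux_head _ _ _ (by omega)]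
    rfl
  · simp only [bef, if_true] at h
    simp only [mid, le, if_true]
    rw [W2_aux_last _ _ _ (by omega), show l + 1 + (m - l) - 1 = m by omega]

theorem mid_head (τ : Sg) (l m : ℕ) (h : bef τ l m) :
    (mid τ l m).head? = some (fe τ l) := by
  obtain ⟨j, _ | _⟩ := τ
  · simp only [bef, Bool.false_eq_true, if_false] at h
    simp only [mid, fe, Bool.false_eq_true, if_false, W2_aux_inv_head]
    rw [W2_aux_last _ _ _ (by omega), show m + 1 + (l - m) - 1 = l by omega]
    rfl
  · simp only [bef, if_true] at h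
    simp only [mid, fe, if_true]
    rw [W2_aux_head _ _ _ (by omega)]

end

end H684FC.P
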