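import Pool.Agent.H684R3.FC.Stubs

namespace H684FC.P

open H684FC

noncomputable section
open Classical

theorem isReduced_of_nodup (α : List ((ℕ × ℕ) × Bool)) (h : (α.map Prod.fst).Nodup) :
    FreeGroup.IsReduced α := by
  unfold FreeGroup.IsReduced
  apply List.Pairwise.isChain
  rw [List.Nodup, List.pairwise_map] at h
  exact h.imp fun hne heq => absurd heq hne

theorem wl_eq (x : Gam) (α : List ((ℕ × ℕ) × Bool)) (h : pi x = FreeGroup.mk α)
    (hα : FreeGroup.IsReduced α) : wl x = α := by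
  unfold wl
  rw [h, FreeGroup.toWord_mk]
  exact hα.reduce_eq

theorem pi_eq_wl (x : Gam) : pi x = FreeGroup.mk (wl x) := by
  unfold wl
  rw [FreeGroup.mk_toWord]

theorem ix_mul (x y : Gam) : ix (wl (x * y)) ⊆ ix (wl x) ∪ ix (wl y) := by
  unfold ix wl
  rw [map_mul]
  intro j hj
  rw [List.mem_toFinset, List.mem_map] at hj
  obtain ⟨z, hz, rfl⟩ := hj
  have h1 : z ∈ (pi x).toWord ++ (pi y).toWord :=
    (FreeGroup.toWord_mul_sublist (pi x) (pi y)).subset hz
  rw [List.mem_append] at h1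
  rw [Finset.mem_union, List.mem_toFinset, List.mem_toFinset]
  rcases h1 with h1 | h1
  · exact Or.inl (List.mem_map.mpr ⟨z, h1, rfl⟩)
  · exact Or.inr (List.mem_map.mpr ⟨z, h1, rfl⟩)

theorem ix_inv (x : Gam) : ix (wl x⁻¹) = ix (wl x) := by
  unfold ix wl
  rw [map_inv, FreeGroup.toWord_inv]
  unfold FreeGroup.invRev
  ext j
  simp only [List.mem_toFinset, List.mem_map, List.mem_reverse]
  constructor
  · rintro ⟨z, ⟨y, hy, rfl⟩, rfl⟩
    exact ⟨y, hy, rfl⟩
  · rintro ⟨y, hy, rfl⟩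
    exact ⟨_, ⟨y, hy, rfl⟩, rfl⟩

end

end H684FC.P
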